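import Pool.Agent.Helper10.UL.Shift

/-!
# Thin sets and the names of the coordinates
-/

universe u v w

namespace UL

open Polynomial

/-- Thin sets are stable under isomorphisms of affine spaces. -/
theorem IsThin.comapEquiv {F : Type u} [Field F] {I : Type v} {I' : Type w}
    (e : MvPolynomial I F ≃+* MvPolynomial I' F) (φ : (I' → F) → (I → F))
    (hφ : ∀ a Ψ, MvPolynomial.eval a (e Ψ) = MvPolynomial.eval (φ a) Ψ) {A : Set (I → F)}
    (hA : IsThin A) : IsThin {a | φ a ∈ A} := by
  classical
  obtain ⟨Ψ, S, h1, h2, h3⟩ := hA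
  refine ⟨e Ψ, S.image (fun Q => Q.map (e : MvPolynomial I F →+* MvPolynomial I' F)), ?_, ?_, ?_⟩
  · exact (map_ne_zero_iff _ e.injective).2 h1
  · intro Q hQ
    obtain ⟨Q, hQS, rfl⟩ := Finset.mem_image.1 hQ
    obtain ⟨h4, h5⟩ := h2 Q hQS
    refine ⟨by rwa [natDegree_map_eq_of_injective e.injective], ?_⟩
    let E : FractionRing (MvPolynomial I F) ≃+* FractionRing (MvPolynomial I' F) :=
      IsFractionRing.ringEquivOfRingEquiv e
    have h6 : (Q.map (e : MvPolynomial I F →+* MvPolynomial I' F)).map
        (algebraMap (MvPolynomial I' F) (FractionRing (MvPolynomial I' F))) =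
        Polynomial.mapEquiv E (Q.map (algebraMap (MvPolynomial I F)
          (FractionRing (MvPolynomial I F)))) := by
      rw [Polynomial.mapEquiv_apply, Polynomial.map_map, Polynomial.map_map]
      congr 1
      ext x
      · simp [E]
      · simp [E]
    rw [h6]
    exact (MulEquiv.irreducible_iff (Polynomial.mapEquiv E)).2 h5
  · intro a ha
    rcases h3 _ ha with h | ⟨Q, hQ, x, hx⟩
    · exact Or.inl (by rw [hφ]; exact h)
    · refine Or.inr ⟨_, Finset.mem_image_of_mem _ hQ, x, ?_⟩
      rw [eval₂_map, ← hx]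
      congr 1
      ext Ψ
      · simp [hφ]
      · simp [hφ]

/-- Thin sets and a bijection of the index sets. -/
theorem IsThin.reindex {F : Type u} [Field F] {I : Type v} {I' : Type w} (g : I ≃ I')
    {A : Set (I → F)} (hA : IsThin A) : IsThin {a : I' → F | a ∘ g ∈ A} :=
  hA.comapEquiv (MvPolynomial.renameEquiv F g).toRingEquiv (fun a => a ∘ g) (fun a Ψ => by
    change MvPolynomial.eval a (MvPolynomial.rename g Ψ) = _
    rw [MvPolynomial.eval_rename])

end UL
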