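import Mathlib
import Pool.Agent.Helper37.UL.Data

/-!
# The polynomial of bad values
-/

namespace UL

open Polynomial

/-- `Res_{d, d-1}(f, f')` -/
noncomputable def RR {R : Type*} [CommRing R] (d : ℕ) (f : R[X]) : R :=
  resultant f (derivative f) d (d - 1)

theorem RR_map {R S : Type*} [CommRing R] [CommRing S] (d : ℕ) (f : R[X]) (φ : R →+* S) :
    RR d (f.map φ) = φ (RR d f) := by
  unfold RR
  rw [derivative_map, resultant_map_map]

lemma natDegree_det_le {R : Type*} [CommRing R] {n m : ℕ} (M : Matrix (Fin n) (Fin n) R[X])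
    (h : ∀ i j, (M i j).natDegree ≤ m) : M.det.natDegree ≤ n * m := by
  rw [Matrix.det_apply]
  refine natDegree_sum_le_of_forall_le _ _ fun σ _ => ?_
  have h1 : (∏ i, M (σ i) i).natDegree ≤ n * m := by
    refine (natDegree_prod_le _ _).trans ?_
    refine (Finset.sum_le_sum fun i _ => h (σ i) i).trans ?_
    rw [Finset.sum_const, Finset.card_univ, Fintype.card_fin, smul_eq_mul]
  rcases Int.units_eq_one_or (Equiv.Perm.sign σ) with h2 | h2
  · rw [h2, one_smul]
    exact h1
  · rw [h2, Units.neg_smul, one_smul, natDegree_neg]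
    exact h1

theorem natDegree_RR_le {R : Type*} [CommRing R] {f : R[X][X]} {m d : ℕ}
    (hf : ∀ i, (f.coeff i).natDegree ≤ m) : (RR d f).natDegree ≤ (d + (d - 1)) * m := by
  have hf' : ∀ i, ((derivative f).coeff i).natDegree ≤ m := by
    intro i
    rw [coeff_derivative]
    have e : ((i : R[X]) + 1) = C ((i : R) + 1) := by simp
    rw [e]
    exact (natDegree_mul_C_le _ _).trans (hf _)
  unfold RR resultant
  refine natDegree_det_le _ fun i j => ?_
  rw [sylvester, Matrix.of_apply]
  refine Fin.addCases (fun j₁ => ?_) (fun j₁ => ?_) j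
  · rw [Fin.addCases_left]
    split_ifs
    · exact hf' _
    · simp
  · rw [Fin.addCases_right]
    split_ifs
    · exact hf _
    · simp

theorem RR_ne_zero_iff {K : Type*} [Field K] [CharZero K] {f : K[X]} {d : ℕ} (hd : 2 ≤ d)
    (hf : f.natDegree ≤ d) : RR d f ≠ 0 ↔ f.natDegree = d ∧ f.Separable := by
  have key : f.natDegree = d → RR d f = resultant f (derivative f) := by
    intro h
    unfold RR
    have h1 : (derivative f).natDegree = d - 1 := by
      refine natDegree_eq_of_le_of_coeff_ne_zero ?_ ?_
      · exact (natDegree_derivative_le f).trans (by omega)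
      · rw [coeff_derivative, Nat.sub_add_cancel (by omega)]
        have h0 : f ≠ 0 := by
          rintro rfl
          rw [natDegree_zero] at h
          omega
        refine mul_ne_zero ?_ ?_
        · rw [← h]; exact leadingCoeff_ne_zero.mpr h0
        · have e : (((d - 1 : ℕ) : K) + 1) = ((d - 1 + 1 : ℕ) : K) := by push_cast; ring
          rw [e, Nat.cast_ne_zero]
          omega
    rw [h1, h]
  constructor
  · intro h
    have h1 : f.natDegree = d := by
      by_contra hne
      have hlt : f.natDegree < d := lt_of_le_of_ne hf hne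
      apply h
      unfold RR
      refine resultant_eq_zero_of_lt_lt _ _ _ _ hlt ?_
      have := natDegree_derivative_le f
      omega
    refine ⟨h1, ?_⟩
    rw [key h1] at h
    by_contra hc
    apply h
    rw [resultant_eq_zero_iff]
    refine ⟨Or.inl ?_, hc⟩
    rintro rfl
    rw [natDegree_zero] at h1
    omega
  · rintro ⟨h1, h2⟩
    rw [key h1]
    exact resultant_ne_zero _ _ h2

section fam

variable {R : Type*} [CommRing R] {d m : ℕ}

/-- the polynomial `∑ (∑ a i l T ^ l) X ^ i` -/
noncomputable def fam (a : Fin (d + 1) → Fin (m + 1) → R) : R[X][X] :=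
  ∑ i : Fin (d + 1), C (∑ l : Fin (m + 1), C (a i l) * X ^ (l : ℕ)) * X ^ (i : ℕ)

lemma coeff_fam_natDegree (a : Fin (d + 1) → Fin (m + 1) → R) (j : ℕ) :
    ((fam a).coeff j).natDegree ≤ m := by
  unfold fam
  rw [finsetSum_coeff]
  refine natDegree_sum_le_of_forall_le _ _ fun i _ => ?_
  rw [coeff_C_mul, coeff_X_pow]
  split_ifs
  · rw [mul_one]
    refine natDegree_sum_le_of_forall_le _ _ fun q _ => ?_
    exact (natDegree_C_mul_X_pow_le _ _).trans (by omega)
  · simp

lemma natDegree_fam (a : Fin (d + 1) → Fin (m + 1) → R) : (fam a).natDegree ≤ d := by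
  unfold fam
  refine natDegree_sum_le_of_forall_le _ _ fun i _ => ?_
  exact (natDegree_C_mul_X_pow_le _ _).trans (by omega)

/-- the specialised polynomial -/
noncomputable def spec {S : Type*} [CommRing S] (a : Fin (d + 1) → S) : S[X] :=
  ∑ i : Fin (d + 1), C (a i) * X ^ (i : ℕ)

lemma fam_map {S : Type*} [CommRing S] (a : Fin (d + 1) → Fin (m + 1) → R) (φ : R →+* S) (s : S) :
    (fam a).map (eval₂RingHom φ s) = spec fun i => ∑ l, φ (a i l) * s ^ (l : ℕ) := by
  unfold fam spec
  rw [Polynomial.map_sum]
  refine Finset.sum_congr rfl fun i _ => ?_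
  rw [Polynomial.map_mul, Polynomial.map_pow, map_X, map_C, map_sum]
  congr 2
  refine Finset.sum_congr rfl fun q _ => ?_
  rw [map_mul, map_pow, coe_eval₂RingHom, eval₂_C, eval₂_X]

lemma natDegree_spec {S : Type*} [CommRing S] (a : Fin (d + 1) → S) : (spec a).natDegree ≤ d := by
  unfold spec
  refine natDegree_sum_le_of_forall_le _ _ fun i _ => ?_
  exact (natDegree_C_mul_X_pow_le _ _).trans (by omega)

lemma coeff_spec {S : Type*} [CommRing S] (a : Fin (d + 1) → S) (i : Fin (d + 1)) :
    (spec a).coeff i = a i := by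
  unfold spec
  rw [finsetSum_coeff, Finset.sum_eq_single i]
  · rw [coeff_C_mul_X_pow, if_pos rfl]
  · intro b _ hb
    rw [coeff_C_mul_X_pow, if_neg]
    intro h
    exact hb (Fin.ext h.symm)
  · intro h; exact absurd (Finset.mem_univ _) h

lemma eval_spec {S : Type*} [CommRing S] (a : Fin (d + 1) → S) (x : S) :
    (spec a).eval x = ∑ i, a i * x ^ (i : ℕ) := by
  unfold spec
  rw [eval_finsetSum]
  simp

/-- degree `d` and `d` different roots -/
lemma RR_spec_ne_zero {K : Type*} [Field K] [CharZero K] (hd : 2 ≤ d) {a : Fin (d + 1) → K}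
    (h1 : a (Fin.last d) ≠ 0) {r : Fin d → K} (hr : Function.Injective r)
    (hroot : ∀ j, ∑ i, a i * r j ^ (i : ℕ) = 0) : RR d (spec a) ≠ 0 := by
  classical
  have hlast : (spec a).coeff d ≠ 0 := by
    have := coeff_spec a (Fin.last d)
    rw [Fin.val_last] at this
    rw [this]; exact h1
  have hdeg : (spec a).natDegree = d := natDegree_eq_of_le_of_coeff_ne_zero (natDegree_spec a) hlast
  have h0 : spec a ≠ 0 := by
    intro h
    rw [h, coeff_zero] at hlast
    exact hlast rfl
  rw [RR_ne_zero_iff hd (natDegree_spec a)]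
  refine ⟨hdeg, ?_⟩
  -- the roots
  have h2 : (Finset.univ.image r).val ≤ (spec a).roots := by
    rw [Multiset.le_iff_subset (Finset.univ.image r).nodup]
    intro x hx
    rw [Finset.mem_val, Finset.mem_image] at hx
    obtain ⟨j, -, rfl⟩ := hx
    rw [mem_roots h0, IsRoot.def, eval_spec]
    exact hroot j
  have h3 : Multiset.card (Finset.univ.image r).val = d := by
    rw [Finset.card_val, Finset.card_image_of_injective _ hr, Finset.card_univ, Fintype.card_fin]
  have h4 := card_roots' (spec a)
  have h5 : (Finset.univ.image r).val = (spec a).roots :=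
    Multiset.eq_of_le_of_card_le h2 (by rw [h3]; omega)
  have h6 : (spec a).Splits := by
    rw [splits_iff_card_roots, ← h5, h3, hdeg]
  rw [← nodup_roots_iff_of_splits h0 h6, ← h5]
  exact (Finset.univ.image r).nodup

/-- conversely, over an algebraically closed field -/
lemma exists_roots_of_RR {K : Type*} [Field K] [CharZero K] [IsAlgClosed K] (hd : 2 ≤ d)
    {a : Fin (d + 1) → K} (h : RR d (spec a) ≠ 0) :
    a (Fin.last d) ≠ 0 ∧ ∃ r : Fin d → K, Function.Injective r ∧
      ∀ j, ∑ i, a i * r j ^ (i : ℕ) = 0 := by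
  classical
  rw [RR_ne_zero_iff hd (natDegree_spec a)] at h
  obtain ⟨h1, h2⟩ := h
  have h0 : spec a ≠ 0 := by
    intro h
    rw [h, natDegree_zero] at h1
    omega
  have hlast : a (Fin.last d) ≠ 0 := by
    have := coeff_spec a (Fin.last d)
    rw [Fin.val_last] at this
    have h7 := leadingCoeff_ne_zero.mpr h0
    rw [leadingCoeff, h1, this] at h7
    exact h7
  refine ⟨hlast, ?_⟩
  have h3 := (nodup_roots h2)
  have h4 : Multiset.card (spec a).roots = d := by
    rw [splits_iff_card_roots.mp (IsAlgClosed.splits _), h1]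
  have h5 : (spec a).roots.toFinset.card = d := by
    rw [Multiset.toFinset_card_of_nodup h3, h4]
  let e := ((spec a).roots.toFinset.equivFinOfCardEq h5).symm
  refine ⟨fun j => (e j : K), fun i j hij => e.injective (Subtype.ext hij), fun j => ?_⟩
  have h6 := (e j).2
  rw [Multiset.mem_toFinset, mem_roots h0, IsRoot.def, eval_spec] at h6
  exact h6

end fam

end UL
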