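import Mathlib
import Pool.Agent.Helper10.UL.BadPoly
import Pool.Agent.Helper37.UL.Data

/-!
# Good values exist
-/

universe u

namespace UL

open Polynomial Pool.Agent.Helper37.UL

/-- Good values exist. -/
theorem exists_good {C : Type u} [Field C] [CharZero C] {κ : Subfield C} (hcl : IsAlgClosed κ)
    {T : C} {d m : ℕ} (hd : 2 ≤ d)
    {a : Fin (d + 1) → Fin (m + 1) → C} (ha : ∀ i l, a i l ∈ κ)
    (hlead : ∑ l, a (Fin.last d) l * T ^ (l : ℕ) ≠ 0) {θ : Fin d → C}
    (hθ : Function.Injective θ)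
    (hroot : ∀ j, ∑ i, (∑ l, a i l * T ^ (l : ℕ)) * θ j ^ (i : ℕ) = 0) :
    ∃ t₀ ∈ κ, Good κ a t₀ := by
  classical
  let b : Fin (d + 1) → Fin (m + 1) → κ := fun i l => ⟨a i l, ha i l⟩
  have h1 : RR d (fam b) ≠ 0 := by
    intro h0
    have h2 : RR d ((fam b).map (eval₂RingHom κ.subtype T)) = 0 := by
      rw [UL.RR_map, h0, map_zero]
    rw [fam_map] at h2
    exact RR_spec_ne_zero hd (a := fun i => ∑ l, κ.subtype (b i l) * T ^ (l : ℕ)) hlead hθ hroot h2
  obtain ⟨t₀, ht₀⟩ : ∃ t₀ : κ, eval t₀ (RR d (fam b)) ≠ 0 := by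
    by_contra hcon
    push Not at hcon
    exact h1 (Polynomial.funext fun r => by rw [hcon, eval_zero])
  have h3 : RR d (spec fun i => ∑ l, (RingHom.id κ) (b i l) * t₀ ^ (l : ℕ)) ≠ 0 := by
    rw [← fam_map, UL.RR_map]
    exact ht₀
  obtain ⟨h4, r, hr, hr0⟩ := exists_roots_of_RR hd h3
  refine ⟨t₀, t₀.2, ?_, fun j => (r j : C), fun i j hij => hr (Subtype.ext hij), fun j => (r j).2,
    fun j => ?_⟩
  · intro h0
    apply h4
    apply Subtype.ext
    have h5 : κ.subtype (∑ l, (RingHom.id κ) (b (Fin.last d) l) * t₀ ^ (l : ℕ)) =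
        ∑ l, a (Fin.last d) l * (t₀ : C) ^ (l : ℕ) := by
      rw [map_sum]
      refine Finset.sum_congr rfl fun l _ => ?_
      rw [map_mul, map_pow]
      rfl
    exact h5.trans h0
  · have h5 := congrArg κ.subtype (hr0 j)
    rw [map_sum, map_zero] at h5
    rw [← h5]
    refine Finset.sum_congr rfl fun i _ => ?_
    rw [map_mul, map_pow, map_sum]
    congr 1

end UL
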