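import Mathlib

/-!
# Coordinates: `F₀(t₀, …, t_{r+1}) = F(t₀, t₁)`, `F = F₀(t₂, …, t_{r+1})`
-/

universe u

namespace UL

open Polynomial

theorem fin_coord {F₀ k : Type u} [Field F₀] [CharZero F₀] [Field k] [Algebra F₀ k] {r : ℕ}
    (hF : ∃ S : Finset F₀, Subfield.closure (S : Set F₀) = ⊤)
    {t : Fin (r + 2) → k} (ht : AlgebraicIndependent F₀ t)
    (htop : IntermediateField.adjoin F₀ (Set.range t) = ⊤) :
    ∃ F : IntermediateField F₀ k, (∃ S : Finset F, Subfield.closure (S : Set F) = ⊤) ∧
      (∀ i : Fin r, t i.succ.succ ∈ F) ∧ AlgebraicIndependent F ![t 0, t 1] ∧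
      IntermediateField.adjoin F {t 0, t 1} = ⊤ := by
  classical
  set F := IntermediateField.adjoin F₀ (Set.range fun i : Fin r => t i.succ.succ) with hFdef
  have hmem : ∀ i : Fin r, t i.succ.succ ∈ F := fun i =>
    IntermediateField.subset_adjoin _ _ ⟨i, rfl⟩
  have hind : AlgebraicIndependent F ![t 0, t 1] := by
    let φ : Fin 2 ⊕ Fin r → Fin (r + 2) :=
      Sum.elim (fun i => Fin.castLE (by omega) i) (fun i => i.succ.succ)
    have hφ : Function.Injective φ := by
      rintro (i | i) (j | j) hij
      · simp only [φ, Sum.elim_inl] at hij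
        rw [Fin.castLE_injective _ hij]
      · simp only [φ, Sum.elim_inl, Sum.elim_inr] at hij
        have := congrArg Fin.val hij
        simp only [Fin.val_castLE, Fin.val_succ] at this
        have := i.2
        omega
      · simp only [φ, Sum.elim_inl, Sum.elim_inr] at hij
        have := congrArg Fin.val hij
        simp only [Fin.val_castLE, Fin.val_succ] at this
        have := j.2
        omega
      · simp only [φ, Sum.elim_inr, Fin.succ_inj] at hij
        rw [hij]
    have h3 : AlgebraicIndependent F₀ (Sum.elim ![t 0, t 1] (fun i : Fin r => t i.succ.succ)) := by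
      have h4 := ht.comp φ hφ
      have e : t ∘ φ = Sum.elim ![t 0, t 1] (fun i : Fin r => t i.succ.succ) := by
        funext i
        rcases i with i | i
        · fin_cases i
          · rfl
          · rfl
        · rfl
      rw [← e]
      exact h4
    have h4 := (AlgebraicIndependent.sumElim_iff.1 h3).2
    exact IntermediateField.algebraicIndependent_adjoin_iff.2 h4
  refine ⟨F, ?_, hmem, hind, ?_⟩
  · obtain ⟨S, hS⟩ := hF
    set S' : Finset F := S.image (algebraMap F₀ F) ∪
      Finset.univ.image (fun i : Fin r => (⟨t i.succ.succ, hmem i⟩ : F)) with hS'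
    refine ⟨S', ?_⟩
    rw [eq_top_iff]
    intro z _
    set C := Subfield.closure (S' : Set F) with hC
    have h0 : ∀ a : F₀, algebraMap F₀ F a ∈ C := by
      intro a
      have h1 : a ∈ Subfield.closure (S : Set F₀) := by rw [hS]; trivial
      have h2 : Subfield.closure (S : Set F₀) ≤ C.comap (algebraMap F₀ F) := by
        rw [Subfield.closure_le]
        intro b hb
        refine Subfield.subset_closure ?_
        rw [hS', Finset.coe_union]
        left
        rw [Finset.mem_coe, Finset.mem_image]
        exact ⟨b, hb, rfl⟩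
      exact h2 h1
    have h1 : F ≤ Subfield.toIntermediateField (C.map F.val.toRingHom)
        (fun x => ⟨algebraMap F₀ F x, h0 x, F.val.commutes x⟩) := by
      refine hFdef.le.trans ?_
      rw [IntermediateField.adjoin_le_iff]
      rintro _ ⟨i, rfl⟩
      refine ⟨⟨t i.succ.succ, hmem i⟩, Subfield.subset_closure ?_, rfl⟩
      rw [hS', Finset.coe_union]
      right
      rw [Finset.mem_coe, Finset.mem_image]
      exact ⟨i, Finset.mem_univ _, rfl⟩
    obtain ⟨w, hw, hw'⟩ := h1 z.2
    have h2 : w = z := Subtype.ext hw'
    rw [← h2]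
    exact hw
  · rw [eq_top_iff]
    intro z _
    set M := IntermediateField.adjoin F {t 0, t 1} with hM
    have n0 : t 0 ∈ M := IntermediateField.subset_adjoin _ _ (by simp)
    have n1 : t 1 ∈ M := IntermediateField.subset_adjoin _ _ (by simp)
    have h1 : IntermediateField.adjoin F₀ (Set.range t) ≤ M.restrictScalars F₀ := by
      rw [IntermediateField.adjoin_le_iff]
      rintro _ ⟨i, rfl⟩
      refine Fin.cases n0 (fun j => ?_) i
      refine Fin.cases (motive := fun j : Fin (r + 1) => t j.succ ∈ (M.restrictScalars F₀ : Set k))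
        ?_ (fun j => ?_) j
      · rw [Fin.succ_zero_eq_one]
        exact n1
      · exact M.algebraMap_mem ⟨t j.succ.succ, hmem j⟩
    have h2 : z ∈ IntermediateField.adjoin F₀ (Set.range t) := by rw [htop]; trivial
    exact h1 h2


end UL
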