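import Mathlib

/-!
# Zariski dense sets of integral vectors and ultrafilters
-/

universe u

namespace UL

open MvPolynomial

/-- `S` is Zariski dense. -/
def ZDense {ι : Type} (S : Set (ι → ℤ)) : Prop :=
  ∀ Ψ : MvPolynomial ι ℤ, Ψ ≠ 0 → ∃ a ∈ S, eval a Ψ ≠ 0

/-- clearing denominators -/
lemma exists_int_multiple {ι : Type} (Ψ : MvPolynomial ι ℚ) :
    ∃ (N : ℤ) (Φ : MvPolynomial ι ℤ), N ≠ 0 ∧ map (Int.castRingHom ℚ) Φ = C (N : ℚ) * Ψ := by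
  classical
  induction Ψ using MvPolynomial.induction_on' with
  | monomial u a =>
    refine ⟨a.den, monomial u a.num, by exact_mod_cast a.den_nz, ?_⟩
    rw [map_monomial, C_mul_monomial]
    congr 1
    change ((a.num : ℤ) : ℚ) = _
    rw [Int.cast_natCast, mul_comm, Rat.mul_den_eq_num]
  | add p q hp hq =>
    obtain ⟨N₁, Φ₁, hN₁, hΦ₁⟩ := hp
    obtain ⟨N₂, Φ₂, hN₂, hΦ₂⟩ := hq
    refine ⟨N₁ * N₂, C N₂ * Φ₁ + C N₁ * Φ₂, mul_ne_zero hN₁ hN₂, ?_⟩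
    rw [map_add, map_mul, map_mul, map_C, map_C, hΦ₁, hΦ₂, Int.cast_mul, C_mul]
    change C ((N₂ : ℤ) : ℚ) * (C (N₁ : ℚ) * p) + C ((N₁ : ℤ) : ℚ) * (C (N₂ : ℚ) * q) = _
    ring

lemma dense_rat {ι : Type} {S : Set (ι → ℤ)} (hS : ZDense S) {Ψ : MvPolynomial ι ℚ} (hΨ : Ψ ≠ 0) :
    ∃ a ∈ S, eval (fun i => (a i : ℚ)) Ψ ≠ 0 := by
  obtain ⟨N, Φ, hN, hΦ⟩ := exists_int_multiple Ψ
  have hN' : (N : ℚ) ≠ 0 := by exact_mod_cast hN
  have hΦ0 : Φ ≠ 0 := by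
    rintro rfl
    rw [map_zero] at hΦ
    exact mul_ne_zero (C_ne_zero.mpr hN') hΨ hΦ.symm
  obtain ⟨a, ha, ha0⟩ := hS Φ hΦ0
  refine ⟨a, ha, fun h => ha0 ?_⟩
  have h1 : eval (fun i => (a i : ℚ)) (map (Int.castRingHom ℚ) Φ) = ((eval a Φ : ℤ) : ℚ) := by
    rw [eval_map]
    exact (eval₂_comp_left (Int.castRingHom ℚ) (RingHom.id ℤ) a Φ).symm
  rw [hΦ, map_mul, h, mul_zero] at h1
  exact_mod_cast h1.symm

/-- Density over the integers implies density over every field of characteristic zero. -/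
theorem dense_field {ι : Type} {S : Set (ι → ℤ)} (hS : ZDense S) {K : Type*} [Field K]
    [CharZero K] {Ψ : MvPolynomial ι K} (hΨ : Ψ ≠ 0) :
    ∃ a ∈ S, eval (fun i => (a i : K)) Ψ ≠ 0 := by
  classical
  obtain ⟨n, hn⟩ := ne_zero_iff.mp hΨ
  obtain ⟨φ, hφ⟩ : ∃ φ : K →ₗ[ℚ] ℚ, φ (coeff n Ψ) ≠ 0 := by
    by_contra hcon
    push Not at hcon
    exact hn ((Module.forall_dual_apply_eq_zero_iff ℚ (coeff n Ψ)).mp hcon)
  let Φ : MvPolynomial ι ℚ := ∑ m ∈ Ψ.support, monomial m (φ (coeff m Ψ))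
  have hΦ : Φ ≠ 0 := by
    intro h
    apply hφ
    have h1 : coeff n Φ = φ (coeff n Ψ) := by
      simp only [Φ, coeff_sum, coeff_monomial]
      rw [Finset.sum_eq_single n]
      · rw [if_pos rfl]
      · intro b _ hb
        rw [if_neg hb]
      · intro h
        exact absurd (mem_support_iff.mpr hn) h
    rw [← h1, h, coeff_zero]
  obtain ⟨a, ha, ha0⟩ := dense_rat hS hΦ
  refine ⟨a, ha, fun h => ha0 ?_⟩
  have h1 : φ (eval (fun i => (a i : K)) Ψ) = eval (fun i => (a i : ℚ)) Φ := by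
    simp only [Φ]
    rw [eval_eq, map_sum, map_sum]
    refine Finset.sum_congr rfl fun m _ => ?_
    rw [eval_monomial, Finsupp.prod]
    have h2 : (coeff m Ψ * ∏ i ∈ m.support, (a i : K) ^ m i) =
        (∏ i ∈ m.support, (a i : ℚ) ^ m i) • coeff m Ψ := by
      rw [Algebra.smul_def, map_prod, mul_comm]
      congr 1
      refine Finset.prod_congr rfl fun i _ => ?_
      rw [map_pow]
      congr 1
      simp
    rw [h2, map_smul, smul_eq_mul, mul_comm]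
  rw [← h1, h, map_zero]

/-- An ultrafilter whose generic point is algebraically independent. -/
theorem exists_ultra {ι : Type} {S : Set (ι → ℤ)} (hS : ZDense S) (K : Type*) [Field K]
    [CharZero K] : ∃ 𝒰 : Ultrafilter (ι → ℤ), S ∈ 𝒰 ∧
      ∀ Ψ : MvPolynomial ι K, Ψ ≠ 0 → {a : ι → ℤ | eval (fun i => (a i : K)) Ψ ≠ 0} ∈ 𝒰 := by
  classical
  let 𝒮 : Set (Set (ι → ℤ)) := {A | ∃ Ψ : MvPolynomial ι K, Ψ ≠ 0 ∧
    A = S ∩ {a : ι → ℤ | eval (fun i => (a i : K)) Ψ ≠ 0}}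
  obtain ⟨𝒰, h𝒰⟩ := Ultrafilter.exists_ultrafilter_of_finite_inter_nonempty 𝒮 (by
    intro T hT
    have hT' : ∀ A ∈ T, ∃ Ψ : MvPolynomial ι K, Ψ ≠ 0 ∧
      A = S ∩ {a : ι → ℤ | eval (fun i => (a i : K)) Ψ ≠ 0} := fun A hA => hT hA
    choose! Ψ hΨ0 hΨ using hT'
    obtain ⟨a, ha, ha0⟩ := dense_field hS (Ψ := ∏ A ∈ T, Ψ A)
      (Finset.prod_ne_zero_iff.mpr hΨ0)
    rw [map_prod, Finset.prod_ne_zero_iff] at ha0
    refine ⟨a, ?_⟩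
    rw [Set.mem_sInter]
    intro A hA
    rw [hΨ A hA]
    exact ⟨ha, ha0 A hA⟩)
  have h1 : ∀ Ψ : MvPolynomial ι K, Ψ ≠ 0 →
      S ∩ {a : ι → ℤ | eval (fun i => (a i : K)) Ψ ≠ 0} ∈ 𝒰 := fun Ψ hΨ => h𝒰 ⟨Ψ, hΨ, rfl⟩
  refine ⟨𝒰, Filter.mem_of_superset (h1 1 one_ne_zero) Set.inter_subset_left, fun Ψ hΨ =>
    Filter.mem_of_superset (h1 Ψ hΨ) Set.inter_subset_right⟩

end UL
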