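import Mathlib
import Pool.Agent.Helper13.GC.E2

/-!
# The coefficients of the curve as polynomials in `T`, `U`; specialising valuations
-/

universe u

namespace UL

open Polynomial Pool.Agent.GC

section valuation

/-- A valuation ring specialising algebraically independent elements. -/
theorem exists_W {L C : Type*} [Field L] [Field C] [Algebra L C] {ι : Type*} {x : ι → C}
    (hx : AlgebraicIndependent L x) (n : ι → L) :
    ∃ W : ValuationSubring C, (∀ c : L, algebraMap L C c ∈ W) ∧
      ∀ i, W.valuation (x i - algebraMap L C (n i)) < 1 := by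
  let A : Subring C := (MvPolynomial.aeval x : MvPolynomial ι L →ₐ[L] C).toRingHom.range
  have hmem : ∀ q : MvPolynomial ι L, MvPolynomial.aeval x q ∈ A := fun q => ⟨q, rfl⟩
  let I : Ideal A := Ideal.span
    {b : A | ∃ q : MvPolynomial ι L, MvPolynomial.eval n q = 0 ∧ (b : C) = MvPolynomial.aeval x q}
  have hI : I ≠ ⊤ := by
    -- the evaluation at `n`
    let e := hx.aevalEquiv
    have hinj : Function.Injective (MvPolynomial.aeval x : MvPolynomial ι L →ₐ[L] C) := hx
    let f : MvPolynomial ι L ≃+* A :=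
      RingEquiv.ofBijective ((MvPolynomial.aeval x : MvPolynomial ι L →ₐ[L] C).toRingHom.rangeRestrict)
        ⟨fun a b h => hinj (congrArg Subtype.val h), RingHom.rangeRestrict_surjective _⟩
    let g : A →+* L := (MvPolynomial.eval n).comp f.symm.toRingHom
    have hle : I ≤ RingHom.ker g := by
      rw [Ideal.span_le]
      rintro b ⟨q, hq, hb⟩
      have h1 : b = f q := Subtype.ext hb
      change MvPolynomial.eval n (f.symm b) = 0
      rw [h1, RingEquiv.symm_apply_apply]
      exact hq
    intro htop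
    rw [htop, top_le_iff] at hle
    have h1 : (1 : A) ∈ RingHom.ker g := by rw [hle]; trivial
    rw [RingHom.mem_ker, map_one] at h1
    exact one_ne_zero h1
  obtain ⟨W, hW1, hW2⟩ := Ideal.image_subset_nonunits_valuationSubring I hI
  refine ⟨W, fun c => ?_, fun i => ?_⟩
  · have := hmem (MvPolynomial.C c)
    rw [MvPolynomial.aeval_C] at this
    exact hW1 this
  · rw [← ValuationSubring.mem_nonunits_iff]
    have h1 : x i - algebraMap L C (n i) =
        MvPolynomial.aeval x (MvPolynomial.X i - MvPolynomial.C (n i) : MvPolynomial ι L) := by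
      rw [map_sub, MvPolynomial.aeval_X, MvPolynomial.aeval_C]
    refine hW2 ⟨⟨_, hmem (MvPolynomial.X i - MvPolynomial.C (n i))⟩, Ideal.subset_span ⟨_, ?_, rfl⟩,
      h1.symm⟩
    rw [map_sub, MvPolynomial.eval_X, MvPolynomial.eval_C, sub_self]

end valuation

section model

variable {R : Type*} [CommRing R] {r m d : ℕ}

/-- the monomial of `p` in the last variables -/
def wmon (w : Fin r → R) (p : IdxR (r + 2) m) : R := ∏ j : Fin r, w j ^ (p.1 j.succ.succ : ℕ)

/-- the coefficient polynomials in two variables -/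
noncomputable def cMv (w : Fin r → R) (b : Fin (d + 1) × IdxR (r + 2) m → R) (i : Fin (d + 1)) :
    MvPolynomial (Fin 2) R :=
  ∑ p : IdxR (r + 2) m, MvPolynomial.monomial
    (Finsupp.single 0 (p.1 0 : ℕ) + Finsupp.single 1 (p.1 1 : ℕ)) (b (i, p) * wmon w p)

/-- the coefficients of the powers of `T` -/
noncomputable def cT {k : Type*} [CommRing k] (U : k) (w : Fin r → k)
    (b : Fin (d + 1) × IdxR (r + 2) m → k) (i : Fin (d + 1)) (l : Fin (m + 1)) : k :=
  ∑ p : IdxR (r + 2) m, if p.1 0 = l then b (i, p) * wmon w p * U ^ (p.1 1 : ℕ) else 0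

theorem aeval_cMv {S : Type*} [CommRing S] [Algebra R S] (T U : S) (w : Fin r → R)
    (b : Fin (d + 1) × IdxR (r + 2) m → R) (i : Fin (d + 1)) :
    MvPolynomial.aeval ![T, U] (cMv w b i) = ∑ p : IdxR (r + 2) m,
      algebraMap R S (b (i, p) * wmon w p) * (T ^ (p.1 0 : ℕ) * U ^ (p.1 1 : ℕ)) := by
  unfold cMv
  rw [map_sum]
  refine Finset.sum_congr rfl fun p _ => ?_
  rw [MvPolynomial.aeval_monomial, Finsupp.prod_add_index']
  · rw [Finsupp.prod_single_index, Finsupp.prod_single_index]
    · simp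
    · simp
    · simp
  · intro a; simp
  · intro a b₁ b₂; rw [pow_add]

theorem sum_cT {k : Type*} [CommRing k] (T U : k) (w : Fin r → k)
    (b : Fin (d + 1) × IdxR (r + 2) m → k) (i : Fin (d + 1)) :
    ∑ l, cT U w b i l * T ^ (l : ℕ) = ∑ p : IdxR (r + 2) m,
      b (i, p) * wmon w p * (T ^ (p.1 0 : ℕ) * U ^ (p.1 1 : ℕ)) := by
  classical
  unfold cT
  simp only [Finset.sum_mul]
  rw [Finset.sum_comm]
  refine Finset.sum_congr rfl fun p _ => ?_
  rw [Finset.sum_eq_single (p.1 0)]
  · rw [if_pos rfl]; ring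
  · intro l _ hl
    rw [if_neg (Ne.symm hl), zero_mul]
  · intro h; exact absurd (Finset.mem_univ _) h

/-- the monomial in all the variables -/
theorem prod_eq {k : Type*} [CommRing k] (t : Fin (r + 2) → k) (p : IdxR (r + 2) m) :
    ∏ i, t i ^ (p.1 i : ℕ) =
      wmon (fun j => t j.succ.succ) p * (t 0 ^ (p.1 0 : ℕ) * t 1 ^ (p.1 1 : ℕ)) := by
  unfold wmon
  rw [Fin.prod_univ_succ, Fin.prod_univ_succ]
  rw [Fin.succ_zero_eq_one]
  ring

theorem valR_eq {k : Type u} [Field k] (t : Fin (r + 2) → k)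
    (a : Fin (d + 1) × IdxR (r + 2) m → ℤ) (i : Fin (d + 1)) :
    valR t (fun p => a (i, p)) =
      ∑ l, cT (t 1) (fun j => t j.succ.succ) (fun q => (a q : k)) i l * t 0 ^ (l : ℕ) := by
  rw [sum_cT]
  unfold valR
  refine Finset.sum_congr rfl fun p _ => ?_
  rw [prod_eq]
  ring

theorem cT_mem {F k : Type*} [Field F] [Field k] [Algebra F k] {U : k} {w : Fin r → k}
    (hw : ∀ j, ∃ c : F, algebraMap F k c = w j) (a : Fin (d + 1) × IdxR (r + 2) m → ℤ)
    (i : Fin (d + 1)) (l : Fin (m + 1)) :
    cT U w (fun q => (a q : k)) i l ∈ IntermediateField.adjoin F {U} := by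
  classical
  unfold cT wmon
  refine sum_mem fun p _ => ?_
  split_ifs
  · refine mul_mem (mul_mem (intCast_mem _ _) (prod_mem fun j _ => ?_))
      (pow_mem (IntermediateField.mem_adjoin_simple_self F U) _)
    obtain ⟨c, hc⟩ := hw j
    rw [← hc]
    exact pow_mem (IntermediateField.algebraMap_mem _ c) _
  · exact zero_mem _

theorem coeff_cMv (w : Fin r → R) (b : Fin (d + 1) × IdxR (r + 2) m → R) (i : Fin (d + 1))
    (q : Fin 2 →₀ ℕ) : MvPolynomial.coeff q (cMv w b i) = ∑ p : IdxR (r + 2) m,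
      if (p.1 0 : ℕ) = q 0 ∧ (p.1 1 : ℕ) = q 1 then b (i, p) * wmon w p else 0 := by
  classical
  unfold cMv
  rw [MvPolynomial.coeff_sum]
  refine Finset.sum_congr rfl fun p _ => ?_
  rw [MvPolynomial.coeff_monomial]
  congr 1
  rw [eq_iff_iff]
  constructor
  · rintro rfl
    simp
  · rintro ⟨h0, h1⟩
    ext j
    fin_cases j
    · simp [h0]
    · simp [h1]

end model

end UL
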