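import Mathlib
import Pool.Agent.Helper10.UL.Dense
import Pool.Agent.Helper10.UL.Model
import Pool.Agent.Helper37.UL.Germ1
import Pool.Agent.Helper37.UL.StubE

/-!
# The generic curve over the ultrapower, and its specialisations
-/

universe u v w

namespace UL

open Polynomial Pool.Agent.GC Pool.Agent.Helper37.UL

/-- An ultrafilter on the index set whose generic point is algebraically independent. -/
theorem exists_ultraJ {I : Type} {J : Type v} (vv : J → I → ℤ)
    (hS : ∀ Ψ : MvPolynomial I ℤ, Ψ ≠ 0 → ∃ j, MvPolynomial.eval (vv j) Ψ ≠ 0)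
    (K : Type u) [Field K] [CharZero K] : ∃ U : Ultrafilter J,
      ∀ Ψ : MvPolynomial I K, Ψ ≠ 0 →
        ∀ᶠ j in (U : Filter J), MvPolynomial.eval (fun i => (vv j i : K)) Ψ ≠ 0 := by
  classical
  have hS' : ZDense (Set.range vv) := by
    intro Ψ hΨ
    obtain ⟨j, hj⟩ := hS Ψ hΨ
    exact ⟨vv j, ⟨j, rfl⟩, hj⟩
  let 𝒮 : Set (Set J) := {A | ∃ Ψ : MvPolynomial I K, Ψ ≠ 0 ∧
    A = {j | MvPolynomial.eval (fun i => (vv j i : K)) Ψ ≠ 0}}
  obtain ⟨U, hU⟩ := Ultrafilter.exists_ultrafilter_of_finite_inter_nonempty 𝒮 (by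
    intro T hT
    have hT' : ∀ A ∈ T, ∃ Ψ : MvPolynomial I K, Ψ ≠ 0 ∧
      A = {j | MvPolynomial.eval (fun i => (vv j i : K)) Ψ ≠ 0} := fun A hA => hT hA
    choose! Ψ hΨ0 hΨ using hT'
    obtain ⟨_, ⟨j, rfl⟩, ha0⟩ := dense_field hS' (Ψ := ∏ A ∈ T, Ψ A)
      (Finset.prod_ne_zero_iff.mpr hΨ0)
    rw [map_prod, Finset.prod_ne_zero_iff] at ha0
    refine ⟨j, ?_⟩
    rw [Set.mem_sInter]
    intro A hA
    rw [hΨ A hA]
    exact ha0 A hA)
  exact ⟨U, fun Ψ hΨ => hU ⟨Ψ, hΨ, rfl⟩⟩

section generic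

variable {J : Type v} {U : Ultrafilter J} {C : Type u} [Field C] {S : Type w} [Field S]
  {I : Type}

/-- the generic vector -/
def xgen (π : (J → C) →+* S) (vv : J → I → ℤ) (i : I) : S := π fun j => (vv j i : C)

variable {π : (J → C) →+* S} (h : UP U π) {vv : J → I → ℤ}

lemma eval_xgen (Ψ : MvPolynomial I C) :
    MvPolynomial.eval₂ (UP.cst π) (xgen π vv) Ψ =
      π fun j => MvPolynomial.eval (fun i => (vv j i : C)) Ψ := by
  induction Ψ using MvPolynomial.induction_on with
  | C a => rw [MvPolynomial.eval₂_C]; simp only [MvPolynomial.eval_C]; rfl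
  | add p q hp hq =>
    rw [MvPolynomial.eval₂_add, hp, hq, ← map_add]
    congr 1
    funext j
    rw [Pi.add_apply, map_add]
  | mul_X p i hp =>
    rw [MvPolynomial.eval₂_mul, MvPolynomial.eval₂_X, hp]
    unfold xgen
    rw [← map_mul]
    congr 1
    funext j
    rw [Pi.mul_apply, map_mul, MvPolynomial.eval_X]

include h

/-- The generic vector is algebraically independent over the constants. -/
theorem algInd_xgen (hU : ∀ Ψ : MvPolynomial I C, Ψ ≠ 0 →
    ∀ᶠ j in (U : Filter J), MvPolynomial.eval (fun i => (vv j i : C)) Ψ ≠ 0) :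
    AlgebraicIndependent (UP.cst π).fieldRange (xgen π vv) := by
  rw [algebraicIndependent_iff]
  intro P hP
  by_contra hP0
  let e : C ≃+* (UP.cst π).fieldRange :=
    RingEquiv.ofBijective (UP.cst π).rangeRestrictField
      ⟨(UP.cst π).rangeRestrictField.injective, fun ⟨_, c, hc⟩ => ⟨c, Subtype.ext hc⟩⟩
  let Ψ : MvPolynomial I C := MvPolynomial.map e.symm.toRingHom P
  have hΨ0 : Ψ ≠ 0 := by
    intro h0
    apply hP0
    have h1 := (MvPolynomial.map_injective (σ := I) e.symm.toRingHom e.symm.injective)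
    apply h1
    rw [map_zero]
    exact h0
  have h1 := hU Ψ hΨ0
  rw [← h.ne0, ← eval_xgen] at h1
  apply h1
  rw [← hP]
  simp only [Ψ]
  rw [MvPolynomial.eval₂_map]
  change _ = MvPolynomial.eval₂ (algebraMap (UP.cst π).fieldRange S) (xgen π vv) P
  congr 1
  ext c
  change UP.cst π (e.symm c) = (c : S)
  exact congrArg Subtype.val (e.apply_symm_apply c)

/-- specialising valuation rings -/
theorem exists_W_gen [CharZero C] (hU : ∀ Ψ : MvPolynomial I C, Ψ ≠ 0 →
    ∀ᶠ j in (U : Filter J), MvPolynomial.eval (fun i => (vv j i : C)) Ψ ≠ 0) (n : I → ℤ) :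
    ∃ W : ValuationSubring S, ResZero W ∧ (∀ c : C, UP.cst π c ∈ W) ∧
      (∀ i, xgen π vv i ∈ W) ∧ ∀ i, W.valuation (xgen π vv i - n i) < 1 := by
  obtain ⟨W, hW1, hW2⟩ := exists_W (algInd_xgen h hU) (fun i => (n i : (UP.cst π).fieldRange))
  have hc : ∀ c : C, UP.cst π c ∈ W := fun c => hW1 ⟨UP.cst π c, ⟨c, rfl⟩⟩
  have hval : ∀ i, W.valuation (xgen π vv i - n i) < 1 := by
    intro i
    have := hW2 i
    rw [map_intCast] at this
    exact this
  refine ⟨W, ?_, hc, fun i => ?_, hval⟩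
  · intro m hm
    have hm' : (m : C) ≠ 0 := Nat.cast_ne_zero.mpr hm
    have h1 : UP.cst π (m : C) = (m : S) := map_natCast _ _
    have h2 : (m : S) ≠ 0 := by
      rw [← h1]
      exact (_root_.map_ne_zero _).mpr hm'
    have h3 := hc (m : C)
    have h4 := hc (m : C)⁻¹
    rw [map_inv₀, h1] at h4
    rw [h1] at h3
    have h5 := (W.valuation_le_one_iff _).2 h3
    have h6 := (W.valuation_le_one_iff _).2 h4
    rw [map_inv₀] at h6
    have h7 : W.valuation (m : S) ≠ 0 := (Valuation.ne_zero_iff _).mpr h2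
    exact le_antisymm h5 ((inv_le_one₀ (zero_lt_iff.2 h7)).1 h6)
  · have h1 : xgen π vv i - n i ∈ W := (W.valuation_le_one_iff _).1 (hval i).le
    have h2 : ((n i : ℤ) : S) ∈ W := intCast_mem W (n i)
    have h3 := W.add_mem _ _ h1 h2
    rwa [sub_add_cancel] at h3

end generic

/-- the exponent `(i, j, 0, …)` -/
def ex (r : ℕ) {m : ℕ} (i j : ℕ) (hij : i + j ≤ m) : IdxR (r + 2) m :=
  ⟨fun l => if l = 0 then ⟨i, by omega⟩ else if l = 1 then ⟨j, by omega⟩ else 0, by
    rw [Fin.sum_univ_succ, Fin.sum_univ_succ]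
    have h1 : ∀ l : Fin r, (l.succ.succ : Fin (r + 2)) ≠ 0 := fun l => Fin.succ_ne_zero _
    have h2 : ∀ l : Fin r, (l.succ.succ : Fin (r + 2)) ≠ 1 := by
      intro l h
      have := congrArg Fin.val h
      simp at this
    simp only [if_true, Fin.succ_zero_eq_one, h1, h2, if_false]
    simp
    exact hij⟩

lemma ex_zero (r : ℕ) {m : ℕ} (i j : ℕ) (hij : i + j ≤ m) : ((ex r i j hij).1 0 : ℕ) = i := rfl

lemma ex_one (r : ℕ) {m : ℕ} (i j : ℕ) (hij : i + j ≤ m) : ((ex r i j hij).1 1 : ℕ) = j := rfl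

lemma ex_succ (r : ℕ) {m : ℕ} (i j : ℕ) (hij : i + j ≤ m) (l : Fin r) :
    ((ex r i j hij).1 l.succ.succ : ℕ) = 0 := by
  have h1 : (l.succ.succ : Fin (r + 2)) ≠ 0 := Fin.succ_ne_zero _
  have h2 : (l.succ.succ : Fin (r + 2)) ≠ 1 := by
    intro h
    have := congrArg Fin.val h
    simp at this
  simp only [ex, h1, h2, if_false]
  rfl

lemma wmon_ex {R : Type*} [CommRing R] {r m : ℕ} (w : Fin r → R) (i j : ℕ) (hij : i + j ≤ m) :
    wmon w (ex r i j hij) = 1 := by
  unfold wmon
  apply Finset.prod_eq_one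
  intro l _
  rw [ex_succ, pow_zero]

section coeffs

variable {S : Type w} [Field S] {W : ValuationSubring S}

lemma val_sum_sub {Q : Type*} [Fintype Q] {x y z : Q → S} (hz : ∀ q, z q ∈ W)
    (hxy : ∀ q, W.valuation (x q - y q) < 1) :
    W.valuation (∑ q, x q * z q - ∑ q, y q * z q) < 1 := by
  rw [← Finset.sum_sub_distrib]
  refine Valuation.map_sum_lt' _ zero_lt_one fun q _ => ?_
  rw [← sub_mul, map_mul]
  calc W.valuation (x q - y q) * W.valuation (z q) ≤ W.valuation (x q - y q) * 1 :=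
        mul_le_mul_right ((W.valuation_le_one_iff _).2 (hz q)) _
    _ < 1 := by rw [mul_one]; exact hxy q

variable {Λ : Subfield S} {r m d : ℕ}

lemma coe_wmon (w : Fin r → Λ) (p : IdxR (r + 2) m) :
    ((wmon w p : Λ) : S) = wmon (fun j => (w j : S)) p := by
  unfold wmon
  change Λ.subtype _ = _
  rw [map_prod]
  refine Finset.prod_congr rfl fun j _ => ?_
  rw [map_pow]
  rfl

lemma wmon_mem {w : Fin r → Λ} (hw : ∀ j, (w j : S) ∈ W) (p : IdxR (r + 2) m) :
    ((wmon w p : Λ) : S) ∈ W := by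
  rw [coe_wmon]
  unfold wmon
  exact prod_mem fun j _ => pow_mem (hw j) _

lemma coe_coeff_cMv (w : Fin r → Λ) (b : Fin (d + 1) × IdxR (r + 2) m → Λ) (i : Fin (d + 1))
    (q : Fin 2 →₀ ℕ) : ((MvPolynomial.coeff q (cMv w b i) : Λ) : S) =
      ∑ p : IdxR (r + 2) m, (b (i, p) : S) *
        (if (p.1 0 : ℕ) = q 0 ∧ (p.1 1 : ℕ) = q 1 then ((wmon w p : Λ) : S) else 0) := by
  rw [coeff_cMv]
  change Λ.subtype _ = _
  rw [map_sum]
  refine Finset.sum_congr rfl fun p _ => ?_
  split_ifs
  · rw [map_mul]; rfl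
  · rw [map_zero, mul_zero]

/-- the residues of the coefficients of `cMv` -/
lemma val_cMv {w : Fin r → Λ} (hw : ∀ j, (w j : S) ∈ W)
    {b : Fin (d + 1) × IdxR (r + 2) m → Λ} {n : Fin (d + 1) × IdxR (r + 2) m → ℤ}
    (hb : ∀ q, W.valuation ((b q : S) - n q) < 1) (i : Fin (d + 1)) (q : Fin 2 →₀ ℕ) :
    W.valuation (((MvPolynomial.coeff q (cMv w b i) : Λ) : S) -
      ∑ p : IdxR (r + 2) m, (n (i, p) : S) *
        (if (p.1 0 : ℕ) = q 0 ∧ (p.1 1 : ℕ) = q 1 then ((wmon w p : Λ) : S) else 0)) < 1 := by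
  rw [coe_coeff_cMv]
  refine val_sum_sub (fun p => ?_) (fun p => hb _)
  split_ifs
  · exact wmon_mem hw p
  · exact zero_mem _

/-- the assignment for `no_lev` -/
def nL (r : ℕ) {m d : ℕ} (hm : 1 ≤ m) (q : Fin (d + 1) × IdxR (r + 2) m) : ℤ :=
  if q.2 = ex r 1 0 (by omega) then (if q.1 = 0 then -1 else 0)
  else if q.2 = ex r 0 1 (by omega) then
    (if (q.1 : ℕ) = d then 1 else if (q.1 : ℕ) = d - 1 then -1 else 0)
  else 0

lemma ex_ne {r m : ℕ} {i j i' j' : ℕ} {hij : i + j ≤ m} {hij' : i' + j' ≤ m}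
    (h : i ≠ i' ∨ j ≠ j') : ex r i j hij ≠ ex r i' j' hij' := by
  intro he
  rcases h with h | h
  · apply h
    rw [← ex_zero r i j hij, ← ex_zero r i' j' hij', he]
  · apply h
    rw [← ex_one r i j hij, ← ex_one r i' j' hij', he]

/-- The hypotheses of `no_lev`. -/
theorem noLev_hyps (hm : 1 ≤ m) {w : Fin r → Λ} (hw : ∀ j, (w j : S) ∈ W)
    {b : Fin (d + 1) × IdxR (r + 2) m → Λ} (hbW : ∀ q, (b q : S) ∈ W)
    (hb : ∀ q, W.valuation ((b q : S) - nL r hm q) < 1) :
    (∀ i r', ((MvPolynomial.coeff r' (cMv w b i) : Λ) : S) ∈ W) ∧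
    (∀ i, W.valuation ((MvPolynomial.coeff 0 (cMv w b i) : Λ) : S) < 1) ∧
    (∀ i, W.valuation
      (((MvPolynomial.coeff (Finsupp.single (0 : Fin 2) 1) (cMv w b i) : Λ) : S) +
        if i = 0 then 1 else 0) < 1) ∧
    (∀ i, W.valuation
      (((MvPolynomial.coeff (Finsupp.single (1 : Fin 2) 1) (cMv w b i) : Λ) : S) -
      if (i : ℕ) = d then 1 else if (i : ℕ) = d - 1 then -1 else 0) < 1) := by
  refine ⟨fun i r' => ?_, fun i => ?_, fun i => ?_, fun i => ?_⟩
  · rw [coe_coeff_cMv]
    refine sum_mem fun p _ => mul_mem (hbW _) ?_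
    split_ifs
    · exact wmon_mem hw p
    · exact zero_mem _
  · have h1 := val_cMv hw hb i 0
    rw [Finset.sum_eq_zero, sub_zero] at h1
    · exact h1
    · intro p _
      split_ifs with hp
      · have h2 : p ≠ ex r 1 0 (by omega) := by
          rintro rfl
          exact absurd hp.1 (by rw [ex_zero]; simp)
        have h3 : p ≠ ex r 0 1 (by omega) := by
          rintro rfl
          exact absurd hp.2 (by rw [ex_one]; simp)
        unfold nL
        rw [if_neg h2, if_neg h3]
        simp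
      · rw [mul_zero]
  · have h1 := val_cMv hw hb i (Finsupp.single (0 : Fin 2) 1)
    rw [Finset.sum_eq_single (ex r 1 0 (by omega))] at h1
    · rw [if_pos (by rw [ex_zero, ex_one]; simp), wmon_ex] at h1
      have h2 : nL r hm (i, ex r 1 0 (by omega)) = if i = 0 then -1 else 0 := by
        unfold nL
        rw [if_pos rfl]
      rw [h2] at h1
      convert h1 using 2
      split_ifs <;> simp
    · intro p _ hp
      split_ifs with hp'
      · have h3 : p ≠ ex r 0 1 (by omega) := by
          rintro rfl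
          exact absurd hp'.2 (by rw [ex_one]; simp)
        unfold nL
        rw [if_neg hp, if_neg h3]
        simp
      · rw [mul_zero]
    · intro h; exact absurd (Finset.mem_univ _) h
  · have h1 := val_cMv hw hb i (Finsupp.single (1 : Fin 2) 1)
    rw [Finset.sum_eq_single (ex r 0 1 (by omega))] at h1
    · rw [if_pos (by rw [ex_zero, ex_one]; simp), wmon_ex] at h1
      have h2 : nL r hm (i, ex r 0 1 (by omega)) =
          if (i : ℕ) = d then 1 else if (i : ℕ) = d - 1 then -1 else 0 := by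
        unfold nL
        rw [if_neg (ex_ne (Or.inl (by norm_num))), if_pos rfl]
      rw [h2] at h1
      convert h1 using 2
      split_ifs <;> simp
    · intro p _ hp
      split_ifs with hp'
      · have h3 : p ≠ ex r 1 0 (by omega) := by
          rintro rfl
          exact absurd hp'.1 (by rw [ex_zero]; simp)
        unfold nL
        rw [if_neg h3, if_neg hp]
        simp
      · rw [mul_zero]
    · intro h; exact absurd (Finset.mem_univ _) h

/-- the coefficient as a polynomial in `T` -/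
noncomputable def cPoly {R : Type*} [CommRing R] (u : R) (w : Fin r → R)
    (b : Fin (d + 1) × IdxR (r + 2) m → R) (i : Fin (d + 1)) : R[X] :=
  ∑ l : Fin (m + 1), C (cT u w b i l) * X ^ (l : ℕ)

lemma aeval_cPoly {R A : Type*} [CommRing R] [CommRing A] [Algebra R A] (u : R) (w : Fin r → R)
    (b : Fin (d + 1) × IdxR (r + 2) m → R) (i : Fin (d + 1)) (t : A) :
    aeval t (cPoly u w b i) = ∑ l : Fin (m + 1), algebraMap R A (cT u w b i l) * t ^ (l : ℕ) := by
  unfold cPoly
  rw [map_sum]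
  refine Finset.sum_congr rfl fun l _ => ?_
  rw [map_mul, aeval_C, map_pow, aeval_X]

lemma coeff_cPoly {R : Type*} [CommRing R] (u : R) (w : Fin r → R)
    (b : Fin (d + 1) × IdxR (r + 2) m → R) (i : Fin (d + 1)) (s : ℕ) :
    (cPoly u w b i).coeff s = ∑ p : IdxR (r + 2) m,
      b (i, p) * (if (p.1 0 : ℕ) = s then wmon w p * u ^ (p.1 1 : ℕ) else 0) := by
  classical
  unfold cPoly cT
  rw [finsetSum_coeff]
  simp only [coeff_C_mul_X_pow]
  by_cases hs : s < m + 1
  · rw [Finset.sum_eq_single (⟨s, hs⟩ : Fin (m + 1))]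
    · rw [if_pos rfl]
      refine Finset.sum_congr rfl fun p _ => ?_
      by_cases hp : (p.1 0 : ℕ) = s
      · rw [if_pos (Fin.ext hp), if_pos hp, mul_assoc]
      · rw [if_neg (fun h => hp (congrArg Fin.val h)), if_neg hp, mul_zero]
    · intro l _ hl
      rw [if_neg]
      intro h
      exact hl (Fin.ext h.symm)
    · intro h; exact absurd (Finset.mem_univ _) h
  · rw [Finset.sum_eq_zero, Finset.sum_eq_zero]
    · intro p _
      rw [if_neg, mul_zero]
      intro h
      have := (p.1 0).2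
      omega
    · intro l _
      rw [if_neg]
      have := l.2
      omega

/-- the assignment for `two_trans` -/
def nT (r : ℕ) {m d : ℕ} (hm : 1 ≤ m) (q : Fin (d + 1) × IdxR (r + 2) m) : ℤ :=
  if q.2 = ex r 0 0 (by omega) then
    (if (q.1 : ℕ) = d then 1 else if (q.1 : ℕ) = d - 1 then -1 else 0)
  else if q.2 = ex r 1 0 (by omega) then (if q.1 = 0 then -1 else 0)
  else 0

lemma val_cPoly {u : Λ} (hu : (u : S) ∈ W) {w : Fin r → Λ} (hw : ∀ j, (w j : S) ∈ W) (hm : 1 ≤ m)
    {b : Fin (d + 1) × IdxR (r + 2) m → Λ}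
    (hb : ∀ q, W.valuation ((b q : S) - nT r hm q) < 1) (i : Fin (d + 1)) (s : ℕ) :
    W.valuation (((cPoly u w b i).coeff s : Λ) -
      ((if s = 0 then (if (i : ℕ) = d then 1 else if (i : ℕ) = d - 1 then -1 else 0)
        else if s = 1 then (if i = 0 then -1 else 0) else 0 : ℤ) : S)) < 1 := by
  have h1 : (((cPoly u w b i).coeff s : Λ) : S) = ∑ p : IdxR (r + 2) m, (b (i, p) : S) *
      (if (p.1 0 : ℕ) = s then ((wmon w p : Λ) : S) * (u : S) ^ (p.1 1 : ℕ) else 0) := by
    rw [coeff_cPoly]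
    change Λ.subtype _ = _
    rw [map_sum]
    refine Finset.sum_congr rfl fun p _ => ?_
    rw [map_mul]
    split_ifs
    · rw [map_mul, map_pow]; rfl
    · rw [map_zero]; rfl
  have h2 := val_sum_sub (W := W) (x := fun p : IdxR (r + 2) m => (b (i, p) : S))
    (y := fun p => ((nT r hm (i, p) : ℤ) : S))
    (z := fun p => if (p.1 0 : ℕ) = s then ((wmon w p : Λ) : S) * (u : S) ^ (p.1 1 : ℕ) else 0)
    (fun p => by
      split_ifs
      · exact mul_mem (wmon_mem hw p) (pow_mem hu _)
      · exact zero_mem _) (fun p => hb _)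
  rw [h1]
  have h3 : ∑ p : IdxR (r + 2) m, ((nT r hm (i, p) : ℤ) : S) *
      (if (p.1 0 : ℕ) = s then ((wmon w p : Λ) : S) * (u : S) ^ (p.1 1 : ℕ) else 0) =
      ((if s = 0 then (if (i : ℕ) = d then 1 else if (i : ℕ) = d - 1 then -1 else 0)
        else if s = 1 then (if i = 0 then -1 else 0) else 0 : ℤ) : S) := by
    by_cases hs0 : s = 0
    · subst hs0
      rw [Finset.sum_eq_single (ex r 0 0 (by omega))]
      · rw [if_pos (ex_zero _ _ _ _), wmon_ex, ex_one, pow_zero, if_pos rfl]
        unfold nT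
        rw [if_pos rfl]
        simp
      · intro p _ hp
        split_ifs with hp'
        · have h4 : p ≠ ex r 1 0 (by omega) := by
            rintro rfl
            rw [ex_zero] at hp'
            omega
          unfold nT
          rw [if_neg hp, if_neg h4]
          simp
        · rw [mul_zero]
      · intro h; exact absurd (Finset.mem_univ _) h
    · by_cases hs1 : s = 1
      · subst hs1
        rw [Finset.sum_eq_single (ex r 1 0 (by omega))]
        · rw [if_pos (ex_zero _ _ _ _), wmon_ex, ex_one, pow_zero, if_neg one_ne_zero, if_pos rfl]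
          unfold nT
          rw [if_neg (ex_ne (Or.inl (by norm_num))), if_pos rfl]
          simp
        · intro p _ hp
          split_ifs with hp'
          · have h4 : p ≠ ex r 0 0 (by omega) := by
              intro he
              rw [he, ex_zero] at hp'
              omega
            unfold nT
            rw [if_neg h4, if_neg hp]
            simp
          · rw [mul_zero]
        · intro h; exact absurd (Finset.mem_univ _) h
      · rw [if_neg hs0, if_neg hs1, Int.cast_zero]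
        apply Finset.sum_eq_zero
        intro p _
        split_ifs with hp'
        · have h4 : p ≠ ex r 0 0 (by omega) := by
            intro he
            rw [he, ex_zero] at hp'
            omega
          have h5 : p ≠ ex r 1 0 (by omega) := by
            intro he
            rw [he, ex_zero] at hp'
            omega
          unfold nT
          rw [if_neg h4, if_neg h5]
          simp
        · rw [mul_zero]
  rw [← h3]
  exact h2

/-- The hypotheses of `two_trans`. -/
theorem twoTrans_hyps (hd : 3 ≤ d) (hm : 1 ≤ m) {u : Λ} (hu : (u : S) ∈ W) {w : Fin r → Λ}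
    (hw : ∀ j, (w j : S) ∈ W)
    {b : Fin (d + 1) × IdxR (r + 2) m → Λ} (hbW : ∀ q, (b q : S) ∈ W)
    (hb : ∀ q, W.valuation ((b q : S) - nT r hm q) < 1) :
    (∀ i s, ((cPoly u w b i).coeff s : S) ∈ W) ∧
    (∀ s, W.valuation (((cPoly u w b (Fin.last d)).coeff s : S) - if s = 0 then 1 else 0) < 1) ∧
    (∀ i : Fin (d + 1), (i : ℕ) = d - 1 → ∀ s,
      W.valuation (((cPoly u w b i).coeff s : S) + if s = 0 then 1 else 0) < 1) ∧
    (∀ s, W.valuation (((cPoly u w b 0).coeff s : S) + if s = 1 then 1 else 0) < 1) ∧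
    (∀ i : Fin (d + 1), (i : ℕ) ≠ d → (i : ℕ) ≠ d - 1 → (i : ℕ) ≠ 0 → ∀ s,
      W.valuation ((cPoly u w b i).coeff s : S) < 1) := by
  refine ⟨fun i s => ?_, fun s => ?_, fun i hi s => ?_, fun s => ?_, fun i hi1 hi2 hi3 s => ?_⟩
  · rw [coeff_cPoly]
    change Λ.subtype _ ∈ W
    rw [map_sum]
    refine sum_mem fun p _ => ?_
    rw [map_mul]
    refine mul_mem (hbW _) ?_
    split_ifs
    · rw [map_mul, map_pow]
      exact mul_mem (wmon_mem hw p) (pow_mem hu _)
    · rw [map_zero]; exact zero_mem _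
  · have h1 := val_cPoly hu hw hm hb (Fin.last d) s
    convert h1 using 2
    have h2 : (Fin.last d : Fin (d + 1)) ≠ 0 := by
      intro h
      have := congrArg Fin.val h
      simp at this
      omega
    rw [Fin.val_last, if_pos rfl, if_neg h2]
    by_cases hs0 : s = 0
    · rw [if_pos hs0, if_pos hs0]; simp
    · rw [if_neg hs0, if_neg hs0]; simp
  · have h1 := val_cPoly hu hw hm hb i s
    convert h1 using 2
    have h2 : i ≠ 0 := by
      rintro rfl
      simp at hi
      omega
    have h3 : (i : ℕ) ≠ d := by omega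
    rw [if_neg h3, if_pos hi, if_neg h2]
    by_cases hs0 : s = 0
    · rw [if_pos hs0, if_pos hs0]; simp
    · rw [if_neg hs0, if_neg hs0]; simp
  · have h1 := val_cPoly hu hw hm hb 0 s
    convert h1 using 2
    have h2 : ((0 : Fin (d + 1)) : ℕ) ≠ d := by simp; omega
    have h3 : ((0 : Fin (d + 1)) : ℕ) ≠ d - 1 := by simp; omega
    rw [if_neg h2, if_neg h3, if_pos rfl]
    by_cases hs0 : s = 0
    · rw [if_pos hs0, if_neg (by omega)]; simp
    · rw [if_neg hs0]
      by_cases hs1 : s = 1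
      · rw [if_pos hs1, if_pos hs1]; simp
      · rw [if_neg hs1, if_neg hs1]; simp
  · have h1 := val_cPoly hu hw hm hb i s
    convert h1 using 2
    have h2 : i ≠ 0 := by
      rintro rfl
      exact hi3 rfl
    split_ifs <;> simp_all

end coeffs

end UL
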