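import Mathlib
import Pool.Agent.Helper10.UL.Gen
import Pool.Agent.Helper37.UL.E7
import Pool.Agent.Helper37.UL.Germ3

/-!
# The generic curve over the ultrapower: monodromy and level one structures
-/

universe u v w

namespace UL

open Polynomial Pool.Agent.GC Pool.Agent.Helper37.UL

lemma map_wmon {R R' : Type*} [CommRing R] [CommRing R'] (f : R →+* R') {r m : ℕ}
    (w : Fin r → R) (p : IdxR (r + 2) m) : f (wmon w p) = wmon (fun j => f (w j)) p := by
  unfold wmon
  rw [map_prod]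
  refine Finset.prod_congr rfl fun j _ => ?_
  rw [map_pow]

lemma map_cT {R R' : Type*} [CommRing R] [CommRing R'] (f : R →+* R') {r m d : ℕ} (U : R)
    (w : Fin r → R) (b : Fin (d + 1) × IdxR (r + 2) m → R) (i : Fin (d + 1)) (l : Fin (m + 1)) :
    f (cT U w b i l) = cT (f U) (fun j => f (w j)) (fun q => f (b q)) i l := by
  unfold cT
  rw [map_sum]
  refine Finset.sum_congr rfl fun p _ => ?_
  split_ifs
  · rw [map_mul, map_mul, map_pow, map_wmon]
  · rw [map_zero]

section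

variable {J : Type v} {U : Ultrafilter J} {C : Type u} [Field C] {S : Type w} [Field S]
  {π : (J → C) →+* S} {r m d : ℕ} {vv : J → Fin (d + 1) × IdxR (r + 2) m → ℤ}

lemma pi_cT (u : C) (w : Fin r → C) (i : Fin (d + 1)) (l : Fin (m + 1)) :
    π (fun a => cT u w (fun q => (vv a q : C)) i l) =
      cT (UP.cst π u) (fun j => UP.cst π (w j)) (xgen π vv) i l := by
  have h1 : (fun a => cT u w (fun q => (vv a q : C)) i l) =
      cT (k := J → C) (fun _ => u) (fun j _ => w j) (fun q a => (vv a q : C)) i l := by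
    funext a
    have := map_cT (Pi.evalRingHom (fun _ : J => C) a) (fun _ => u) (fun j _ => w j)
      (fun q a => (vv a q : C)) i l
    exact this.symm
  rw [h1, map_cT]
  rfl

/-- the coefficients of the generic curve -/
lemma pi_fc (T u : C) (w : Fin r → C) (i : Fin (d + 1)) :
    π (fun a => ∑ l, cT u w (fun q => (vv a q : C)) i l * T ^ (l : ℕ)) =
      ∑ l, cT (UP.cst π u) (fun j => UP.cst π (w j)) (xgen π vv) i l * UP.cst π T ^ (l : ℕ) := by
  have h1 : (fun a => ∑ l, cT u w (fun q => (vv a q : C)) i l * T ^ (l : ℕ)) =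
      ∑ l, (fun a => cT u w (fun q => (vv a q : C)) i l) * (fun _ : J => T) ^ (l : ℕ) := by
    funext a
    simp only [Finset.sum_apply, Pi.mul_apply, Pi.pow_apply]
  rw [h1, map_sum]
  refine Finset.sum_congr rfl fun l _ => ?_
  rw [map_mul, map_pow, pi_cT]
  rfl

variable (h : UP U π)

include h

lemma xgen_mem (X : Subfield C) (q : Fin (d + 1) × IdxR (r + 2) m) :
    xgen π vv q ∈ h.gsub X := ⟨_, fun _ => intCast_mem X _, rfl⟩

/-- **2-transitivity for the generic curve.** -/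
theorem two_trans_final [IsAlgClosed C] [CharZero C]
    (hU : ∀ Ψ : MvPolynomial (Fin (d + 1) × IdxR (r + 2) m) C, Ψ ≠ 0 →
      ∀ᶠ j in (U : Filter J), MvPolynomial.eval (fun i => (vv j i : C)) Ψ ≠ 0)
    {κ : Subfield C} {T : C} (hT : AlgebraicIndependent κ ![T]) {u : C} (hu : u ∈ κ)
    {w : Fin r → C} (hw : ∀ j, w j ∈ κ) (hd : 3 ≤ d) (hm : 1 ≤ m) {θ : Fin d → S}
    (hθ : Function.Injective θ)
    (hroot : ∀ i, ∑ l : Fin (d + 1), (π fun a => ∑ e, cT u w (fun q => (vv a q : C)) l e *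
      T ^ (e : ℕ)) * θ i ^ (l : ℕ) = 0) {i j i' j' : Fin d} (hij : i ≠ j) (hij' : i' ≠ j') :
    ∃ σ : S ≃+* S, (∀ x ∈ gen (h.gsub κ) (fun i => UP.cst π ((![T] : Fin 1 → C) i)), σ x = x) ∧
      σ (θ i) = θ i' ∧ σ (θ j) = θ j' := by
  have := h.isAlgClosed
  have := h.charZero
  obtain ⟨W, hW, hWc, hWx, hWv⟩ := exists_W_gen h hU (nT r hm)
  let u' : h.gsub κ := ⟨UP.cst π u, h.const_mem_gsub.mpr hu⟩
  let w' : Fin r → h.gsub κ := fun j => ⟨UP.cst π (w j), h.const_mem_gsub.mpr (hw j)⟩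
  let b' : Fin (d + 1) × IdxR (r + 2) m → h.gsub κ := fun q => ⟨xgen π vv q, xgen_mem h κ q⟩
  obtain ⟨h1, h2, h3, h4, h5⟩ := twoTrans_hyps (W := W) hd hm (u := u') (hWc u) (w := w')
    (fun j => hWc _) (b := b') hWx hWv
  refine two_trans_gen (h.algInd hT) hd (fun i => cPoly u' w' b' i) W hW h1 h2 h3 h4 h5 hθ ?_
    hij hij'
  intro i
  rw [← hroot i]
  refine Finset.sum_congr rfl fun l _ => ?_
  congr 1
  rw [aeval_cPoly, pi_fc]
  refine Finset.sum_congr rfl fun e _ => ?_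
  congr 1
  rw [map_cT]
  rfl

/-- **No level one structure for the generic curve.** -/
theorem no_lev_final [IsAlgClosed C] [CharZero C]
    (hU : ∀ Ψ : MvPolynomial (Fin (d + 1) × IdxR (r + 2) m) C, Ψ ≠ 0 →
      ∀ᶠ j in (U : Filter J), MvPolynomial.eval (fun i => (vv j i : C)) Ψ ≠ 0)
    {Ω : Subfield C} {T u : C} (hTu : AlgebraicIndependent Ω ![T, u])
    {w : Fin r → C} (hw : ∀ j, w j ∈ Ω) {p : ℕ} (hp : p.Prime) (hd : 3 ≤ d) (hm : 1 ≤ m)
    {θ : Fin d → S} {z : Fin d → Fin d → S} {α : S}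
    (hl : Lev (gen (h.gsub Ω) (fun i => UP.cst π ((![T, u] : Fin 2 → C) i))) p
      (fun i : Fin (d + 1) => π fun a => ∑ e, cT u w (fun q => (vv a q : C)) i e * T ^ (e : ℕ))
      θ z α) : False := by
  have := h.isAlgClosed
  have := h.charZero
  obtain ⟨W, hW, hWc, hWx, hWv⟩ := exists_W_gen h hU (nL r hm)
  let w' : Fin r → h.gsub Ω := fun j => ⟨UP.cst π (w j), h.const_mem_gsub.mpr (hw j)⟩
  let b' : Fin (d + 1) × IdxR (r + 2) m → h.gsub Ω := fun q => ⟨xgen π vv q, xgen_mem h Ω q⟩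
  obtain ⟨h1, h2, h3, h4⟩ := noLev_hyps (W := W) hm (w := w') (fun j => hWc _) (b := b') hWx hWv
  refine no_lev_gen (h.algInd hTu) hp hd (fun i => cMv w' b' i) W hW h1 h2 h3 h4 (θ := θ) (z := z)
    (α := α) ?_
  have h5 : (fun i : Fin (d + 1) => π fun a => ∑ e, cT u w (fun q => (vv a q : C)) i e *
      T ^ (e : ℕ)) = fun i => MvPolynomial.aeval (fun i => UP.cst π ((![T, u] : Fin 2 → C) i))
        (cMv w' b' i) := by
    funext i
    have h6 : (fun i => UP.cst π ((![T, u] : Fin 2 → C) i)) = ![UP.cst π T, UP.cst π u] := by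
      funext i
      fin_cases i <;> rfl
    rw [h6, aeval_cMv, pi_fc, sum_cT]
    refine Finset.sum_congr rfl fun p _ => ?_
    congr 1
    rw [map_mul, map_wmon]
    rfl
  rw [h5] at hl
  exact hl

end

end UL
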