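import Mathlib
import Pool.Agent.Helper17.FF.PicDiv
import Pool.Agent.Helper37.UL.Data

/-!
# The field `κ`, the algebraic closure of `F(U)` in `C`
-/

set_option linter.unusedSectionVars false

universe u

namespace UL

open Polynomial IntermediateField

variable {F k C : Type u} [Field F] [Field k] [Algebra F k] [Field C] [Algebra k C]
  [IsAlgClosure k C] {T U : k} {κ : Subfield C}
  (hκ : ∀ c : C, c ∈ κ ↔ IsAlgebraic
    (Subfield.closure (Set.range ((algebraMap k C).comp (algebraMap F k)) ∪
      {algebraMap k C U})) c)

include hκ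

lemma kappa_eq : κ = (algebraicClosure (Subfield.closure
    (Set.range ((algebraMap k C).comp (algebraMap F k)) ∪ {algebraMap k C U})) C).toSubfield := by
  ext c
  rw [hκ]
  exact mem_algebraicClosure_iff.symm

lemma kappa_closed : IsAlgClosed κ := by
  have hC : IsAlgClosed C := IsAlgClosure.isAlgClosed k
  set L := Subfield.closure
    (Set.range ((algebraMap k C).comp (algebraMap F k)) ∪ {algebraMap k C U}) with hL
  have h1 : IsAlgClosed (algebraicClosure L C) := (algebraicClosure.isAlgClosure L C).isAlgClosed
  rw [kappa_eq hκ]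
  exact h1

lemma closure_le_kappa : Subfield.closure
    (Set.range ((algebraMap k C).comp (algebraMap F k)) ∪ {algebraMap k C U}) ≤ κ := by
  intro c hc
  rw [hκ]
  exact isAlgebraic_algebraMap (⟨c, hc⟩ : Subfield.closure
    (Set.range ((algebraMap k C).comp (algebraMap F k)) ∪ {algebraMap k C U}))

lemma mem_kappa_of_adjoin {a : k} (ha : a ∈ IntermediateField.adjoin F {U}) :
    algebraMap k C a ∈ κ := by
  apply closure_le_kappa hκ
  have h1 : (IntermediateField.adjoin F {U} : IntermediateField F k).toSubfield ≤
      (Subfield.closure (Set.range ((algebraMap k C).comp (algebraMap F k)) ∪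
        {algebraMap k C U})).comap (algebraMap k C) := by
    rw [IntermediateField.adjoin_toSubfield, Subfield.closure_le]
    rintro x (⟨y, rfl⟩ | hx)
    · exact Subfield.subset_closure (Or.inl ⟨y, rfl⟩)
    · rw [Set.mem_singleton_iff.mp hx]
      exact Subfield.subset_closure (Or.inr rfl)
  exact h1 ha

lemma mem_kappa_F (a : F) : algebraMap k C (algebraMap F k a) ∈ κ :=
  mem_kappa_of_adjoin hκ (IntermediateField.algebraMap_mem _ a)

lemma mem_kappa_U : algebraMap k C U ∈ κ :=
  mem_kappa_of_adjoin hκ (IntermediateField.mem_adjoin_simple_self F U)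

lemma kappa_transc (hTU : AlgebraicIndependent F ![T, U]) :
    Transcendental κ (algebraMap k C T) := by
  intro halg
  have hcl := kappa_closed hκ
  obtain ⟨b, hb⟩ := FF.exists_const_of_not_transcendental (k := κ) (F := C)
    (f := algebraMap k C T) (not_not.mpr halg)
  have h1 : algebraMap k C T ∈ κ := hb ▸ b.2
  rw [hκ] at h1
  let _ : Algebra F C := ((algebraMap k C).comp (algebraMap F k)).toAlgebra
  have htower : IsScalarTower F k C := IsScalarTower.of_algebraMap_eq fun _ => rfl
  have h2 : AlgebraicIndependent F (fun i => algebraMap k C (![T, U] i)) :=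
    hTU.map' (f := IsScalarTower.toAlgHom F k C) (algebraMap k C).injective
  have h3 := h2.transcendental_adjoin (s := {1}) (i := 0) (by simp)
  rw [Set.image_singleton] at h3
  have h4 : Transcendental (Algebra.adjoin F {algebraMap k C U}) (algebraMap k C T) := h3
  have h5 := IntermediateField.transcendental_adjoin_iff.mpr h4
  exact h5 h1

omit hκ [IsAlgClosure k C] in
lemma range_le_of (htop : IntermediateField.adjoin F {T, U} = ⊤) {M : Subfield C}
    (hF : ∀ a : F, algebraMap k C (algebraMap F k a) ∈ M) (hT : algebraMap k C T ∈ M)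
    (hU : algebraMap k C U ∈ M) (x : k) : algebraMap k C x ∈ M := by
  have h1 : (IntermediateField.adjoin F {T, U} : IntermediateField F k).toSubfield ≤
      M.comap (algebraMap k C) := by
    rw [IntermediateField.adjoin_toSubfield, Subfield.closure_le]
    rintro x (⟨y, rfl⟩ | hx)
    · exact hF y
    · rcases hx with hx | hx
      · rw [hx]; exact hT
      · rw [Set.mem_singleton_iff.mp hx]; exact hU
  rw [htop] at h1
  exact h1 (Subfield.mem_top x)

end UL
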