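import Mathlib
import Pool.Agent.Helper10.UL.Setup
import Pool.Agent.Helper37.UL.Germ2

/-!
# The algebraic closure of the constants
-/

universe u

namespace UL

open Polynomial Pool.Agent.Helper37.UL

section

variable (F k C : Type u) [Field F] [Field k] [Algebra F k] [Field C] [Algebra k C]

/-- the image of the constants -/
def imF : Subfield C := ((algebraMap k C).comp (algebraMap F k)).fieldRange

/-- the algebraic closure of `F` in `C` -/
noncomputable def Om : Subfield C := (algebraicClosure (imF F k C) C).toSubfield

/-- the algebraic closure of `F(U)` in `C` -/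
noncomputable def Kap (U : k) : Subfield C := (algebraicClosure (Subfield.closure
    (Set.range ((algebraMap k C).comp (algebraMap F k)) ∪ {algebraMap k C U})) C).toSubfield

variable {F k C}

lemma mem_imF (a : F) : algebraMap k C (algebraMap F k a) ∈ imF F k C := ⟨a, rfl⟩

lemma mem_Om {c : C} : c ∈ Om F k C ↔ IsAlgebraic (imF F k C) c := mem_algebraicClosure_iff

lemma imF_le : imF F k C ≤ Om F k C := fun c hc =>
  mem_Om.mpr (isAlgebraic_algebraMap (⟨c, hc⟩ : imF F k C))

lemma mem_Om_F (a : F) : algebraMap k C (algebraMap F k a) ∈ Om F k C := imF_le (mem_imF a)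

lemma mem_Kap {U : k} {c : C} : c ∈ Kap F k C U ↔ IsAlgebraic
    (Subfield.closure (Set.range ((algebraMap k C).comp (algebraMap F k)) ∪
      {algebraMap k C U})) c := mem_algebraicClosure_iff

lemma Om_le_Kap {U : k} : Om F k C ≤ Kap F k C U := by
  intro c hc
  rw [mem_Om] at hc
  rw [mem_Kap]
  refine isAlgebraic_mono ?_ hc
  rintro _ ⟨a, rfl⟩
  exact Subfield.subset_closure (Or.inl ⟨a, rfl⟩)

/-- `Om` is relatively algebraically closed. -/
lemma Om_closed {c : C} (hc : IsAlgebraic (Om F k C) c) : c ∈ Om F k C := by
  have h1 : IsAlgebraic (algebraicClosure (imF F k C) C) c := hc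
  have h2 : IsAlgebraic (imF F k C) c := by
    have : Algebra.IsAlgebraic (imF F k C) (algebraicClosure (imF F k C) C) := inferInstance
    exact h1.restrictScalars (imF F k C)
  exact mem_Om.mpr h2

lemma Kap_closed {U : k} {c : C} (hc : IsAlgebraic (Kap F k C U) c) : c ∈ Kap F k C U := by
  have h1 : IsAlgebraic (algebraicClosure (Subfield.closure
    (Set.range ((algebraMap k C).comp (algebraMap F k)) ∪ {algebraMap k C U})) C) c := hc
  rw [mem_Kap]
  have : Algebra.IsAlgebraic (Subfield.closure
    (Set.range ((algebraMap k C).comp (algebraMap F k)) ∪ {algebraMap k C U}))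
    (algebraicClosure (Subfield.closure
    (Set.range ((algebraMap k C).comp (algebraMap F k)) ∪ {algebraMap k C U})) C) := inferInstance
  exact h1.restrictScalars _

/-- algebraic independence over `Om` -/
theorem algInd_Om {n : ℕ} {x : Fin n → k} (hx : AlgebraicIndependent F x) :
    AlgebraicIndependent (Om F k C) (fun i => algebraMap k C (x i)) := by
  let _ : Algebra F C := ((algebraMap k C).comp (algebraMap F k)).toAlgebra
  have htower : IsScalarTower F k C := IsScalarTower.of_algebraMap_eq fun _ => rfl
  have h2 : AlgebraicIndependent F (fun i => algebraMap k C (x i)) :=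
    hx.map' (f := IsScalarTower.toAlgHom F k C) (algebraMap k C).injective
  have h3 : AlgebraicIndependent (imF F k C) (fun i => algebraMap k C (x i)) := by
    rw [algebraicIndependent_iff]
    intro P hP
    let e : F ≃+* imF F k C :=
      RingEquiv.ofBijective ((algebraMap k C).comp (algebraMap F k)).rangeRestrictField
        ⟨((algebraMap k C).comp (algebraMap F k)).rangeRestrictField.injective,
          fun ⟨_, c, hc⟩ => ⟨c, Subtype.ext hc⟩⟩
    have h4 := (algebraicIndependent_iff.1 h2) (MvPolynomial.map e.symm.toRingHom P) (by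
      rw [← hP, MvPolynomial.aeval_def, MvPolynomial.eval₂_map, MvPolynomial.aeval_def]
      congr 1
      ext c
      exact congrArg Subtype.val (e.apply_symm_apply c))
    have h5 := MvPolynomial.map_injective (σ := Fin n) e.symm.toRingHom e.symm.injective
    apply h5
    rw [map_zero]
    exact h4
  exact AlgebraicIndependent.algebraicClosure h3

lemma algInd_Om2 {T U : k} (hTU : AlgebraicIndependent F ![T, U]) :
    AlgebraicIndependent (Om F k C) ![algebraMap k C T, algebraMap k C U] := by
  have h1 := algInd_Om (C := C) hTU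
  have h2 : (fun i => algebraMap k C ((![T, U] : Fin 2 → k) i)) =
      ![algebraMap k C T, algebraMap k C U] := by
    funext i
    fin_cases i <;> rfl
  rwa [h2] at h1

lemma algInd_Kap [IsAlgClosure k C] {T U : k} (hTU : AlgebraicIndependent F ![T, U]) :
    AlgebraicIndependent (Kap F k C U) ![algebraMap k C T] := by
  rw [algebraicIndependent_unique_type_iff]
  exact kappa_transc (κ := Kap F k C U) (fun c => mem_Kap) hTU

/-- `k` is contained in `Om(T, U)`. -/
lemma range_le_gen {T U : k} (htop : IntermediateField.adjoin F {T, U} = ⊤) :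
    (algebraMap k C).fieldRange ≤ gen (Om F k C) ![algebraMap k C T, algebraMap k C U] := by
  rintro _ ⟨x, rfl⟩
  exact range_le_of htop (fun a => le_gen (mem_Om_F a)) (gen_mem 0) (gen_mem 1) x

lemma isAlgebraic_gen [IsAlgClosure k C] {T U : k} (htop : IntermediateField.adjoin F {T, U} = ⊤)
    (c : C) : IsAlgebraic (gen (Om F k C) ![algebraMap k C T, algebraMap k C U]) c := by
  refine isAlgebraic_mono (range_le_gen htop) ?_
  have h1 : IsAlgebraic k c := (IsAlgClosure.isAlgebraic (R := k) (K := C)).isAlgebraic c
  obtain ⟨P, hP0, hP⟩ := h1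
  refine ⟨P.map (algebraMap k C).rangeRestrictField, ?_, ?_⟩
  · exact (Polynomial.map_ne_zero_iff (algebraMap k C).rangeRestrictField.injective).2 hP0
  · rw [← hP, aeval_def, eval₂_map]
    rfl

lemma gen_Om_le_gen_Kap {T U : k} : gen (Om F k C) ![algebraMap k C T, algebraMap k C U] ≤
    gen (Kap F k C U) ![algebraMap k C T] := by
  unfold gen
  rw [Subfield.closure_le, Set.union_subset_iff]
  refine ⟨fun x hx => Subfield.subset_closure (Or.inl (Om_le_Kap hx)), ?_⟩
  rintro _ ⟨i, rfl⟩
  fin_cases i
  · exact Subfield.subset_closure (Or.inr ⟨0, rfl⟩)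
  · refine Subfield.subset_closure (Or.inl ?_)
    refine mem_Kap.mpr ?_
    exact isAlgebraic_algebraMap (⟨algebraMap k C U, Subfield.subset_closure (Or.inr rfl)⟩ :
      Subfield.closure (Set.range ((algebraMap k C).comp (algebraMap F k)) ∪ {algebraMap k C U}))

end

end UL
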