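import Mathlib
import Pool.Agent.Helper17.FF.Genus

/-!
# Uniform Riemann inequality and bounded representatives of classes modulo `p`-th powers
-/

namespace UL

open VC FF WithZero Polynomial IntermediateField

universe u

variable {k F : Type u} [Field k] [IsAlgClosed k] [Field F] [Algebra k F]
  (hF : IsFunctionField k F)

include hF

/-- Riemann's inequality from a family of functions, with an explicit constant. -/
theorem riemann_bound_of {B : Place k F →₀ ℤ} {n : ℕ} {C : ℤ} (hn : 0 < n)
    (hB : deg B = n) (hl : ∀ l : ℕ, (n * (l + 1) : ℤ) - C ≤ ell (l • B)) :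
    ∀ D : Place k F →₀ ℤ, deg D - ell D ≤ C := by
  intro D
  set A : Place k F →₀ ℤ := D ⊔ 0 with hA
  have hDA : ∀ P, D P ≤ A P := fun P => by
    rw [hA, Finsupp.sup_apply]; exact le_max_left _ _
  have h1 := ell_le_add hF hDA
  obtain ⟨l, hl'⟩ : ∃ l : ℕ, 0 < ell (l • B - A) := by
    refine ⟨(C + deg A).toNat, ?_⟩
    set l := (C + deg A).toNat with hl0
    have hA0 : ∀ P, 0 ≤ A P := fun P => by
      rw [hA, Finsupp.sup_apply]; exact le_max_right _ _
    have h2 := ell_le_add hF (D := l • B - A) (E := l • B) (fun P => by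
      rw [Finsupp.sub_apply]; have := hA0 P; omega)
    rw [map_sub] at h2
    have h3 := hl l
    have h4 : C + deg A ≤ l := Int.self_le_toNat _
    have h5 : (l : ℤ) + 1 ≤ n * (l + 1) := by
      have : (1 : ℤ) ≤ n := by exact_mod_cast hn
      nlinarith
    have h6 : (0 : ℤ) < ell (l • B - A) := by linarith
    exact_mod_cast h6
  have hfd := finite_rr hF (l • B - A)
  have hne : riemannRochSpace k F (l • B - A) ≠ ⊥ := by
    intro h
    unfold ell at hl'
    rw [h, finrank_bot] at hl'
    exact lt_irrefl _ hl'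
  obtain ⟨z, hz, hz0⟩ := Submodule.exists_mem_ne_zero_of_ne_bot hne
  rw [mem_rr hF _ hz0] at hz
  have h7 : ∀ P, (A + dv hF z⁻¹) P ≤ (l • B) P := by
    intro P
    have := hz P
    rw [Finsupp.sub_apply] at this
    rw [Finsupp.add_apply, dv_apply, ord_inv hF P hz0]
    omega
  have h8 := ell_le_add hF h7
  rw [ell_add_dv hF A (inv_ne_zero hz0), map_add, deg_dv hF (inv_ne_zero hz0), add_zero] at h8
  have h9 := hl l
  have h10 : deg (l • B) = l * n := by rw [map_nsmul, hB, nsmul_eq_mul]
  have h11 : (n : ℤ) * (l + 1) = l * n + n := by ring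
  have : (0 : ℤ) ≤ n := by positivity
  linarith

/-- products with powers of `t` -/
lemma pow_mul_mem {t : F} (ht0 : t ≠ 0) {v : F} {C : Place k F →₀ ℤ} (hC : ∀ P, 0 ≤ C P)
    (hv : ∀ P, - ord P.ring v ≤ C P) {i l : ℕ} (hil : i ≤ l) :
    t ^ i * v ∈ riemannRochSpace k F (l • poles hF t + C) := by
  rcases eq_or_ne v 0 with hv0 | hv0
  · rw [hv0, mul_zero]; exact Submodule.zero_mem _
  rw [mem_rr hF _ (mul_ne_zero (pow_ne_zero _ ht0) hv0)]
  intro P
  rw [ord_mul hF P (pow_ne_zero _ ht0) hv0, ord_pow hF P ht0, Finsupp.add_apply,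
    Finsupp.smul_apply, nsmul_eq_mul, poles_apply]
  have h3 := hv P
  have h4 : (i : ℤ) ≤ l := by exact_mod_cast hil
  have h5 : ((i : ℤ)) * (- ord P.ring t) ≤ l * max (- ord P.ring t) 0 := by
    calc ((i : ℤ)) * (- ord P.ring t) ≤ (i : ℤ) * max (- ord P.ring t) 0 :=
          mul_le_mul_of_nonneg_left (le_max_left _ _) (by positivity)
      _ ≤ l * max (- ord P.ring t) 0 := mul_le_mul_of_nonneg_right h4 (le_max_right _ _)
  linarith

/-- The uniform Riemann inequality. -/
theorem uniform_riemann {t : F} (ht : Transcendental k t) {ι : Type*} [Fintype ι] (u : ι → F)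
    (hu : LinearIndependent k⟮t⟯ u) (hn : Fintype.card ι = Module.finrank k⟮t⟯ F) :
    ∀ D : Place k F →₀ ℤ, deg D - ell D ≤ ∑ j, deg (poles hF (u j)) := by
  classical
  have ht0 : t ≠ 0 := by
    rintro rfl
    exact ht isAlgebraic_zero
  have hfin := hF.finiteDimensional ht
  have hnpos : 0 < Module.finrank k⟮t⟯ F := Module.finrank_pos
  let C : Place k F →₀ ℤ := ∑ j, poles hF (u j)
  have hC0 : ∀ P, 0 ≤ C P := by
    intro P
    rw [Finsupp.finsetSum_apply]
    exact Finset.sum_nonneg fun j _ => poles_nonneg hF _ P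
  have hC : ∀ j P, - ord P.ring (u j) ≤ C P := by
    intro j P
    rw [Finsupp.finsetSum_apply]
    have h1 := Finset.single_le_sum (f := fun j => poles hF (u j) P)
      (fun j _ => poles_nonneg hF _ P) (Finset.mem_univ j)
    have h2 : - ord P.ring (u j) ≤ poles hF (u j) P := by
      rw [poles_apply]; exact le_max_left _ _
    exact h2.trans h1
  have hdegC : deg C = ∑ j, deg (poles hF (u j)) := by rw [map_sum]
  rw [← hdegC]
  refine riemann_bound_of hF hnpos (deg_poles hF ht) (fun l => ?_)
  have h2 := linearIndependent_mul_pow ht (l + 1) u hu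
  have hmem : ∀ p : Fin (l + 1) × ι, t ^ (p.1 : ℕ) * u p.2 ∈
      riemannRochSpace k F (l • poles hF t + C) := fun p =>
    pow_mul_mem hF ht0 hC0 (hC p.2) (by have := p.1.2; omega)
  have h3 : LinearIndependent k (fun p : Fin (l + 1) × ι =>
      (⟨t ^ (p.1 : ℕ) * u p.2, hmem p⟩ : riemannRochSpace k F (l • poles hF t + C))) :=
    LinearIndependent.of_comp (riemannRochSpace k F (l • poles hF t + C)).subtype h2
  have := finite_rr hF (l • poles hF t + C)
  have h4 := h3.fintype_card_le_finrank
  rw [Fintype.card_prod, Fintype.card_fin, hn] at h4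
  have h5 : (((l + 1) * Module.finrank k⟮t⟯ F : ℕ) : ℤ) ≤ ell (l • poles hF t + C) := by
    exact_mod_cast h4
  have h6 := ell_le_add hF (D := l • poles hF t) (E := l • poles hF t + C) (fun P => by
    rw [Finsupp.add_apply]; have := hC0 P; omega)
  rw [map_add] at h6
  push_cast at h5
  linarith

/-- Elements with few poles have coordinates of small degree. -/
theorem exists_coords {t : F} (ht : Transcendental k t) {ι : Type*} [Fintype ι] (u : ι → F)
    (hu : LinearIndependent k⟮t⟯ u) (hn : Fintype.card ι = Module.finrank k⟮t⟯ F)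
    {P N : ℕ} (hP : ∑ j, deg (poles hF (u j)) ≤ P) (h : F) (hN : deg (poles hF h) ≤ N) :
    ∃ (b : k[X]) (a : ι → k[X]), b ≠ 0 ∧ b.natDegree ≤ P + N + 1 ∧
      (∀ j, (a j).natDegree ≤ P + N + 1) ∧ aeval t b * h = ∑ j, aeval t (a j) * u j := by
  classical
  have ht0 : t ≠ 0 := by
    rintro rfl
    exact ht isAlgebraic_zero
  have hfin := hF.finiteDimensional ht
  have hnpos : 0 < Module.finrank k⟮t⟯ F := Module.finrank_pos
  let C : Place k F →₀ ℤ := ∑ j, poles hF (u j) + poles hF h
  have hC1 : ∀ P, 0 ≤ (∑ j, poles hF (u j)) P := by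
    intro P
    rw [Finsupp.finsetSum_apply]
    exact Finset.sum_nonneg fun j _ => poles_nonneg hF _ P
  have hC0 : ∀ P, 0 ≤ C P := by
    intro P
    rw [Finsupp.add_apply]
    have := hC1 P
    have := poles_nonneg hF h P
    omega
  have hC : ∀ j P, - ord P.ring (u j) ≤ C P := by
    intro j P
    rw [Finsupp.add_apply, Finsupp.finsetSum_apply]
    have h1 := Finset.single_le_sum (f := fun j => poles hF (u j) P)
      (fun j _ => poles_nonneg hF _ P) (Finset.mem_univ j)
    have h2 : - ord P.ring (u j) ≤ poles hF (u j) P := by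
      rw [poles_apply]; exact le_max_left _ _
    have := poles_nonneg hF h P
    have h1' : poles hF (u j) P ≤ ∑ i, poles hF (u i) P := h1
    omega
  have hCh : ∀ P, - ord P.ring h ≤ C P := by
    intro P
    rw [Finsupp.add_apply]
    have := hC1 P
    have h2 : - ord P.ring h ≤ poles hF h P := by
      rw [poles_apply]; exact le_max_left _ _
    omega
  have hdegC : deg C ≤ P + N := by
    rw [map_add, map_sum]; linarith
  set l := P + N + 1 with hl
  -- the linear map
  let V := (Fin (l + 1) → k) × (Fin (l + 1) × ι → k)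
  let W := riemannRochSpace k F (l • poles hF t + C)
  have hfd : FiniteDimensional k W := finite_rr hF _
  have hm1 : ∀ i : Fin (l + 1), t ^ (i : ℕ) * h ∈ W := fun i =>
    pow_mul_mem hF ht0 hC0 hCh (by have := i.2; omega)
  have hm2 : ∀ p : Fin (l + 1) × ι, t ^ (p.1 : ℕ) * u p.2 ∈ W := fun p =>
    pow_mul_mem hF ht0 hC0 (hC p.2) (by have := p.1.2; omega)
  let T1 : (Fin (l + 1) → k) →ₗ[k] W :=
    Fintype.linearCombination k (fun i => (⟨t ^ (i : ℕ) * h, hm1 i⟩ : W))
  let T2 : (Fin (l + 1) × ι → k) →ₗ[k] W :=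
    Fintype.linearCombination k (fun p => (⟨t ^ (p.1 : ℕ) * u p.2, hm2 p⟩ : W))
  let T : V →ₗ[k] W := T1.coprod (-T2)
  have hrank : Module.finrank k W < Module.finrank k V := by
    have h1 : Module.finrank k V = (l + 1) + (l + 1) * Fintype.card ι := by
      rw [Module.finrank_prod, Module.finrank_fintype_fun_eq_card,
        Module.finrank_fintype_fun_eq_card, Fintype.card_fin, Fintype.card_prod, Fintype.card_fin]
    have h2 := ell_le_deg hF (D := l • poles hF t + C) (fun P => by
      rw [Finsupp.add_apply, Finsupp.smul_apply, nsmul_eq_mul]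
      have := poles_nonneg hF t P
      have := hC0 P
      positivity)
    rw [map_add, map_nsmul, nsmul_eq_mul, deg_poles hF ht, ← hn] at h2
    have h3 : (Module.finrank k W : ℤ) ≤ l * Fintype.card ι + (P + N) + 1 := by
      change (ell (l • poles hF t + C) : ℤ) ≤ _
      linarith
    have h4 : Module.finrank k W ≤ l * Fintype.card ι + (P + N) + 1 := by exact_mod_cast h3
    rw [h1]
    have h5 : (l + 1) * Fintype.card ι = l * Fintype.card ι + Fintype.card ι := by ring
    rw [h5]
    have h6 : 0 < Fintype.card ι := by omega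
    omega
  have hker : LinearMap.ker T ≠ ⊥ := LinearMap.ker_ne_bot_of_finrank_lt hrank
  obtain ⟨⟨x, y⟩, hxy, hxy0⟩ := Submodule.exists_mem_ne_zero_of_ne_bot hker
  rw [LinearMap.mem_ker] at hxy
  have hrel : ∑ i, x i • (t ^ (i : ℕ) * h) = ∑ p, y p • (t ^ (p.1 : ℕ) * u p.2) := by
    have h1 := congrArg (Subtype.val : W → F) hxy
    rw [LinearMap.coprod_apply, LinearMap.neg_apply, ← sub_eq_add_neg] at h1
    simp only [T1, T2, Fintype.linearCombination_apply] at h1
    rw [Submodule.coe_sub, Submodule.coe_sum, Submodule.coe_sum, Submodule.coe_zero,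
      sub_eq_zero] at h1
    exact h1
  have hx0 : x ≠ 0 := by
    rintro rfl
    have h2 := linearIndependent_mul_pow ht (l + 1) u hu
    rw [Fintype.linearIndependent_iff] at h2
    have h3 := h2 y (by rw [← hrel]; simp)
    apply hxy0
    ext i
    · rfl
    · exact h3 i
  refine ⟨∑ i : Fin (l + 1), monomial (i : ℕ) (x i),
    fun j => ∑ i : Fin (l + 1), monomial (i : ℕ) (y (i, j)), ?_, ?_, ?_, ?_⟩
  · intro h0
    apply hx0
    funext i
    have h1 := congrArg (fun q => Polynomial.coeff q (i : ℕ)) h0
    simp only [finsetSum_coeff, coeff_monomial, coeff_zero] at h1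
    rw [Finset.sum_eq_single i] at h1
    · simpa using h1
    · intro j _ hji
      rw [if_neg]
      intro h
      exact hji (Fin.ext h)
    · intro h; exact absurd (Finset.mem_univ _) h
  · apply natDegree_sum_le_of_forall_le
    intro i _
    refine (natDegree_monomial_le _).trans ?_
    have := i.2; omega
  · intro j
    apply natDegree_sum_le_of_forall_le
    intro i _
    refine (natDegree_monomial_le _).trans ?_
    have := i.2; omega
  · rw [map_sum, Finset.sum_mul]
    have e1 : ∀ i : Fin (l + 1), aeval t (monomial (i : ℕ) (x i)) * h = x i • (t ^ (i : ℕ) * h) := by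
      intro i
      rw [aeval_monomial, Algebra.smul_def, mul_assoc]
    rw [Finset.sum_congr rfl (fun i _ => e1 i), hrel, Fintype.sum_prod_type_right]
    apply Finset.sum_congr rfl
    intro j _
    rw [map_sum, Finset.sum_mul]
    apply Finset.sum_congr rfl
    intro i _
    rw [aeval_monomial, Algebra.smul_def, mul_assoc]

end UL
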