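import Mathlib
import Pool.Agent.Helper10.UL.Bound

/-!
# Two bounded representatives of a class modulo `p`-th powers without common bad values
-/

namespace UL

open VC FF WithZero Polynomial IntermediateField

universe u

variable {k F : Type u} [Field k] [IsAlgClosed k] [Field F] [Algebra k F]
  (hF : IsFunctionField k F)

include hF

/-- If the speciality of `X` and `X + H` agree, `L(X + H)` has functions with a pole of maximal
order at each given place. -/
theorem exists_exact {t : F} (ht : Transcendental k t) {X : Place k F →₀ ℤ}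
    (hX : deg X - ell X = deg (X + poles hF t) - ell (X + poles hF t)) (Q : Place k F) :
    ∃ g : F, g ≠ 0 ∧ g ∈ riemannRochSpace k F (X + poles hF t) ∧
      ord Q.ring g = - (X + poles hF t) Q := by
  classical
  have ht0 : t ≠ 0 := by
    rintro rfl
    exact ht isAlgebraic_zero
  set H := poles hF t with hH
  -- it is enough to see that the dimension drops
  have key : ell (X + H - Finsupp.single Q 1) < ell (X + H) → ∃ g : F, g ≠ 0 ∧
      g ∈ riemannRochSpace k F (X + H) ∧ ord Q.ring g = - (X + H) Q := by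
    intro hlt
    have hle : riemannRochSpace k F (X + H - Finsupp.single Q 1) ≤ riemannRochSpace k F (X + H) :=
      rr_mono hF (fun P => by
        rw [Finsupp.sub_apply, Finsupp.single_apply]; split_ifs <;> omega)
    have hne : riemannRochSpace k F (X + H - Finsupp.single Q 1) ≠
        riemannRochSpace k F (X + H) := by
      intro h
      unfold ell at hlt
      rw [h] at hlt
      exact lt_irrefl _ hlt
    obtain ⟨g, hg1, hg2⟩ := SetLike.exists_of_lt (lt_of_le_of_ne hle hne)
    have hg0 : g ≠ 0 := by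
      rintro rfl
      exact hg2 (Submodule.zero_mem _)
    refine ⟨g, hg0, hg1, ?_⟩
    rw [mem_rr hF _ hg0] at hg1 hg2
    push Not at hg2
    obtain ⟨P, hP⟩ := hg2
    have h1 := hg1 P
    rw [Finsupp.sub_apply, Finsupp.single_apply] at hP
    split_ifs at hP with h
    · subst h; omega
    · omega
  apply key
  have hfd := finite_rr hF (X + H)
  by_cases hQ : t ∈ Q.ring
  · -- a finite place
    obtain ⟨a, ha⟩ := exists_residue hF Q hQ
    set w := t - algebraMap k F a with hw
    have hw0 : w ≠ 0 := by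
      intro h
      rw [hw, sub_eq_zero] at h
      exact ht (h ▸ isAlgebraic_algebraMap a)
    have hwQ : 0 < ord Q.ring w := (ord_pos_iff hF Q hw0).mpr ha
    -- the pole divisor of `w` is `H`
    have hpole : ∀ P : Place k F, 0 ≤ ord P.ring w + H P := by
      intro P
      have h1 : t ∈ riemannRochSpace k F H := mem_rr_poles hF t
      have h2 : algebraMap k F a ∈ riemannRochSpace k F H := by
        rcases eq_or_ne a 0 with rfl | ha0
        · rw [map_zero]; exact Submodule.zero_mem _
        · rw [mem_rr hF _ ((_root_.map_ne_zero _).mpr ha0)]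
          intro P
          rw [ord_algebraMap hF P ha0]
          have := poles_nonneg hF t P
          rw [← hH] at this
          omega
      have h3 : w ∈ riemannRochSpace k F H := Submodule.sub_mem _ h1 h2
      exact (mem_rr hF _ hw0).mp h3 P
    -- compare with `X + H + div w`
    have h1 : ∀ P, X P ≤ (X + H + dv hF w - Finsupp.single Q (1 : ℤ) : Place k F →₀ ℤ) P := by
      intro P
      rw [Finsupp.sub_apply, Finsupp.add_apply, Finsupp.add_apply, dv_apply, Finsupp.single_apply]
      split_ifs with h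
      · subst h
        have := poles_nonneg hF t Q
        rw [← hH] at this
        omega
      · have := hpole P
        omega
    have h2 := ell_le_add hF h1
    have e : X + H + dv hF w - Finsupp.single Q 1 = X + H - Finsupp.single Q 1 + dv hF w := by
      abel
    rw [e, ell_add_dv hF _ hw0, map_add, deg_dv hF hw0, map_sub, deg_single] at h2
    have h3 : (ell (X + H - Finsupp.single Q 1) : ℤ) < ell (X + H) := by
      linarith
    exact_mod_cast h3
  · have hQ' : 1 ≤ H Q := by
      rw [hH, poles_apply]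
      have h := mt (ord_nonneg_iff hF Q ht0).mp hQ
      have := le_max_left (- ord Q.ring t) 0
      omega
    have h1 : ∀ P, X P ≤ (X + H - Finsupp.single Q (1 : ℤ) : Place k F →₀ ℤ) P := by
      intro P
      rw [Finsupp.sub_apply, Finsupp.add_apply, Finsupp.single_apply]
      split_ifs with h
      · subst h; omega
      · have := poles_nonneg hF t P
        rw [← hH] at this
        omega
    have h2 := ell_le_add hF h1
    rw [map_sub, deg_single] at h2
    have h3 : (ell (X + H - Finsupp.single Q 1) : ℤ) < ell (X + H) := by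
      linarith
    exact_mod_cast h3

/-- Functions with poles of maximal order at finitely many given places. -/
theorem exists_exact_finset {Y : Place k F →₀ ℤ}
    (hY : ∀ Q : Place k F, ∃ g : F, g ≠ 0 ∧ g ∈ riemannRochSpace k F Y ∧ ord Q.ring g = - Y Q)
    (T : Finset (Place k F)) :
    ∃ g : F, g ≠ 0 ∧ g ∈ riemannRochSpace k F Y ∧ ∀ Q ∈ T, ord Q.ring g = - Y Q := by
  classical
  let W := riemannRochSpace k F Y
  let sub : Place k F → Submodule k W := fun Q =>
    (riemannRochSpace k F (Y - Finsupp.single Q 1)).comap W.subtype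
  have hsub : ∀ Q, sub Q ≠ ⊤ := by
    intro Q h
    obtain ⟨g, hg0, hg1, hg2⟩ := hY Q
    have h1 : (⟨g, hg1⟩ : W) ∈ sub Q := by rw [h]; trivial
    have h2 : g ∈ riemannRochSpace k F (Y - Finsupp.single Q 1) := h1
    rw [mem_rr hF _ hg0] at h2
    have h3 := h2 Q
    rw [Finsupp.sub_apply, Finsupp.single_eq_same] at h3
    omega
  have hinf : Infinite k := inferInstance
  -- an auxiliary place, to have a nonzero function
  obtain ⟨t, ht, -⟩ := id hF
  obtain ⟨Q0, -⟩ := exists_place ht
  have h1 := Subspace.biUnion_ne_univ_of_top_notMem (k := k) (E := W)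
    (s := (insert Q0 T).image sub) (by
      intro h
      rw [Finset.mem_image] at h
      obtain ⟨Q, -, hQ⟩ := h
      exact hsub Q hQ)
  rw [Set.ne_univ_iff_exists_notMem] at h1
  obtain ⟨g, hg⟩ := h1
  have hg' : ∀ Q ∈ insert Q0 T, g ∉ sub Q := by
    intro Q hQ hmem
    apply hg
    rw [Set.mem_iUnion₂]
    exact ⟨sub Q, Finset.mem_image_of_mem _ hQ, hmem⟩
  have hg0 : (g : F) ≠ 0 := by
    intro h0
    apply hg' Q0 (Finset.mem_insert_self _ _)
    have : g = 0 := Subtype.ext h0
    rw [this]
    exact Submodule.zero_mem _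
  refine ⟨g, hg0, g.2, ?_⟩
  intro Q hQ
  have h2 := hg' Q (Finset.mem_insert_of_mem hQ)
  have h3 : (g : F) ∉ riemannRochSpace k F (Y - Finsupp.single Q 1) := h2
  have h4 := (mem_rr hF _ hg0).mp g.2
  rw [mem_rr hF _ hg0] at h3
  push Not at h3
  obtain ⟨P, hP⟩ := h3
  have h5 := h4 P
  rw [Finsupp.sub_apply, Finsupp.single_apply] at hP
  split_ifs at hP with h
  · subst h; omega
  · omega

omit hF [IsAlgClosed k] in
/-- monotone bounded sequences of integers are stationary somewhere -/
lemma exists_stationary (f : ℕ → ℤ) (hf : ∀ c, f c ≤ f (c + 1)) (A B : ℤ) (hA : A ≤ f 0)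
    (hB : ∀ c, f c ≤ B) (c₁ : ℕ) : ∃ c, c₁ ≤ c ∧ (c : ℤ) ≤ c₁ + (B - A) + 1 ∧ f c = f (c + 1) := by
  by_contra hcon
  push Not at hcon
  have hmono : Monotone f := monotone_nat_of_le_succ hf
  have h1 : ∀ i : ℕ, (i : ℤ) ≤ (B - A) + 2 → f c₁ + i ≤ f (c₁ + i) := by
    intro i
    induction i with
    | zero => intro _; simp
    | succ i ih =>
      intro hi
      have h2 := ih (by push_cast at hi; omega)
      have h3 := hcon (c₁ + i) (by omega) (by push_cast at hi ⊢; omega)
      have h4 := hf (c₁ + i)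
      have h5 : f (c₁ + i) < f (c₁ + i + 1) := lt_of_le_of_ne h4 h3
      rw [← add_assoc]
      push_cast
      omega
  have hBA : A ≤ B := hA.trans (hB 0)
  have h2 := h1 ((B - A) + 2).toNat (by rw [Int.toNat_of_nonneg (by omega)])
  have h3 := hB (c₁ + ((B - A) + 2).toNat)
  have h4 : f 0 ≤ f c₁ := hmono (Nat.zero_le _)
  rw [Int.toNat_of_nonneg (by omega)] at h2
  omega

/-- the places above a value of `t` -/
lemma finite_above {t : F} (ht : Transcendental k t) (a : k) :
    {Q : Place k F | t - algebraMap k F a ∈ Q.ring.nonunits}.Finite := by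
  apply finite_zeros hF
  intro h
  apply ht
  have : t = (t - algebraMap k F a) + algebraMap k F a := by ring
  rw [this]
  exact h.add (isAlgebraic_algebraMap a)

/-- the number of places above a value of `t` -/
lemma card_above {t : F} (ht : Transcendental k t) (a : k) (T : Finset (Place k F))
    (hT : ∀ Q ∈ T, t - algebraMap k F a ∈ Q.ring.nonunits) :
    T.card ≤ Module.finrank k⟮t⟯ F := by
  have ht' : Transcendental k (t - algebraMap k F a) := by
    intro h
    apply ht
    have : t = (t - algebraMap k F a) + algebraMap k F a := by ring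
    rw [this]
    exact h.add (isAlgebraic_algebraMap a)
  have hw0 : t - algebraMap k F a ≠ 0 := by
    intro h
    rw [h] at ht'
    exact ht' isAlgebraic_zero
  have hadj : k⟮t - algebraMap k F a⟯ = k⟮t⟯ := by
    apply le_antisymm
    · rw [IntermediateField.adjoin_simple_le_iff]
      exact sub_mem (IntermediateField.mem_adjoin_simple_self k t) (_root_.algebraMap_mem _ a)
    · rw [IntermediateField.adjoin_simple_le_iff]
      have h := add_mem (IntermediateField.mem_adjoin_simple_self k (t - algebraMap k F a))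
        (_root_.algebraMap_mem k⟮t - algebraMap k F a⟯ a)
      rwa [sub_add_cancel] at h
  have h1 := sum_ord_le hF ht' T hT
  rw [hadj] at h1
  have h2 : (T.card : ℤ) ≤ ∑ P ∈ T, ord P.ring (t - algebraMap k F a) := by
    rw [Finset.card_eq_sum_ones]
    push_cast
    apply Finset.sum_le_sum
    intro P hP
    exact (ord_pos_iff hF P hw0).mpr (hT P hP)
  exact_mod_cast h2.trans h1

/-- the number of poles of `t` -/
lemma card_infty {t : F} (ht : Transcendental k t) (T : Finset (Place k F))
    (hT : ∀ Q ∈ T, t ∉ Q.ring) : T.card ≤ Module.finrank k⟮t⟯ F := by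
  have ht0 : t ≠ 0 := by
    rintro rfl
    exact ht isAlgebraic_zero
  have h1 := sum_ord_le hF (transcendental_inv' ht) T (fun Q hQ => by
    rw [ValuationSubring.mem_nonunits_iff_or, inv_inv]
    exact Or.inr (hT Q hQ))
  rw [adjoin_inv] at h1
  have h2 : (T.card : ℤ) ≤ ∑ P ∈ T, ord P.ring t⁻¹ := by
    rw [Finset.card_eq_sum_ones]
    push_cast
    apply Finset.sum_le_sum
    intro P hP
    have h3 := mt (ord_nonneg_iff hF P ht0).mp (hT P hP)
    rw [ord_inv hF P ht0]
    omega
  exact_mod_cast h2.trans h1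

/-- the poles of `t` are finite in number -/
lemma finite_infty {t : F} (ht : Transcendental k t) : {Q : Place k F | t ∉ Q.ring}.Finite := by
  refine (finite_zeros hF (transcendental_inv' ht)).subset ?_
  intro Q hQ
  change t⁻¹ ∈ Q.ring.nonunits
  rw [ValuationSubring.mem_nonunits_iff_or, inv_inv]
  exact Or.inr hQ

lemma ell_le_deg' {D : Place k F →₀ ℤ} (hD : ell D ≠ 0) : (ell D : ℤ) ≤ deg D + 1 := by
  have hfd := finite_rr hF D
  have hne : riemannRochSpace k F D ≠ ⊥ := by
    intro h
    apply hD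
    unfold ell
    rw [h, finrank_bot]
  obtain ⟨z, hz, hz0⟩ := Submodule.exists_mem_ne_zero_of_ne_bot hne
  rw [mem_rr hF _ hz0] at hz
  have h1 := ell_le_deg hF (D := D + dv hF z) (fun P => by
    rw [Finsupp.add_apply, dv_apply]; have := hz P; omega)
  rwa [ell_add_dv hF D hz0, map_add, deg_dv hF hz0, add_zero] at h1

omit hF in
/-- the integral part of the divisor of `δ` divided by `p` -/
noncomputable def fl (hF : IsFunctionField k F) (p : ℕ) (δ : F) : Place k F →₀ ℤ :=
  Finsupp.mapRange (fun n : ℤ => n / p) (Int.zero_ediv _) (dv hF δ)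

omit hF in
lemma fl_apply (hF : IsFunctionField k F) (p : ℕ) (δ : F) (Q : Place k F) :
    fl hF p δ Q = ord Q.ring δ / p := by
  unfold fl
  rw [Finsupp.mapRange_apply, dv_apply]

lemma mul_fl_le {p : ℕ} (hp : 0 < p) (δ : F) (Q : Place k F) :
    (p : ℤ) * fl hF p δ Q ≤ ord Q.ring δ := by
  rw [fl_apply]
  exact Int.mul_ediv_self_le (by exact_mod_cast hp.ne')

lemma lt_mul_fl {p : ℕ} (hp : 0 < p) (δ : F) (Q : Place k F) :
    ord Q.ring δ < (p : ℤ) * fl hF p δ Q + p := by
  rw [fl_apply]
  have h0 : (0 : ℤ) < p := by exact_mod_cast hp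
  have h1 := Int.emod_lt_of_pos (ord Q.ring δ) h0
  have h2 := Int.emod_add_mul_ediv (ord Q.ring δ) p
  omega

lemma mul_fl_eq {p : ℕ} {δ : F} {Q : Place k F} (h : (p : ℤ) ∣ ord Q.ring δ) :
    (p : ℤ) * fl hF p δ Q = ord Q.ring δ := by
  rw [fl_apply]
  exact Int.mul_ediv_cancel' h

/-- the number of bad places -/
lemma deg_fl_ge {t : F} (ht : Transcendental k t) {p : ℕ} (hp : 0 < p) (S : Finset k) {δ : F}
    (hδ : δ ≠ 0)
    (hdiv : ∀ a ∉ S, ∀ Q : Place k F, t - algebraMap k F a ∈ Q.ring.nonunits →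
      (p : ℤ) ∣ ord Q.ring δ) :
    - ((Module.finrank k⟮t⟯ F * (S.card + 1) : ℕ) : ℤ) ≤ deg (fl hF p δ) := by
  classical
  set n := Module.finrank k⟮t⟯ F with hn
  let B0 : Finset (Place k F) := (finite_infty hF ht).toFinset
  let B1 : k → Finset (Place k F) := fun a => (finite_above hF ht a).toFinset
  let B : Finset (Place k F) := B0 ∪ S.biUnion B1
  have hB0 : B0.card ≤ n := card_infty hF ht B0 (fun Q hQ => by
    have := (Set.Finite.mem_toFinset _).mp hQ
    exact this)
  have hB1 : ∀ a, (B1 a).card ≤ n := fun a => card_above hF ht a (B1 a) (fun Q hQ => by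
    have := (Set.Finite.mem_toFinset _).mp hQ
    exact this)
  have hB : B.card ≤ n * (S.card + 1) := by
    refine (Finset.card_union_le _ _).trans ?_
    have h1 : (S.biUnion B1).card ≤ S.card * n :=
      Finset.card_biUnion_le_card_mul S B1 n (fun a _ => hB1 a)
    calc B0.card + (S.biUnion B1).card ≤ n + S.card * n := Nat.add_le_add hB0 h1
      _ = n * (S.card + 1) := by ring
  have hp' : (0 : ℤ) < p := by exact_mod_cast hp
  have h1 : ∀ Q, (dv hF δ) Q ≤ (p • fl hF p δ + p • ∑ P ∈ B, Finsupp.single P (1 : ℤ)) Q := by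
    intro Q
    rw [Finsupp.add_apply, Finsupp.smul_apply, Finsupp.smul_apply, Finsupp.finsetSum_apply,
      nsmul_eq_mul, nsmul_eq_mul, dv_apply]
    by_cases hQ : Q ∈ B
    · have h2 := lt_mul_fl hF hp δ Q
      have h3 : (1 : ℤ) ≤ ∑ P ∈ B, (Finsupp.single P (1 : ℤ)) Q := by
        have h4 := Finset.single_le_sum (f := fun P => (Finsupp.single P (1 : ℤ)) Q)
          (fun P _ => by
            rw [Finsupp.single_apply]; split_ifs <;> norm_num) hQ
        rw [Finsupp.single_eq_same] at h4
        exact h4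
      nlinarith
    · have h3 : (0 : ℤ) ≤ ∑ P ∈ B, (Finsupp.single P (1 : ℤ)) Q :=
        Finset.sum_nonneg fun P _ => by
          rw [Finsupp.single_apply]; split_ifs <;> norm_num
      have htQ : t ∈ Q.ring := by
        by_contra h
        exact hQ (Finset.mem_union_left _ ((Set.Finite.mem_toFinset _).mpr h))
      obtain ⟨a, ha⟩ := exists_residue hF Q htQ
      have haS : a ∉ S := by
        intro haS
        apply hQ
        apply Finset.mem_union_right
        rw [Finset.mem_biUnion]
        exact ⟨a, haS, (Set.Finite.mem_toFinset _).mpr ha⟩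
      have h4 := mul_fl_eq hF (hdiv a haS Q ha)
      have h5 : (0 : ℤ) ≤ p * ∑ P ∈ B, (Finsupp.single P (1 : ℤ)) Q := mul_nonneg hp'.le h3
      linarith
  have h2 := deg_mono h1
  rw [deg_dv hF hδ, map_add, map_nsmul, map_nsmul, map_sum] at h2
  simp only [deg_single, Finset.sum_const, nsmul_eq_mul, mul_one] at h2
  have h3 : (0 : ℤ) ≤ p * (deg (fl hF p δ) + B.card) := by linarith
  have h4 : (0 : ℤ) ≤ deg (fl hF p δ) + B.card := nonneg_of_mul_nonneg_right h3 hp'
  have h5 : (B.card : ℤ) ≤ ((n * (S.card + 1) : ℕ) : ℤ) := by exact_mod_cast hB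
  linarith

/-- **Bounded representatives.** Given a function `δ` whose divisor is divisible by `p` away from
the values `S` of `t` and from the poles of `t`, the class of `δ` modulo `p`-th powers has two
representatives of bounded degree, regular away from the poles of `t`, without common bad values
outside `S`. -/
theorem exists_pair {t : F} (ht : Transcendental k t) {γ : ℕ}
    (hγ : ∀ D : Place k F →₀ ℤ, deg D - ell D ≤ γ)
    {p : ℕ} (hp : 0 < p) (S : Finset k) {δ : F} (hδ : δ ≠ 0)
    (hdiv : ∀ a ∉ S, ∀ Q : Place k F, t - algebraMap k F a ∈ Q.ring.nonunits →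
      (p : ℤ) ∣ ord Q.ring δ) {N : ℕ}
    (hN : Module.finrank k⟮t⟯ F * (γ + Module.finrank k⟮t⟯ F * (S.card + 1) + 3) ≤ N) :
    ∃ g₁ g₂ : F, g₁ ≠ 0 ∧ g₂ ≠ 0 ∧
      (∀ Q : Place k F, t ∈ Q.ring → 0 ≤ ord Q.ring (δ * g₁ ^ p)) ∧
      (∀ Q : Place k F, t ∈ Q.ring → 0 ≤ ord Q.ring (δ * g₂ ^ p)) ∧
      deg (poles hF (δ * g₁ ^ p)) ≤ p * N ∧ deg (poles hF (δ * g₂ ^ p)) ≤ p * N ∧
      deg (poles hF (g₂ / g₁)) ≤ N ∧
      ∀ a ∉ S,
        (∀ Q : Place k F, t - algebraMap k F a ∈ Q.ring.nonunits → ord Q.ring (δ * g₁ ^ p) = 0) ∨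
        (∀ Q : Place k F, t - algebraMap k F a ∈ Q.ring.nonunits →
          ord Q.ring (δ * g₂ ^ p) = 0) := by
  classical
  have ht0 : t ≠ 0 := by
    rintro rfl
    exact ht isAlgebraic_zero
  have hp' : (0 : ℤ) < p := by exact_mod_cast hp
  have hfin := hF.finiteDimensional ht
  set n := Module.finrank k⟮t⟯ F with hn
  have hnpos : 0 < n := Module.finrank_pos
  set Y := fl hF p δ with hY
  set H := poles hF t with hH
  have hdegH : deg H = n := deg_poles hF ht
  have hY1 : - ((n * (S.card + 1) : ℕ) : ℤ) ≤ deg Y := deg_fl_ge hF ht hp S hδ hdiv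
  have hY2 : deg Y ≤ 0 := by
    have h1 := deg_mono (D := p • Y) (E := dv hF δ) (fun Q => by
      rw [Finsupp.smul_apply, nsmul_eq_mul, dv_apply]
      exact mul_fl_le hF hp δ Q)
    rw [deg_dv hF hδ, map_nsmul, nsmul_eq_mul] at h1
    by_contra hcon
    push Not at hcon
    have : 0 < (p : ℤ) * deg Y := mul_pos hp' hcon
    linarith
  have hH0 : ∀ P, 0 ≤ H P := poles_nonneg hF t
  -- the stationary place
  let f : ℕ → ℤ := fun c => deg (Y + c • H) - ell (Y + c • H)
  have hf : ∀ c, f c ≤ f (c + 1) := by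
    intro c
    have h1 := ell_le_add hF (D := Y + c • H) (E := Y + (c + 1) • H) (fun P => by
      rw [Finsupp.add_apply, Finsupp.add_apply, Finsupp.smul_apply, Finsupp.smul_apply,
        nsmul_eq_mul, nsmul_eq_mul]
      have := hH0 P
      push_cast
      linarith)
    change deg (Y + c • H) - ell (Y + c • H) ≤ deg (Y + (c + 1) • H) - ell (Y + (c + 1) • H)
    linarith
  have hf0 : - ((n * (S.card + 1) : ℕ) : ℤ) - 1 ≤ f 0 := by
    change _ ≤ deg (Y + 0 • H) - ell (Y + 0 • H)
    rw [zero_smul, add_zero]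
    by_cases h0 : ell Y = 0
    · rw [h0]; push_cast at hY1 ⊢; linarith
    · have := ell_le_deg' hF h0
      have h2 : (0 : ℤ) ≤ ((n * (S.card + 1) : ℕ) : ℤ) := by positivity
      linarith
  obtain ⟨c, -, hc1, hc2⟩ := exists_stationary f hf _ (γ : ℤ) hf0 (fun c => hγ _) 0
  set X := Y + (c + 1) • H with hX
  have hXH : Y + c • H + H = X := by rw [hX, add_smul, one_smul, add_assoc]
  have hexact : ∀ Q : Place k F, ∃ g : F, g ≠ 0 ∧ g ∈ riemannRochSpace k F X ∧
      ord Q.ring g = - X Q := by
    intro Q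
    have := exists_exact hF ht (X := Y + c • H) (by
      rw [← hH, hXH]
      exact hc2) Q
    rwa [← hH, hXH] at this
  have hcN : (n : ℤ) * (c + 1) ≤ N := by
    have h1 : ((n * (γ + n * (S.card + 1) + 3) : ℕ) : ℤ) ≤ N := by exact_mod_cast hN
    push_cast at h1 hc1 ⊢
    have h2 : (c : ℤ) + 1 ≤ γ + n * (S.card + 1) + 3 := by linarith
    have h3 : (0 : ℤ) ≤ n := by positivity
    nlinarith
  have hdegX : deg X ≤ N := by
    rw [hX, map_add, map_nsmul, nsmul_eq_mul, hdegH]
    push_cast
    linarith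
  -- properties of `δ g ^ p`
  have hreg : ∀ g : F, g ≠ 0 → g ∈ riemannRochSpace k F X → ∀ Q : Place k F, t ∈ Q.ring →
      0 ≤ ord Q.ring (δ * g ^ p) := by
    intro g hg0 hg Q hQ
    rw [ord_mul hF Q hδ (pow_ne_zero _ hg0), ord_pow hF Q hg0]
    have h1 := (mem_rr hF _ hg0).mp hg Q
    have h2 : H Q = 0 := by
      rw [hH, poles_apply]
      have := (ord_nonneg_iff hF Q ht0).mpr hQ
      exact max_eq_right (by omega)
    rw [hX, Finsupp.add_apply, Finsupp.smul_apply, h2, smul_zero, add_zero] at h1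
    have h3 := mul_fl_le hF hp δ Q
    rw [← hY] at h3
    have h4 : (p : ℤ) * (- Y Q) ≤ p * ord Q.ring g := mul_le_mul_of_nonneg_left (by linarith) hp'.le
    linarith
  have hdegA : ∀ g : F, g ≠ 0 → g ∈ riemannRochSpace k F X →
      deg (poles hF (δ * g ^ p)) ≤ p * N := by
    intro g hg0 hg
    have h1 : ∀ Q, poles hF (δ * g ^ p) Q ≤ ((p * (c + 1)) • H) Q := by
      intro Q
      rw [poles_apply, ord_mul hF Q hδ (pow_ne_zero _ hg0), ord_pow hF Q hg0, Finsupp.smul_apply,
        nsmul_eq_mul]
      have h2 := (mem_rr hF _ hg0).mp hg Q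
      rw [hX, Finsupp.add_apply, Finsupp.smul_apply, nsmul_eq_mul] at h2
      have h3 := mul_fl_le hF hp δ Q
      rw [← hY] at h3
      have h4 := hH0 Q
      apply max_le
      · have h5 : (p : ℤ) * (- (Y Q + ((c + 1 : ℕ) : ℤ) * H Q)) ≤ p * ord Q.ring g :=
          mul_le_mul_of_nonneg_left (by linarith) hp'.le
        push_cast at h5 ⊢
        nlinarith
      · positivity
    have h2 := deg_mono h1
    rw [map_nsmul, nsmul_eq_mul, hdegH] at h2
    push_cast at h2
    have h3 : (p : ℤ) * (c + 1) * n ≤ p * N := by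
      have := mul_le_mul_of_nonneg_left hcN hp'.le
      linarith
    linarith
  obtain ⟨g₁, hg₁0, hg₁, -⟩ := exists_exact_finset hF hexact ∅
  -- the places to avoid
  have hfinT : {Q : Place k F | ∃ Q' : Place k F, ord Q'.ring (δ * g₁ ^ p) ≠ 0 ∧ ∃ a : k,
      t - algebraMap k F a ∈ Q'.ring.nonunits ∧ t - algebraMap k F a ∈ Q.ring.nonunits}.Finite := by
    have h1 := finite_support_ord hF (mul_ne_zero hδ (pow_ne_zero p hg₁0))
    have h2 : {Q : Place k F | ∃ Q' : Place k F, ord Q'.ring (δ * g₁ ^ p) ≠ 0 ∧ ∃ a : k,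
        t - algebraMap k F a ∈ Q'.ring.nonunits ∧ t - algebraMap k F a ∈ Q.ring.nonunits} ⊆
        ⋃ Q' ∈ {P : Place k F | ord P.ring (δ * g₁ ^ p) ≠ 0}, {Q : Place k F | ∃ a : k,
        t - algebraMap k F a ∈ Q'.ring.nonunits ∧ t - algebraMap k F a ∈ Q.ring.nonunits} := by
      rintro Q ⟨Q', h3, h4⟩
      exact Set.mem_biUnion h3 h4
    refine (h1.biUnion (fun Q' _ => ?_)).subset h2
    by_cases h3 : ∃ a : k, t - algebraMap k F a ∈ Q'.ring.nonunits
    · obtain ⟨a, ha⟩ := h3
      refine (finite_above hF ht a).subset ?_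
      rintro Q ⟨b, hb, hb'⟩
      have hab : a = b := by
        have h4 := residue_unique Q' ha hb
        exact h4
      rw [hab]
      exact hb'
    · convert Set.finite_empty
      ext Q
      simp only [Set.mem_ofPred_eq, Set.mem_empty_iff_false, iff_false]
      rintro ⟨a, ha, -⟩
      exact h3 ⟨a, ha⟩
  obtain ⟨g₂, hg₂0, hg₂, hg₂T⟩ := exists_exact_finset hF hexact hfinT.toFinset
  refine ⟨g₁, g₂, hg₁0, hg₂0, hreg g₁ hg₁0 hg₁, hreg g₂ hg₂0 hg₂, hdegA g₁ hg₁0 hg₁,
    hdegA g₂ hg₂0 hg₂, ?_, ?_⟩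
  · have h1 : ∀ Q, poles hF (g₂ / g₁) Q ≤ (X + dv hF g₁) Q := by
      intro Q
      rw [poles_apply, ord_div hF Q hg₂0 hg₁0, Finsupp.add_apply, dv_apply]
      have h2 := (mem_rr hF _ hg₂0).mp hg₂ Q
      have h3 := (mem_rr hF _ hg₁0).mp hg₁ Q
      apply max_le <;> omega
    have h2 := deg_mono h1
    rw [map_add, deg_dv hF hg₁0, add_zero] at h2
    linarith
  · intro a haS
    by_cases h1 : ∀ Q : Place k F, t - algebraMap k F a ∈ Q.ring.nonunits →
        ord Q.ring (δ * g₁ ^ p) = 0
    · exact Or.inl h1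
    · right
      push Not at h1
      obtain ⟨Q', hQ'1, hQ'2⟩ := h1
      intro Q hQ
      have hQT : Q ∈ hfinT.toFinset := by
        rw [Set.Finite.mem_toFinset]
        exact ⟨Q', hQ'2, a, hQ'1, hQ⟩
      have h2 := hg₂T Q hQT
      have htQ : t ∈ Q.ring := by
        have h3 : t - algebraMap k F a ∈ Q.ring := Q.ring.nonunits_le hQ
        have h4 := Q.ring.add_mem _ _ h3 (Q.algebraMap_mem a)
        rwa [sub_add_cancel] at h4
      have h3 : H Q = 0 := by
        rw [hH, poles_apply]
        have := (ord_nonneg_iff hF Q ht0).mpr htQ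
        exact max_eq_right (by omega)
      rw [hX, Finsupp.add_apply, Finsupp.smul_apply, h3, smul_zero, add_zero] at h2
      rw [ord_mul hF Q hδ (pow_ne_zero _ hg₂0), ord_pow hF Q hg₂0, h2, ← mul_fl_eq hF (hdiv a haS Q hQ)]
      ring

end UL
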