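import Mathlib
import Pool.Agent.Helper10.UL.Pair

/-!
# Poles of roots of polynomials with coefficients in `k[t]`, and spanning families
-/

namespace UL

open VC FF WithZero Polynomial IntermediateField

universe u

variable {k F : Type u} [Field k] [IsAlgClosed k] [Field F] [Algebra k F]
  (hF : IsFunctionField k F)

include hF

lemma aeval_mem_rr {t : F} (ht0 : t ≠ 0) {a : k[X]} {m : ℕ} (ha : a.natDegree ≤ m) :
    aeval t a ∈ riemannRochSpace k F (m • poles hF t) := by
  rw [aeval_eq_sum_range' (n := m + 1) (by omega)]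
  apply Submodule.sum_mem
  intro i hi
  apply Submodule.smul_mem
  have h1 := pow_mul_mem hF ht0 (v := 1) (C := 0) (fun P => by simp) (fun P => by
    rw [ord_one hF P]; simp) (i := i) (l := m) (by rw [Finset.mem_range] at hi; omega)
  rwa [mul_one, add_zero] at h1

lemma neg_ord_le {t : F} (ht0 : t ≠ 0) {a : k[X]} {m : ℕ} (ha : a.natDegree ≤ m)
    (Q : Place k F) : - ord Q.ring (aeval t a) ≤ m * poles hF t Q := by
  rcases eq_or_ne (aeval t a) 0 with h0 | h0
  · rw [h0, ord_zero, neg_zero]
    have := poles_nonneg hF t Q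
    positivity
  · have h1 := (mem_rr hF _ h0).mp (aeval_mem_rr hF ht0 ha) Q
    rw [Finsupp.smul_apply, nsmul_eq_mul] at h1
    linarith

lemma val_aeval_le {t : F} (ht0 : t ≠ 0) {a : k[X]} {m : ℕ} (ha : a.natDegree ≤ m)
    (Q : Place k F) : val hF Q (aeval t a) ≤ exp (m * poles hF t Q) := by
  rcases eq_or_ne (aeval t a) 0 with h0 | h0
  · rw [h0, map_zero]; exact zero_le
  · rw [val_eq_exp hF Q h0, exp_le_exp]
    exact neg_ord_le hF ht0 ha Q

/-- the leading coefficient times a root is integral over `k[t]`, with few poles at infinity -/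
lemma val_lead_mul_root_le {t : F} (ht0 : t ≠ 0) {d m : ℕ} (a : ℕ → k[X])
    (ha : ∀ i ≤ d, (a i).natDegree ≤ m) {e : F}
    (he : ∑ i ∈ Finset.range (d + 1), aeval t (a i) * e ^ i = 0) (Q : Place k F) :
    val hF Q (aeval t (a d) * e) ≤ exp (m * poles hF t Q) := by
  set v := val hF Q with hv
  set A := aeval t (a d) * e with hA
  set c : WithZero (Multiplicative ℤ) := exp (m * poles hF t Q) with hc
  by_contra hcon
  push Not at hcon
  have hc0 : c ≠ 0 := exp_ne_zero
  have hvA0 : v A ≠ 0 := by
    intro h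
    rw [h] at hcon
    exact absurd hcon (not_lt.mpr zero_le)
  have hd0 : d ≠ 0 := by
    rintro rfl
    rw [Finset.sum_range_one, pow_zero, mul_one] at he
    apply hvA0
    rw [hA, he, zero_mul, map_zero]
  -- the integral equation
  have hrel : A ^ d = - ∑ i ∈ Finset.range d, aeval t (a i) * aeval t (a d) ^ (d - 1 - i) * A ^ i := by
    rw [Finset.sum_range_succ] at he
    have h1 : aeval t (a d) ^ (d - 1) * (∑ i ∈ Finset.range d, aeval t (a i) * e ^ i +
        aeval t (a d) * e ^ d) = 0 := by rw [he, mul_zero]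
    rw [mul_add, Finset.mul_sum] at h1
    have h2 : aeval t (a d) ^ (d - 1) * (aeval t (a d) * e ^ d) = A ^ d := by
      rw [hA, mul_pow, ← mul_assoc, ← pow_succ]
      congr 2
      omega
    rw [h2] at h1
    rw [eq_neg_iff_add_eq_zero, add_comm, ← h1]
    congr 1
    apply Finset.sum_congr rfl
    intro i hi
    rw [Finset.mem_range] at hi
    rw [hA, mul_pow]
    have h3 : aeval t (a d) ^ (d - 1) = aeval t (a d) ^ (d - 1 - i) * aeval t (a d) ^ i := by
      rw [← pow_add]
      congr 1
      omega
    rw [h3]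
    ring
  have hlt : v (A ^ d) < v A ^ d := by
    rw [hrel, Valuation.map_neg]
    apply Valuation.map_sum_lt v (pow_ne_zero _ hvA0)
    intro i hi
    rw [Finset.mem_range] at hi
    rw [map_mul, map_mul, map_pow, map_pow]
    have h1 : v (aeval t (a i)) ≤ c := val_aeval_le hF ht0 (ha i hi.le) Q
    have h2 : v (aeval t (a d)) ≤ c := val_aeval_le hF ht0 (ha d le_rfl) Q
    calc v (aeval t (a i)) * v (aeval t (a d)) ^ (d - 1 - i) * v A ^ i
        ≤ c * c ^ (d - 1 - i) * v A ^ i := by gcongr
      _ = c ^ (d - i) * v A ^ i := by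
          rw [← pow_succ']
          congr 2
          omega
      _ < v A ^ (d - i) * v A ^ i := by
          have h3 : c ^ (d - i) < v A ^ (d - i) := pow_lt_pow_left₀ hcon zero_le (by omega)
          exact mul_lt_mul_of_pos_right h3 (zero_lt_iff.mpr (pow_ne_zero _ hvA0))
      _ = v A ^ d := by
          rw [← pow_add]
          congr 1
          omega
  rw [map_pow] at hlt
  exact lt_irrefl _ hlt

/-- A root of a polynomial of degree at most `m` in `t` has at most `m [F : k(t)]` poles. -/
theorem deg_poles_root {t : F} (ht : Transcendental k t) {d m : ℕ} (a : ℕ → k[X])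
    (ha : ∀ i ≤ d, (a i).natDegree ≤ m) (had : a d ≠ 0) {e : F}
    (he : ∑ i ∈ Finset.range (d + 1), aeval t (a i) * e ^ i = 0) :
    deg (poles hF e) ≤ m * Module.finrank k⟮t⟯ F := by
  have ht0 : t ≠ 0 := by
    rintro rfl
    exact ht isAlgebraic_zero
  set w := aeval t (a d) with hw
  have hw0 : w ≠ 0 := by
    intro h
    exact had ((transcendental_iff.mp ht) _ h)
  have h1 : ∀ Q, poles hF e Q ≤ (m • poles hF t + dv hF w) Q := by
    intro Q
    rw [Finsupp.add_apply, Finsupp.smul_apply, nsmul_eq_mul, dv_apply, poles_apply hF e]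
    have h2 := neg_ord_le hF ht0 (ha d le_rfl) Q
    rw [← hw] at h2
    apply max_le
    · rcases eq_or_ne e 0 with h0 | h0
      · rw [h0, ord_zero]
        linarith
      · have h3 := val_lead_mul_root_le hF ht0 a ha he Q
        rw [val_eq_exp hF Q (mul_ne_zero hw0 h0), exp_le_exp, ord_mul hF Q hw0 h0] at h3
        linarith
    · linarith
  have h2 := deg_mono h1
  rwa [map_add, map_nsmul, deg_dv hF hw0, add_zero, nsmul_eq_mul, deg_poles hF ht] at h2

lemma deg_poles_mul_le {f g : F} : deg (poles hF (f * g)) ≤ deg (poles hF f) + deg (poles hF g) := by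
  rw [← map_add]
  apply deg_mono
  intro Q
  rw [Finsupp.add_apply, poles_apply, poles_apply, poles_apply]
  rcases eq_or_ne f 0 with hf | hf
  · rw [hf, zero_mul, ord_zero]
    have := le_max_right (- ord Q.ring g) 0
    simp
  rcases eq_or_ne g 0 with hg | hg
  · rw [hg, mul_zero, ord_zero]
    simp
  rw [ord_mul hF Q hf hg]
  have h1 := le_max_left (- ord Q.ring f) 0
  have h2 := le_max_right (- ord Q.ring f) 0
  have h3 := le_max_left (- ord Q.ring g) 0
  have h4 := le_max_right (- ord Q.ring g) 0
  apply max_le <;> linarith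

lemma deg_poles_one : deg (poles hF (1 : F)) = 0 := by
  have : poles hF (1 : F) = 0 := by
    ext Q
    rw [poles_apply, ord_one hF]
    simp
  rw [this, map_zero]

lemma deg_poles_nonneg (f : F) : 0 ≤ deg (poles hF f) := deg_nonneg (poles_nonneg hF f)

lemma deg_poles_pow_le (f : F) (n : ℕ) : deg (poles hF (f ^ n)) ≤ n * deg (poles hF f) := by
  induction n with
  | zero => rw [pow_zero, deg_poles_one]; simp
  | succ n ih =>
    rw [pow_succ]
    have := deg_poles_mul_le hF (f := f ^ n) (g := f)
    push_cast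
    linarith

lemma deg_poles_prod_le {ι : Type*} (s : Finset ι) (f : ι → F) :
    deg (poles hF (∏ i ∈ s, f i)) ≤ ∑ i ∈ s, deg (poles hF (f i)) := by
  classical
  induction s using Finset.induction_on with
  | empty => rw [Finset.prod_empty, Finset.sum_empty, deg_poles_one]
  | insert a s ha ih =>
    rw [Finset.prod_insert ha, Finset.sum_insert ha]
    have := deg_poles_mul_le hF (f := f a) (g := ∏ i ∈ s, f i)
    linarith

omit hF [IsAlgClosed k] in
/-- a basis inside a finite spanning family -/
lemma exists_subbasis {K V : Type*} [Field K] [AddCommGroup V] [Module K V] {ι : Type*} [Finite ι]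
    (v : ι → V) (hv : Submodule.span K (Set.range v) = ⊤) :
    ∃ (n : ℕ) (a : Fin n → ι), Function.Injective a ∧ LinearIndependent K (v ∘ a) ∧
      n = Module.finrank K V := by
  classical
  obtain ⟨κ, a, ha, hspan, hli⟩ := exists_linearIndependent' K v
  have hfin : Finite κ := Finite.of_injective _ ha
  have hft := Fintype.ofFinite κ
  let e := (Fintype.equivFin κ).symm
  refine ⟨Fintype.card κ, a ∘ e, ha.comp e.injective, ?_, ?_⟩
  · exact hli.comp e e.injective
  · let b := Module.Basis.mk hli (by rw [hspan, hv])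
    exact (Module.finrank_eq_card_basis b).symm

/-- Everything in one statement: a function field of degree at most `D` over `k(t)`, spanned by
`v` with few poles. -/
theorem uniform_riemann_span {t : F} (ht : Transcendental k t) {ι : Type*} [Fintype ι] (v : ι → F)
    (hv : Submodule.span k⟮t⟯ (Set.range v) = ⊤) {P : ℕ} (hP : ∀ i, deg (poles hF (v i)) ≤ P) :
    ∀ D : Place k F →₀ ℤ, deg D - ell D ≤ (Fintype.card ι * P : ℕ) := by
  classical
  obtain ⟨n, a, ha, hli, hn⟩ := exists_subbasis v hv
  intro D
  refine (uniform_riemann hF ht (v ∘ a) hli (by rw [Fintype.card_fin, hn]) D).trans ?_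
  have h1 : ∑ j : Fin n, deg (poles hF ((v ∘ a) j)) ≤ ∑ j : Fin n, (P : ℤ) :=
    Finset.sum_le_sum fun j _ => hP (a j)
  refine h1.trans ?_
  rw [Finset.sum_const, Finset.card_univ, Fintype.card_fin, nsmul_eq_mul]
  have h2 : n ≤ Fintype.card ι := by
    have := Fintype.card_le_of_injective a ha
    rwa [Fintype.card_fin] at this
  exact_mod_cast Nat.mul_le_mul_right P h2

/-- Elements with few poles are combinations of the spanning family with coefficients of small
degree. -/
theorem exists_coords_span {t : F} (ht : Transcendental k t) {ι : Type*} [Fintype ι] (v : ι → F)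
    (hv : Submodule.span k⟮t⟯ (Set.range v) = ⊤) {P N : ℕ} (hP : ∀ i, deg (poles hF (v i)) ≤ P)
    (h : F) (hN : deg (poles hF h) ≤ N) :
    ∃ (b : k[X]) (a : ι → k[X]), b ≠ 0 ∧ b.natDegree ≤ Fintype.card ι * P + N + 1 ∧
      (∀ j, (a j).natDegree ≤ Fintype.card ι * P + N + 1) ∧
      aeval t b * h = ∑ j, aeval t (a j) * v j := by
  classical
  obtain ⟨n, σ, hσ, hli, hn⟩ := exists_subbasis v hv
  have h2 : n ≤ Fintype.card ι := by
    have := Fintype.card_le_of_injective σ hσ
    rwa [Fintype.card_fin] at this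
  have h1 : ∑ j : Fin n, deg (poles hF ((v ∘ σ) j)) ≤ ((Fintype.card ι * P : ℕ) : ℤ) := by
    have h1 : ∑ j : Fin n, deg (poles hF ((v ∘ σ) j)) ≤ ∑ j : Fin n, (P : ℤ) :=
      Finset.sum_le_sum fun j _ => hP (σ j)
    refine h1.trans ?_
    rw [Finset.sum_const, Finset.card_univ, Fintype.card_fin, nsmul_eq_mul]
    exact_mod_cast Nat.mul_le_mul_right P h2
  obtain ⟨b, a, hb, hbd, had, hrel⟩ := exists_coords hF ht (v ∘ σ) hli
    (by rw [Fintype.card_fin, hn]) h1 h hN
  refine ⟨b, fun i => ∑ j : Fin n, if σ j = i then a j else 0, hb, hbd, ?_, ?_⟩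
  · intro i
    apply natDegree_sum_le_of_forall_le
    intro j _
    split_ifs
    · exact had j
    · simp
  · rw [hrel]
    have e1 : ∀ i, aeval t (∑ j : Fin n, if σ j = i then a j else 0) * v i =
        ∑ j : Fin n, if σ j = i then aeval t (a j) * v (σ j) else 0 := by
      intro i
      rw [map_sum, Finset.sum_mul]
      apply Finset.sum_congr rfl
      intro j _
      split_ifs with hij
      · rw [hij]
      · rw [map_zero, zero_mul]
    rw [Finset.sum_congr rfl (fun i _ => e1 i), Finset.sum_comm]
    apply Finset.sum_congr rfl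
    intro j _
    rw [Finset.sum_ite_eq]
    simp

omit hF [IsAlgClosed k] in
/-- monomials span -/
theorem span_monomials {K : Type*} [Field K] [Algebra K F] {r d : ℕ} (hd : 0 < d) (e : Fin r → F)
    (c : Fin r → Fin d → K) (hc : ∀ j, e j ^ d = ∑ i : Fin d, algebraMap K F (c j i) * e j ^ (i : ℕ))
    (htop : IntermediateField.adjoin K (Set.range e) = ⊤) :
    Submodule.span K (Set.range fun b : Fin r → Fin d => ∏ j, e j ^ (b j : ℕ)) = ⊤ := by
  classical
  set W := Submodule.span K (Set.range fun b : Fin r → Fin d => ∏ j, e j ^ (b j : ℕ)) with hW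
  have h1 : (1 : F) ∈ W := by
    apply Submodule.subset_span
    exact ⟨fun _ => ⟨0, hd⟩, by simp⟩
  -- multiplication by a generator
  have h2 : ∀ j, ∀ w ∈ W, e j * w ∈ W := by
    intro j w hw
    induction hw using Submodule.span_induction with
    | mem x hx =>
      obtain ⟨b, rfl⟩ := hx
      have hsplit : ∀ b : Fin r → Fin d, ∏ i, e i ^ (b i : ℕ) =
          e j ^ (b j : ℕ) * ∏ i ∈ Finset.univ.erase j, e i ^ (b i : ℕ) := fun b =>
        (Finset.mul_prod_erase _ _ (Finset.mem_univ j)).symm
      have hupd : ∀ m : Fin d, e j ^ (m : ℕ) * ∏ i ∈ Finset.univ.erase j, e i ^ (b i : ℕ) ∈ W := by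
        intro m
        apply Submodule.subset_span
        refine ⟨Function.update b j m, ?_⟩
        change ∏ i, e i ^ (Function.update b j m i : ℕ) = _
        rw [hsplit, Function.update_self]
        congr 1
        apply Finset.prod_congr rfl
        intro i hi
        rw [Function.update_of_ne (Finset.ne_of_mem_erase hi)]
      change e j * ∏ i, e i ^ (b i : ℕ) ∈ W
      rw [hsplit, ← mul_assoc, ← pow_succ']
      by_cases hb : (b j : ℕ) + 1 < d
      · exact hupd ⟨(b j : ℕ) + 1, hb⟩
      · have hbd : (b j : ℕ) + 1 = d := by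
          have := (b j).2
          omega
        rw [hbd, hc j, Finset.sum_mul]
        apply Submodule.sum_mem
        intro i _
        rw [mul_assoc, ← Algebra.smul_def]
        exact Submodule.smul_mem _ _ (hupd i)
    | zero => rw [mul_zero]; exact Submodule.zero_mem _
    | add x y _ _ hx hy => rw [mul_add]; exact Submodule.add_mem _ hx hy
    | smul a x _ hx => rw [mul_smul_comm]; exact Submodule.smul_mem _ _ hx
  have h3 : ∀ x ∈ Algebra.adjoin K (Set.range e), ∀ w ∈ W, x * w ∈ W := by
    intro x hx
    induction hx using Algebra.adjoin_induction with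
    | mem x hx => obtain ⟨j, rfl⟩ := hx; exact h2 j
    | algebraMap a => intro w hw; rw [← Algebra.smul_def]; exact Submodule.smul_mem _ _ hw
    | add x y _ _ hx hy => intro w hw; rw [add_mul]; exact Submodule.add_mem _ (hx w hw) (hy w hw)
    | mul x y _ _ hx hy => intro w hw; rw [mul_assoc]; exact hx _ (hy w hw)
  have halg : ∀ j, IsIntegral K (e j) := by
    intro j
    refine ⟨X ^ d - ∑ i : Fin d, C (c j i) * X ^ (i : ℕ), ?_, ?_⟩
    · apply monic_X_pow_sub
      apply lt_of_le_of_lt (degree_sum_le _ _)
      rw [Finset.sup_lt_iff (by rw [bot_lt_iff_ne_bot]; simp)]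
      intro i _
      exact lt_of_le_of_lt (degree_C_mul_X_pow_le _ _) (by exact_mod_cast i.2)
    · rw [eval₂_sub, eval₂_X_pow, eval₂_finsetSum, hc j, sub_eq_zero]
      apply Finset.sum_congr rfl
      intro i _
      rw [eval₂_mul, eval₂_C, eval₂_X_pow]
  have h4 : Algebra.adjoin K (Set.range e) = ⊤ := by
    have h5 := IntermediateField.adjoin_toSubalgebra_of_isAlgebraic (F := K) (S := Set.range e)
      (fun x hx => by obtain ⟨j, rfl⟩ := hx; exact (halg j).isAlgebraic)
    rw [← h5, htop, IntermediateField.top_toSubalgebra]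
  rw [eq_top_iff]
  intro x _
  have := h3 x (by rw [h4]; trivial) 1 h1
  rwa [mul_one] at this

end UL
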