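import Mathlib
import Pool.Agent.Helper10.UL.Roots

/-!
# Block B: bounded complexity, for the field generated by roots of a polynomial over `k[t]`
-/

namespace UL

open VC FF WithZero Polynomial IntermediateField

universe u

/-- the Riemann constant of a field generated over `k(t)` by `r` roots of a polynomial of degree
`d`, with coefficients of degree at most `m` -/
def gam (r d m : ℕ) : ℕ := d ^ r * (r * (d * (m * d ^ r)))

/-- the bound for the degrees of the representatives -/
def bndN (r d m s : ℕ) : ℕ := d ^ r * (gam r d m + d ^ r * (s + 1) + 3)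

/-- the bound for the degrees of the coordinates -/
def bndC (r d m N : ℕ) : ℕ := gam r d m + N + 1

variable {k F : Type u} [Field k] [IsAlgClosed k] [Field F] [Algebra k F]
  (hF : IsFunctionField k F)

include hF

section roots

variable {t : F} (ht : Transcendental k t) {r d m : ℕ} (hd : 0 < d) (a : Fin r → ℕ → k[X])
  (ha : ∀ j, ∀ i ≤ d, (a j i).natDegree ≤ m) (had : ∀ j, a j d ≠ 0) (e : Fin r → F)
  (he : ∀ j, ∑ i ∈ Finset.range (d + 1), aeval t (a j i) * e j ^ i = 0)
  (htop : IntermediateField.adjoin k⟮t⟯ (Set.range e) = ⊤)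

include ht hd ha had he htop

omit ha [IsAlgClosed k] hF in
theorem span_roots :
    Submodule.span k⟮t⟯ (Set.range fun b : Fin r → Fin d => ∏ j, e j ^ (b j : ℕ)) = ⊤ := by
  have htr := transcendental_iff.mp ht
  have hw0 : ∀ j, aeval t (a j d) ≠ 0 := fun j h => had j (htr _ h)
  let cf : k[X] → k⟮t⟯ := fun q => aeval (AdjoinSimple.gen k t) q
  have hcf : ∀ q, algebraMap k⟮t⟯ F (cf q) = aeval t q := by
    intro q
    change algebraMap k⟮t⟯ F (aeval (AdjoinSimple.gen k t) q) = _
    rw [← aeval_algebraMap_apply, AdjoinSimple.algebraMap_gen]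
  refine span_monomials hd e (fun j i => - (cf (a j i)) / cf (a j d)) ?_ htop
  intro j
  have h1 := he j
  rw [Finset.sum_range_succ] at h1
  have h2 : ∀ i : Fin d, algebraMap k⟮t⟯ F (-(cf (a j i)) / cf (a j d)) * e j ^ (i : ℕ) =
      - (aeval t (a j i) * e j ^ (i : ℕ)) / aeval t (a j d) := by
    intro i
    rw [map_div₀, map_neg, hcf, hcf]
    ring
  rw [Finset.sum_congr rfl (fun i _ => h2 i), ← Finset.sum_div, Finset.sum_neg_distrib,
    eq_div_iff (hw0 j), Finset.sum_range (fun i => aeval t (a j i) * e j ^ i)] at *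
  rw [mul_comm, eq_neg_iff_add_eq_zero, add_comm]
  exact h1

omit ha [IsAlgClosed k] hF in
theorem finrank_le : Module.finrank k⟮t⟯ F ≤ d ^ r := by
  obtain ⟨n, σ, hσ, -, hn⟩ := exists_subbasis _ (span_roots ht hd a had e he htop)
  rw [← hn]
  have h1 := Fintype.card_le_of_injective σ hσ
  rwa [Fintype.card_fin, Fintype.card_fun, Fintype.card_fin, Fintype.card_fin] at h1

theorem deg_poles_monomial (b : Fin r → Fin d) :
    deg (poles hF (∏ j, e j ^ (b j : ℕ))) ≤ (r * (d * (m * d ^ r)) : ℕ) := by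
  have h0 := finrank_le ht hd a had e he htop
  have h1 : ∀ j, deg (poles hF (e j ^ (b j : ℕ))) ≤ ((d * (m * d ^ r) : ℕ) : ℤ) := by
    intro j
    have h2 := deg_poles_pow_le hF (e j) (b j)
    have h3 := deg_poles_root hF ht (a j) (ha j) (had j) (he j)
    have h4 := (b j).2
    have h5 := deg_poles_nonneg hF (e j)
    have h6 : ((b j : ℕ) : ℤ) * deg (poles hF (e j)) ≤ d * (m * (d ^ r : ℕ)) := by
      have h7 : ((b j : ℕ) : ℤ) ≤ d := by exact_mod_cast h4.le
      have h8 : deg (poles hF (e j)) ≤ m * ((d ^ r : ℕ) : ℤ) := by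
        refine h3.trans ?_
        have : ((Module.finrank k⟮t⟯ F : ℕ) : ℤ) ≤ ((d ^ r : ℕ) : ℤ) := by exact_mod_cast h0
        exact mul_le_mul_of_nonneg_left this (by positivity)
      exact mul_le_mul h7 h8 h5 (by positivity)
    refine h2.trans (h6.trans (le_of_eq ?_))
    push_cast
    ring
  have h2 := deg_poles_prod_le hF (Finset.univ : Finset (Fin r)) (fun j => e j ^ (b j : ℕ))
  refine h2.trans ((Finset.sum_le_sum fun j _ => h1 j).trans (le_of_eq ?_))
  rw [Finset.sum_const, Finset.card_univ, Fintype.card_fin, nsmul_eq_mul]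
  push_cast
  ring

theorem riemann_roots : ∀ D : Place k F →₀ ℤ, deg D - ell D ≤ gam r d m := by
  intro D
  have h1 := uniform_riemann_span hF ht _ (span_roots ht hd a had e he htop)
    (P := r * (d * (m * d ^ r))) (fun b => deg_poles_monomial hF ht hd a ha had e he htop b) D
  rwa [Fintype.card_fun, Fintype.card_fin, Fintype.card_fin] at h1

/-- Elements with few poles have coordinates of small degree. -/
theorem exists_coords_roots {N : ℕ} (h : F) (hN : deg (poles hF h) ≤ N) :
    ∃ (b : k[X]) (c : (Fin r → Fin d) → k[X]), b ≠ 0 ∧ b.natDegree ≤ bndC r d m N ∧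
      (∀ β, (c β).natDegree ≤ bndC r d m N) ∧
      aeval t b * h = ∑ β, aeval t (c β) * ∏ j, e j ^ (β j : ℕ) := by
  have h1 := exists_coords_span hF ht _ (span_roots ht hd a had e he htop)
    (P := r * (d * (m * d ^ r))) (fun b => deg_poles_monomial hF ht hd a ha had e he htop b) h hN
  rwa [Fintype.card_fun, Fintype.card_fin, Fintype.card_fin] at h1

/-- **Block B.** Two representatives of bounded degree modulo `p`-th powers, without common bad
values outside `S`. -/
theorem exists_pair_roots {p s : ℕ} (hp : 0 < p) (S : Finset k) (hS : S.card ≤ s) {δ : F}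
    (hδ : δ ≠ 0)
    (hdiv : ∀ x ∉ S, ∀ Q : Place k F, t - algebraMap k F x ∈ Q.ring.nonunits →
      (p : ℤ) ∣ ord Q.ring δ) :
    ∃ g₁ g₂ : F, g₁ ≠ 0 ∧ g₂ ≠ 0 ∧
      (∀ Q : Place k F, t ∈ Q.ring → 0 ≤ ord Q.ring (δ * g₁ ^ p)) ∧
      (∀ Q : Place k F, t ∈ Q.ring → 0 ≤ ord Q.ring (δ * g₂ ^ p)) ∧
      deg (poles hF (δ * g₁ ^ p)) ≤ (p * bndN r d m s : ℕ) ∧
      deg (poles hF (δ * g₂ ^ p)) ≤ (p * bndN r d m s : ℕ) ∧
      deg (poles hF (g₂ / g₁)) ≤ bndN r d m s ∧
      ∀ x ∉ S,
        (∀ Q : Place k F, t - algebraMap k F x ∈ Q.ring.nonunits → ord Q.ring (δ * g₁ ^ p) = 0) ∨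
        (∀ Q : Place k F, t - algebraMap k F x ∈ Q.ring.nonunits →
          ord Q.ring (δ * g₂ ^ p) = 0) := by
  have h0 := finrank_le ht hd a had e he htop
  have h1 := exists_pair hF ht (γ := gam r d m) (riemann_roots hF ht hd a ha had e he htop) hp S hδ
    hdiv (N := bndN r d m s) (by
      unfold bndN
      gcongr)
  push_cast
  exact h1

end roots

end UL
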