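import Mathlib
import Pool.Agent.Helper10.UL.Roots

/-!
# Minimal polynomials over `k[t]` of bounded complexity
-/

namespace UL

open VC FF WithZero Polynomial IntermediateField

universe u

section integral

variable {F : Type*} [Field F]

lemma isIntegral_of_forall_mem {R : Type*} [CommRing R] [Algebra R F] {f : F}
    (h : ∀ V : ValuationSubring F, (∀ r : R, algebraMap R F r ∈ V) → f ∈ V) :
    IsIntegral R f := by
  have h1 := iInf_valuationSubring_superset (s := (((algebraMap R F).range : Subring F) : Set F))
  rw [Subring.closure_eq] at h1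
  have h2 : f ∈ (integralClosure (algebraMap R F).range F).toSubring := by
    rw [← h1, Subring.mem_iInf]
    rintro ⟨V, hV⟩
    exact h V fun r => hV ⟨r, rfl⟩
  have h3 : IsIntegral (algebraMap R F).range f := h2
  let _ : Algebra R (algebraMap R F).range := (algebraMap R F).rangeRestrict.toAlgebra
  have : IsScalarTower R (algebraMap R F).range F := IsScalarTower.of_algebraMap_eq fun _ => rfl
  have : Algebra.IsIntegral R (algebraMap R F).range := by
    constructor
    rintro ⟨_, r, rfl⟩
    exact isIntegral_algebraMap (R := R) (A := (algebraMap R F).range) (x := r)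
  exact isIntegral_trans f h3

end integral

section swap

variable {k : Type*} [Field k]

lemma coeff_swap (P : k[X][X]) (i j : ℕ) :
    ((Bivariate.swap P).coeff i).coeff j = (P.coeff j).coeff i := by
  induction P using Polynomial.induction_on' with
  | add p q hp hq => rw [map_add, coeff_add, coeff_add, hp, hq, coeff_add, coeff_add]
  | monomial n a =>
    induction a using Polynomial.induction_on' with
    | add p q hp hq => rw [map_add, map_add, coeff_add, coeff_add, hp, hq, coeff_add, coeff_add]
    | monomial m r =>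
      rw [Bivariate.swap_monomial_monomial]
      simp only [coeff_monomial]
      split_ifs <;> simp_all [coeff_monomial]

lemma natDegree_coeff_le_of_dvd {P χ : k[X][X]} (hP : P ≠ 0) (h : χ ∣ P) {l : ℕ}
    (hl : ∀ j, (P.coeff j).natDegree ≤ l) : ∀ j, (χ.coeff j).natDegree ≤ l := by
  have h1 : (Bivariate.swap P).natDegree ≤ l := by
    rw [natDegree_le_iff_coeff_eq_zero]
    intro i hi
    ext j
    rw [coeff_swap, coeff_zero]
    exact coeff_eq_zero_of_natDegree_lt (lt_of_le_of_lt (hl j) hi)
  have h2 : (Bivariate.swap χ).natDegree ≤ (Bivariate.swap P).natDegree := by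
    obtain ⟨R, rfl⟩ := h
    have h3 : Bivariate.swap (χ * R) = Bivariate.swap χ * Bivariate.swap R :=
      map_mul Bivariate.swap χ R
    have h4 : Bivariate.swap (χ * R) ≠ 0 := by
      intro h0
      apply hP
      rw [← Bivariate.swap_swap_apply (χ * R), h0]
      exact map_zero Bivariate.swap
    rw [h3] at h4 ⊢
    exact natDegree_le_of_dvd (Dvd.intro _ rfl) h4
  intro j
  rw [natDegree_le_iff_coeff_eq_zero]
  intro i hi
  rw [← coeff_swap, coeff_eq_zero_of_natDegree_lt (p := Bivariate.swap χ) (by omega), coeff_zero]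

end swap

variable {k F : Type u} [Field k] [IsAlgClosed k] [Field F] [Algebra k F]
  (hF : IsFunctionField k F)

include hF

/-- An algebraic relation of bounded complexity. -/
theorem exists_relation {t : F} (ht : Transcendental k t) {A : F} {N : ℕ}
    (hN : deg (poles hF A) ≤ N) :
    ∃ P : k[X][X], P ≠ 0 ∧ P.natDegree ≤ Module.finrank k⟮t⟯ F ∧
      (∀ j, (P.coeff j).natDegree ≤ Module.finrank k⟮t⟯ F * N) ∧
      eval₂ (aeval t : k[X] →ₐ[k] F).toRingHom A P = 0 := by
  classical
  have ht0 : t ≠ 0 := by
    rintro rfl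
    exact ht isAlgebraic_zero
  have hfin := hF.finiteDimensional ht
  set n := Module.finrank k⟮t⟯ F with hn
  have hnpos : 0 < n := Module.finrank_pos
  set l := n * N with hl
  let C : Place k F →₀ ℤ := n • poles hF A
  have hC0 : ∀ P, 0 ≤ C P := by
    intro P
    rw [Finsupp.smul_apply, nsmul_eq_mul]
    have := poles_nonneg hF A P
    positivity
  have hCA : ∀ j ≤ n, ∀ P, - ord P.ring (A ^ j) ≤ C P := by
    intro j hj P
    rw [Finsupp.smul_apply, nsmul_eq_mul, poles_apply]
    rcases eq_or_ne A 0 with h0 | h0
    · rcases Nat.eq_zero_or_pos j with hj0 | hj0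
      · rw [hj0, pow_zero, ord_one hF P]
        have := le_max_right (- ord P.ring A) 0
        rw [neg_zero]; positivity
      · rw [h0, zero_pow hj0.ne', ord_zero]
        simp
    · rw [ord_pow hF P h0]
      have h1 := le_max_left (- ord P.ring A) 0
      have h2 := le_max_right (- ord P.ring A) 0
      have h3 : (j : ℤ) ≤ n := by exact_mod_cast hj
      have h4 : (j : ℤ) * (- ord P.ring A) ≤ j * max (- ord P.ring A) 0 :=
        mul_le_mul_of_nonneg_left h1 (by positivity)
      have h5 : (j : ℤ) * max (- ord P.ring A) 0 ≤ n * max (- ord P.ring A) 0 :=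
        mul_le_mul_of_nonneg_right h3 h2
      linarith
  let W := riemannRochSpace k F (l • poles hF t + C)
  have hfd : FiniteDimensional k W := finite_rr hF _
  have hm : ∀ p : Fin (l + 1) × Fin (n + 1), t ^ (p.1 : ℕ) * A ^ (p.2 : ℕ) ∈ W := fun p =>
    pow_mul_mem hF ht0 hC0 (hCA p.2 (by have := p.2.2; omega)) (by have := p.1.2; omega)
  let T : (Fin (l + 1) × Fin (n + 1) → k) →ₗ[k] W :=
    Fintype.linearCombination k (fun p => (⟨t ^ (p.1 : ℕ) * A ^ (p.2 : ℕ), hm p⟩ : W))
  have hrank : Module.finrank k W < Module.finrank k (Fin (l + 1) × Fin (n + 1) → k) := by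
    rw [Module.finrank_fintype_fun_eq_card, Fintype.card_prod, Fintype.card_fin, Fintype.card_fin]
    have h2 := ell_le_deg hF (D := l • poles hF t + C) (fun P => by
      rw [Finsupp.add_apply, Finsupp.smul_apply, nsmul_eq_mul]
      have := poles_nonneg hF t P
      have := hC0 P
      positivity)
    rw [map_add, map_nsmul, map_nsmul, nsmul_eq_mul, nsmul_eq_mul, deg_poles hF ht, ← hn] at h2
    have h3 : (Module.finrank k W : ℤ) ≤ l * n + n * N + 1 := by
      change (ell (l • poles hF t + C) : ℤ) ≤ _
      have h4 : (n : ℤ) * deg (poles hF A) ≤ n * N :=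
        mul_le_mul_of_nonneg_left hN (by positivity)
      linarith
    have h4 : Module.finrank k W ≤ l * n + n * N + 1 := by exact_mod_cast h3
    rw [← hl] at h4
    have h5 : (l + 1) * (n + 1) = l * n + l + n + 1 := by ring
    rw [h5]
    omega
  have hker : LinearMap.ker T ≠ ⊥ := LinearMap.ker_ne_bot_of_finrank_lt hrank
  obtain ⟨y, hy, hy0⟩ := Submodule.exists_mem_ne_zero_of_ne_bot hker
  rw [LinearMap.mem_ker] at hy
  have hrel : ∑ p, y p • (t ^ (p.1 : ℕ) * A ^ (p.2 : ℕ)) = 0 := by
    have h1 := congrArg (Subtype.val : W → F) hy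
    simp only [T, Fintype.linearCombination_apply] at h1
    rw [Submodule.coe_sum, Submodule.coe_zero] at h1
    exact h1
  let P : k[X][X] := ∑ j : Fin (n + 1), monomial (j : ℕ)
    (∑ i : Fin (l + 1), monomial (i : ℕ) (y (i, j)))
  have hPc : ∀ j : Fin (n + 1), P.coeff j = ∑ i : Fin (l + 1), monomial (i : ℕ) (y (i, j)) := by
    intro j
    simp only [P, finsetSum_coeff, coeff_monomial]
    rw [Finset.sum_eq_single j]
    · rw [if_pos rfl]
    · intro b _ hb
      rw [if_neg]
      intro h
      exact hb (Fin.ext h)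
    · intro h; exact absurd (Finset.mem_univ _) h
  have hPc' : ∀ (j : Fin (n + 1)) (i : Fin (l + 1)), (P.coeff j).coeff i = y (i, j) := by
    intro j i
    rw [hPc]
    simp only [finsetSum_coeff, coeff_monomial]
    rw [Finset.sum_eq_single i]
    · rw [if_pos rfl]
    · intro b _ hb
      rw [if_neg]
      intro h
      exact hb (Fin.ext h)
    · intro h; exact absurd (Finset.mem_univ _) h
  refine ⟨P, ?_, ?_, ?_, ?_⟩
  · intro h0
    apply hy0
    funext p
    have h1 := hPc' p.2 p.1
    rw [h0] at h1
    simpa using h1.symm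
  · apply natDegree_sum_le_of_forall_le
    intro j _
    refine (natDegree_monomial_le _).trans ?_
    have := j.2; omega
  · intro j
    by_cases hj : j < n + 1
    · have h1 := hPc ⟨j, hj⟩
      simp only at h1
      rw [h1]
      apply natDegree_sum_le_of_forall_le
      intro i _
      refine (natDegree_monomial_le _).trans ?_
      have := i.2; omega
    · have h1 : P.coeff j = 0 := by
        simp only [P, finsetSum_coeff, coeff_monomial]
        apply Finset.sum_eq_zero
        intro b _
        rw [if_neg]
        have := b.2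
        omega
      rw [h1]
      simp
  · simp only [P]
    rw [eval₂_finsetSum, ← hrel, Fintype.sum_prod_type_right]
    apply Finset.sum_congr rfl
    intro j _
    rw [eval₂_monomial]
    change aeval t (∑ i : Fin (l + 1), monomial (i : ℕ) (y (i, j))) * A ^ (j : ℕ) = _
    rw [map_sum, Finset.sum_mul]
    apply Finset.sum_congr rfl
    intro i _
    rw [aeval_monomial, Algebra.smul_def, mul_assoc]

/-- The minimal polynomial over `k[t]` of a function regular away from the poles of `t`. -/
theorem exists_chi {t : F} (ht : Transcendental k t) {A : F} (hA0 : A ≠ 0)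
    (hA : ∀ Q : Place k F, t ∈ Q.ring → 0 ≤ ord Q.ring A) {N : ℕ}
    (hN : deg (poles hF A) ≤ N) :
    ∃ χ : k[X][X], χ.Monic ∧ χ.natDegree ≤ Module.finrank k⟮t⟯ F ∧
      (∀ i, (χ.coeff i).natDegree ≤ Module.finrank k⟮t⟯ F * N) ∧
      eval₂ (aeval t : k[X] →ₐ[k] F).toRingHom A χ = 0 ∧
      ∀ t₀ : k, (∀ Q : Place k F, t - algebraMap k F t₀ ∈ Q.ring.nonunits → ord Q.ring A = 0) →
        (χ.coeff 0).eval t₀ ≠ 0 := by
  let i1 : Algebra k[X] F := polyAlg t
  have hal : ∀ p : k[X], algebraMap k[X] F p = aeval t p := fun p => rfl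
  have hal' : algebraMap k[X] F = (aeval t : k[X] →ₐ[k] F).toRingHom := rfl
  have htf : Module.IsTorsionFree k[X] F := by
    have h1 : FaithfulSMul k[X] F := by
      rw [faithfulSMul_iff_algebraMap_injective]
      exact transcendental_iff_injective.mp ht
    infer_instance
  have hint : IsIntegral k[X] A := by
    apply isIntegral_of_forall_mem
    intro V hV
    by_cases hVt : V = ⊤
    · rw [hVt]; exact ValuationSubring.mem_top _
    · have h1 : ∀ c : k, algebraMap k F c ∈ V := fun c => by
        have := hV (C c)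
        rwa [hal, aeval_C] at this
      have h2 : t ∈ V := by
        have := hV X
        rwa [hal, aeval_X] at this
      let Q : Place k F := ⟨V, h1, hVt⟩
      exact (ord_nonneg_iff hF Q hA0).mp (hA Q h2)
  obtain ⟨P, hP0, hPn, hPl, hPe⟩ := exists_relation hF ht hN
  have hdvd : ∀ G : k[X][X], eval₂ (aeval t : k[X] →ₐ[k] F).toRingHom A G = 0 →
      minpoly k[X] A ∣ G := by
    intro G hG
    apply minpoly.isIntegrallyClosed_dvd hint
    rw [aeval_def, hal']
    exact hG
  have hχP := hdvd P hPe
  refine ⟨minpoly k[X] A, minpoly.monic hint, (natDegree_le_of_dvd hχP hP0).trans hPn,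
    natDegree_coeff_le_of_dvd hP0 hχP hPl, ?_, ?_⟩
  · have := minpoly.aeval k[X] A
    rwa [aeval_def, hal'] at this
  · intro t₀ hQ h0
    -- the subring generated by `t` and `A`
    let Φ : k[X][X] →+* F := eval₂RingHom (aeval t : k[X] →ₐ[k] F).toRingHom A
    let w : F := t - algebraMap k F t₀
    have hw0 : w ≠ 0 := by
      intro h
      rw [sub_eq_zero] at h
      exact ht (h ▸ isAlgebraic_algebraMap t₀)
    have hwR : w ∈ Φ.range := ⟨C (X - C t₀), by
      change eval₂ _ _ _ = _
      rw [eval₂_C]
      change aeval t (X - C t₀) = _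
      rw [map_sub, aeval_X, aeval_C]⟩
    have hAR : A ∈ Φ.range := ⟨X, by
      change eval₂ _ _ _ = _
      rw [eval₂_X]⟩
    obtain ⟨Q, -, hQ2⟩ := exists_place_of_subring (k := k) Φ.range (fun a => ⟨C (C a), by
      change eval₂ _ _ _ = _
      rw [eval₂_C]
      change aeval t (C a) = _
      rw [aeval_C]⟩) (Ideal.span {⟨w, hwR⟩, ⟨A, hAR⟩}) (by
        intro htop
        rw [Ideal.eq_top_iff_one, Ideal.mem_span_pair] at htop
        obtain ⟨⟨_, U, rfl⟩, ⟨_, V, rfl⟩, hUV⟩ := htop
        have h1 := congrArg Subtype.val hUV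
        change Φ U * w + Φ V * A = 1 at h1
        have h2 := hdvd (1 - U * C (X - C t₀) - V * X) (by
          change Φ _ = 0
          rw [map_sub, map_sub, map_one, map_mul, map_mul]
          have h3 : Φ (C (X - C t₀)) = w := by
            change eval₂ _ _ _ = _
            rw [eval₂_C]
            change aeval t (X - C t₀) = _
            rw [map_sub, aeval_X, aeval_C]
          have h4 : Φ X = A := by
            change eval₂ _ _ _ = _
            rw [eval₂_X]
          rw [h3, h4, ← h1]
          ring)
        obtain ⟨R, hR⟩ := h2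
        have h3 := congrArg (fun G : k[X][X] => (G.coeff 0).eval t₀) hR
        simp only [mul_coeff_zero, coeff_sub, coeff_C_zero, coeff_X_zero, mul_zero, sub_zero,
          coeff_one_zero, eval_mul, eval_sub, eval_one, eval_X, eval_C, sub_self, h0, zero_mul] at h3
        exact one_ne_zero h3)
      ⟨⟨w, hwR⟩, Ideal.subset_span (by simp), fun h => hw0 (congrArg Subtype.val h)⟩
    have h1 : w ∈ Q.ring.nonunits := hQ2 ⟨w, hwR⟩ (Ideal.subset_span (by simp))
    have h2 : A ∈ Q.ring.nonunits := hQ2 ⟨A, hAR⟩ (Ideal.subset_span (by simp))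
    have h3 := hQ Q h1
    have h4 := (ord_pos_iff hF Q hA0).mpr h2
    omega

end UL
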