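import Mathlib
import Pool.Agent.Helper37.UL.Data
import Pool.Agent.Helper37.UL.StubB

/-!
# From polynomials to coefficient functions
-/

set_option linter.unusedSectionVars false

universe u

namespace UL

open Polynomial IntermediateField VC FF Pool.Agent.Helper37.UL

section

variable {C : Type u} [Field C] {κ : Subfield C} {M : IntermediateField κ C}

lemma coe_aeval (t : M) (q : κ[X]) : ((aeval t q : M) : C) = aeval (t : C) q := by
  exact (aeval_algebraMap_apply C t q).symm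

lemma aeval_eq_fin_sum {B : ℕ} {q : κ[X]} (hq : q.natDegree ≤ B) (t : C) :
    aeval t q = ∑ l : Fin (B + 1), ((q.coeff l : κ) : C) * t ^ (l : ℕ) := by
  rw [aeval_eq_sum_range' (n := B + 1) (by omega), Finset.sum_range]
  refine Finset.sum_congr rfl fun l _ => ?_
  rw [Algebra.smul_def]
  rfl

lemma cpx_of_bdd {d B₀ B : ℕ} (hB : B₀ ≤ B) {t x y h : M} (H : Bdd (κ := κ) d B₀ t x y h) :
    Cpx κ d B (t : C) (x : C) (y : C) (h : C) := by
  obtain ⟨n, q, hq0, hq, hn, hrel⟩ := H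
  refine ⟨fun i j l => ((n i j).coeff l : κ), fun l => (q.coeff l : κ), fun i j l =>
    Subtype.coe_prop _, fun l => Subtype.coe_prop _, ?_, ?_⟩
  · intro h0
    have h1 := congrFun h0 ⟨q.natDegree, by omega⟩
    have h2 : ((q.coeff q.natDegree : κ) : C) = 0 := h1
    have h3 : q.coeff q.natDegree = 0 := Subtype.ext h2
    exact leadingCoeff_ne_zero.mpr hq0 h3
  · rw [← aeval_eq_fin_sum (hq.trans hB), ← coe_aeval]
    have h1 := congrArg (Subtype.val : M → C) hrel
    change ((aeval t q : M) : C) * (h : C) = _ at h1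
    rw [h1]
    change M.val (∑ i, ∑ j, aeval t (n i j) * (x ^ (i : ℕ) * y ^ (j : ℕ))) = _
    rw [map_sum]
    refine Finset.sum_congr rfl fun i _ => ?_
    rw [map_sum]
    refine Finset.sum_congr rfl fun j _ => ?_
    rw [map_mul, map_mul, map_pow, map_pow, ← aeval_eq_fin_sum ((hn i j).trans hB), ← coe_aeval]
    rfl

end

section chi

variable {κ : Type*} [Field κ]

lemma natDegree_coeff_mul_le {χ η : κ[X][X]} {B : ℕ} (hχ : ∀ i, (χ.coeff i).natDegree ≤ B)
    (hη : ∀ i, (η.coeff i).natDegree = 0) (i : ℕ) : ((χ * η).coeff i).natDegree ≤ B := by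
  rw [coeff_mul]
  refine natDegree_sum_le_of_forall_le _ _ fun x _ => ?_
  refine natDegree_mul_le.trans ?_
  rw [hη, add_zero]
  exact hχ _

lemma natDegree_coeff_X_sub_one_pow (N i : ℕ) :
    (((X - 1 : κ[X][X]) ^ N).coeff i).natDegree = 0 := by
  have h1 : (X - 1 : κ[X][X]) ^ N = ((X - 1 : κ[X]) ^ N).map C := by
    rw [Polynomial.map_pow, Polynomial.map_sub, map_X, Polynomial.map_one]
  rw [h1, coeff_map, natDegree_C]

/-- an equation of degree exactly `B` -/
lemma exists_exact_chi {χ : κ[X][X]} (hχ : χ.Monic) {B : ℕ} (hdeg : χ.natDegree ≤ B)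
    (hco : ∀ i, (χ.coeff i).natDegree ≤ B) :
    ∃ χ' : κ[X][X], χ'.Monic ∧ χ'.natDegree = B ∧ (∀ i, (χ'.coeff i).natDegree ≤ B) ∧ χ ∣ χ' ∧
      ∀ t₀, (χ.coeff 0).eval t₀ ≠ 0 → (χ'.coeff 0).eval t₀ ≠ 0 := by
  have hm : (X - 1 : κ[X][X]).Monic := by
    have := monic_X_sub_C (1 : κ[X])
    rwa [C_1] at this
  have hd1 : (X - 1 : κ[X][X]).natDegree = 1 := by
    have := natDegree_X_sub_C (1 : κ[X])
    rwa [C_1] at this
  refine ⟨χ * (X - 1) ^ (B - χ.natDegree), hχ.mul (hm.pow _), ?_, ?_, Dvd.intro _ rfl, ?_⟩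
  · rw [hχ.natDegree_mul (hm.pow _), hm.natDegree_pow, hd1]
    omega
  · exact natDegree_coeff_mul_le hco (natDegree_coeff_X_sub_one_pow _)
  · intro t₀ h0
    rw [mul_coeff_zero, eval_mul]
    refine mul_ne_zero h0 ?_
    rw [coeff_zero_eq_eval_zero, eval_pow, eval_sub, eval_X, eval_one, zero_sub, eval_pow,
      eval_neg, eval_one]
    exact pow_ne_zero _ (neg_ne_zero.mpr one_ne_zero)

end chi

section coeffs

variable {C : Type u} [Field C] {κ : Subfield C} {M : IntermediateField κ C}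

/-- coefficient functions of an equation -/
lemma exists_coeffs {χ : κ[X][X]} (hχ : χ.Monic) {B : ℕ} (hdeg : χ.natDegree ≤ B)
    (hco : ∀ i, (χ.coeff i).natDegree ≤ B) {t A : M}
    (hA : eval₂ (aeval t : κ[X] →ₐ[κ] M).toRingHom A χ = 0) :
    ∃ c : Fin B → Fin (B + 1) → C, (∀ i l, c i l ∈ κ) ∧
      (A : C) ^ B + ∑ i, (∑ l, c i l * (t : C) ^ (l : ℕ)) * (A : C) ^ (i : ℕ) = 0 ∧
      ∀ t₀ : κ, (χ.coeff 0).eval t₀ ≠ 0 → ∀ i : Fin B, (i : ℕ) = 0 →
        ∑ l, c i l * (t₀ : C) ^ (l : ℕ) ≠ 0 := by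
  obtain ⟨χ', h1, h2, h3, h4, h5⟩ := exists_exact_chi hχ hdeg hco
  have hA' : eval₂ (aeval t : κ[X] →ₐ[κ] M).toRingHom A χ' = 0 := by
    obtain ⟨R, rfl⟩ := h4
    rw [eval₂_mul, hA, zero_mul]
  refine ⟨fun i l => ((χ'.coeff i).coeff l : κ), fun i l => Subtype.coe_prop _, ?_, ?_⟩
  · rw [eval₂_eq_sum_range, h2, Finset.sum_range_succ] at hA'
    have h6 : χ'.coeff B = 1 := by
      have := h1.coeff_natDegree
      rwa [h2] at this
    rw [h6, map_one, one_mul, add_comm, Finset.sum_range] at hA'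
    have h7 := congrArg (M.val : M → C) hA'
    rw [map_add, map_pow, map_sum, map_zero] at h7
    rw [← h7]
    congr 1
    refine Finset.sum_congr rfl fun i _ => ?_
    rw [map_mul, map_pow, ← aeval_eq_fin_sum (h3 i), ← coe_aeval]
    rfl
  · intro t₀ h0 i hi
    have h6 := h5 t₀ h0
    have h7 := aeval_eq_fin_sum (h3 i) (t₀ : C)
    rw [hi] at h7
    change ∑ l : Fin (B + 1), (((χ'.coeff (i : ℕ)).coeff (l : ℕ) : κ) : C) * (t₀ : C) ^ (l : ℕ) ≠ 0
    rw [hi, ← h7]
    have h8 : aeval (t₀ : C) (χ'.coeff 0) = (((χ'.coeff 0).eval t₀ : κ) : C) := by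
      have := aeval_algebraMap_apply C t₀ (χ'.coeff 0)
      rw [coe_aeval_eq_eval] at this
      exact this
    rw [h8]
    intro h9
    exact h6 (Subtype.ext h9)

end coeffs

section field

variable {κ M : Type u} [Field κ] [Field M] [Algebra κ M] {t x y : M}

lemma top_of_gen (hgen : IntermediateField.adjoin κ {t, x, y} = ⊤) :
    IntermediateField.adjoin κ⟮t⟯ (Set.range (![x, y] : Fin 2 → M)) = ⊤ := by
  have h1 : Set.range (![x, y] : Fin 2 → M) = {x, y} := by
    ext w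
    simp only [Set.mem_range, Fin.exists_fin_two, Set.mem_insert_iff, Set.mem_singleton_iff,
      Matrix.cons_val_zero, Matrix.cons_val_one]
    constructor <;> rintro (h | h) <;> simp [h]
  have h2 := IntermediateField.adjoin_adjoin_left κ ({t} : Set M) {x, y}
  rw [h1]
  apply IntermediateField.restrictScalars_injective κ
  rw [h2, IntermediateField.restrictScalars_top, ← hgen]
  rfl

lemma span_of_gen (ht : Transcendental κ t) (hgen : IntermediateField.adjoin κ {t, x, y} = ⊤)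
    {d m : ℕ} (hd : 0 < d) {a : κ[X][X]} (ha : a ≠ 0) (had : a.natDegree ≤ d)
    (ham : ∀ i, (a.coeff i).natDegree ≤ m)
    (hax : eval₂ (aeval t : κ[X] →ₐ[κ] M).toRingHom x a = 0)
    (hay : eval₂ (aeval t : κ[X] →ₐ[κ] M).toRingHom y a = 0) :
    Submodule.span κ⟮t⟯ (Set.range fun b : Fin 2 → Fin d =>
      ∏ j, (![x, y] : Fin 2 → M) j ^ (b j : ℕ)) = ⊤ := by
  obtain ⟨a', ha'1, ha'2, ha'3⟩ := exists_rel_exact ha had ham hax
  obtain ⟨b', hb'1, hb'2, hb'3⟩ := exists_rel_exact ha had ham hay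
  refine span_roots ht hd ![a', b'] ?_ ![x, y] ?_ (top_of_gen hgen)
  · intro j
    fin_cases j
    · exact ha'2
    · exact hb'2
  · intro j
    fin_cases j
    · exact ha'3
    · exact hb'3

lemma isFunctionField_of_gen (ht : Transcendental κ t)
    (hgen : IntermediateField.adjoin κ {t, x, y} = ⊤)
    {d m : ℕ} (hd : 0 < d) {a : κ[X][X]} (ha : a ≠ 0) (had : a.natDegree ≤ d)
    (ham : ∀ i, (a.coeff i).natDegree ≤ m)
    (hax : eval₂ (aeval t : κ[X] →ₐ[κ] M).toRingHom x a = 0)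
    (hay : eval₂ (aeval t : κ[X] →ₐ[κ] M).toRingHom y a = 0) : IsFunctionField κ M := by
  have hspan := span_of_gen ht hgen hd ha had ham hax hay
  exact ⟨t, ht, Module.Finite.of_fg_top
    ⟨(Set.finite_range _).toFinset, by rw [Set.Finite.coe_toFinset]; exact hspan⟩⟩

lemma exists_G (ht : Transcendental κ t) (hgen : IntermediateField.adjoin κ {t, x, y} = ⊤)
    {d m : ℕ} (hd : 0 < d) {a : κ[X][X]} (ha : a ≠ 0) (had : a.natDegree ≤ d)
    (ham : ∀ i, (a.coeff i).natDegree ≤ m)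
    (hax : eval₂ (aeval t : κ[X] →ₐ[κ] M).toRingHom x a = 0)
    (hay : eval₂ (aeval t : κ[X] →ₐ[κ] M).toRingHom y a = 0) (h : M) :
    ∃ G : Fin d → Fin d → M, (∀ i j, G i j ∈ κ⟮t⟯) ∧
      h = ∑ i, ∑ j, G i j * (x ^ (i : ℕ) * y ^ (j : ℕ)) := by
  have hspan := span_of_gen ht hgen hd ha had ham hax hay
  have h1 : h ∈ Submodule.span κ⟮t⟯ (Set.range fun b : Fin 2 → Fin d =>
      ∏ j, (![x, y] : Fin 2 → M) j ^ (b j : ℕ)) := by rw [hspan]; trivial
  rw [Submodule.mem_span_range_iff_exists_fun] at h1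
  obtain ⟨c, hc⟩ := h1
  refine ⟨fun i j => (c ![i, j] : κ⟮t⟯), fun i j => Subtype.coe_prop _, ?_⟩
  rw [← hc, ← (finTwoArrowEquiv (Fin d)).symm.sum_comp, Fintype.sum_prod_type]
  apply Finset.sum_congr rfl
  intro i _
  apply Finset.sum_congr rfl
  intro j _
  rw [Fin.prod_univ_two, Algebra.smul_def]
  simp [finTwoArrowEquiv]

end field

end UL
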