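import Mathlib
import Pool.Agent.Helper10.UL.BadPoly
import Pool.Agent.Helper10.UL.Setup
import Pool.Agent.Helper91.Section.FinPlace3
import Pool.Agent.SC.RF

/-!
# Good reduction at the valuation rings above good values of `T`
-/

set_option linter.unusedSectionVars false

universe u

namespace UL

open Polynomial IntermediateField Pool.Agent.Helper37.UL Pool.Agent.Helper91.Sect

lemma spec_map {R S : Type*} [CommRing R] [CommRing S] {d : ℕ} (a : Fin (d + 1) → R) (φ : R →+* S) :
    (spec a).map φ = spec fun i => φ (a i) := by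
  unfold spec
  rw [Polynomial.map_sum]
  refine Finset.sum_congr rfl fun i _ => ?_
  rw [Polynomial.map_mul, Polynomial.map_pow, map_X, map_C]

theorem goodAt_of {C : Type u} [Field C] [CharZero C] {κ : Subfield C} {V : ValuationSubring C}
    (hκV : ∀ c ∈ κ, c ∈ V) {d m : ℕ} (hd : 2 ≤ d) (α : Fin (d + 1) → Fin (m + 1) → κ) {T' : C}
    {t₀ : κ} (hT : V.valuation (T' - t₀) < 1) (hbad : (RR d (fam α)).eval t₀ ≠ 0) {θ : Fin d → C}
    (hθ : Function.Injective θ)
    (hroot : ∀ j, ∑ i, (∑ l, (α i l : C) * T' ^ (l : ℕ)) * θ j ^ (i : ℕ) = 0) :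
    GoodAt V (fun i => ∑ l, (α i l : C) * T' ^ (l : ℕ)) θ := by
  have hTV : T' ∈ V := by
    have h1 : T' - t₀ ∈ V := (V.valuation_le_one_iff _).1 hT.le
    have h2 := V.add_mem _ _ h1 (hκV t₀ t₀.2)
    rwa [sub_add_cancel] at h2
  let ι : κ →+* V := κ.subtype.codRestrict V.toSubring (fun c => hκV c c.2)
  let K := IsLocalRing.ResidueField V
  let π : V →+* K := IsLocalRing.residue V
  let ψ : κ →+* K := π.comp ι
  let TV : V := ⟨T', hTV⟩
  have hπ0 : ∀ x : V, π x = 0 ↔ V.valuation (x : C) < 1 := by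
    intro x
    rw [← V.valuation_lt_one_iff]
    exact IsLocalRing.residue_eq_zero_iff x
  have hπT : π TV = ψ t₀ := by
    rw [← sub_eq_zero]
    change π TV - π (ι t₀) = 0
    rw [← map_sub, hπ0]
    exact hT
  have hK : CharZero K := charZero_of_injective_ringHom ψ.injective
  let aV : Fin (d + 1) → V := fun i => ∑ l, ι (α i l) * TV ^ (l : ℕ)
  have haV : ∀ i, (aV i : C) = ∑ l, (α i l : C) * T' ^ (l : ℕ) := by
    intro i
    change (V.subtype (aV i)) = _
    rw [map_sum]
    refine Finset.sum_congr rfl fun l _ => ?_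
    rw [map_mul, map_pow]
    rfl
  have hπa : ∀ i, π (aV i) = ∑ l, ψ (α i l) * ψ t₀ ^ (l : ℕ) := by
    intro i
    rw [map_sum]
    refine Finset.sum_congr rfl fun l _ => ?_
    rw [map_mul, map_pow, hπT]
    rfl
  let fV : V[X] := spec aV
  have hfV : fV.map π = spec fun i => ∑ l, ψ (α i l) * ψ t₀ ^ (l : ℕ) := by
    rw [spec_map]
    congr 1
    funext i
    exact hπa i
  have hRR : RR d (fV.map π) ≠ 0 := by
    rw [hfV, ← fam_map α ψ (ψ t₀), RR_map]
    change eval₂ ψ (ψ t₀) (RR d (fam α)) ≠ 0
    rw [eval₂_at_apply]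
    exact (_root_.map_ne_zero ψ).mpr hbad
  obtain ⟨hdeg, hsep⟩ := (RR_ne_zero_iff hd (by rw [hfV]; exact natDegree_spec _)).mp hRR
  have hlead : V.valuation (aV (Fin.last d) : C) = 1 := by
    have h1 : π (aV (Fin.last d)) ≠ 0 := by
      have h2 := coeff_spec (fun i => ∑ l, ψ (α i l) * ψ t₀ ^ (l : ℕ)) (Fin.last d)
      rw [Fin.val_last, ← hfV, ← hπa] at h2
      rw [← h2]
      have h0 : fV.map π ≠ 0 := hsep.ne_zero
      have h3 := leadingCoeff_ne_zero.mpr h0
      rwa [leadingCoeff, hdeg] at h3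
    rw [Ne, hπ0, not_lt] at h1
    exact le_antisymm (V.valuation_le_one _) h1
  have hθV : ∀ j, θ j ∈ V := by
    intro j
    by_contra hj
    rw [← V.valuation_le_one_iff, not_le] at hj
    have h1 := hroot j
    rw [Fin.sum_univ_castSucc] at h1
    have h2 : V.valuation (∑ i : Fin d, (∑ l, (α i.castSucc l : C) * T' ^ (l : ℕ)) *
        θ j ^ ((i.castSucc : Fin (d + 1)) : ℕ)) < V.valuation (θ j) ^ d := by
      apply Valuation.map_sum_lt
      · exact pow_ne_zero _ (zero_lt_one.trans hj).ne'
      · intro i _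
        rw [← haV, map_mul, map_pow]
        calc V.valuation (aV i.castSucc : C) * V.valuation (θ j) ^ ((i.castSucc : Fin (d + 1)) : ℕ)
            ≤ 1 * V.valuation (θ j) ^ ((i.castSucc : Fin (d + 1)) : ℕ) :=
              mul_le_mul_left (V.valuation_le_one _) _
          _ = V.valuation (θ j) ^ (i : ℕ) := by rw [one_mul]; rfl
          _ < V.valuation (θ j) ^ d := pow_lt_pow_right₀ hj i.2
    rw [add_eq_zero_iff_eq_neg] at h1
    rw [h1, Valuation.map_neg, ← haV, map_mul, map_pow, hlead, one_mul, Fin.val_last] at h2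
    exact lt_irrefl _ h2
  refine ⟨fun i => ?_, ?_, hθV, ?_⟩
  · rw [← haV]; exact (aV i).2
  · rw [← haV]; exact hlead
  · intro i j hij
    refine le_antisymm ((V.valuation_le_one_iff _).2 (sub_mem (hθV i) (hθV j))) ?_
    by_contra hlt
    rw [not_le] at hlt
    let θV : Fin d → V := fun j => ⟨θ j, hθV j⟩
    have hev : ∀ j, fV.eval (θV j) = 0 := by
      intro j
      apply V.subtype_injective
      rw [eval_spec, map_sum, map_zero, ← hroot j]
      refine Finset.sum_congr rfl fun i _ => ?_
      rw [map_mul, map_pow, ← haV]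
      rfl
    obtain ⟨f₁, hf₁⟩ := dvd_iff_isRoot.mpr (hev i)
    have h1 : f₁.eval (θV j) = 0 := by
      have h2 := hev j
      rw [hf₁, eval_mul, eval_sub, eval_X, eval_C] at h2
      rcases mul_eq_zero.mp h2 with h | h
      · exfalso
        rw [sub_eq_zero] at h
        exact hij (hθ (congrArg Subtype.val h)).symm
      · exact h
    obtain ⟨f₂, hf₂⟩ := dvd_iff_isRoot.mpr h1
    have h3 : π (θV i) = π (θV j) := by
      rw [← sub_eq_zero, ← map_sub, hπ0]
      exact hlt
    have h4 : (X - Polynomial.C (π (θV i))) * (X - Polynomial.C (π (θV i))) ∣ fV.map π := by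
      have h5 : fV.map π = (X - Polynomial.C (π (θV i))) * ((X - Polynomial.C (π (θV i))) *
          f₂.map π) := by
        rw [hf₁, hf₂, Polynomial.map_mul, Polynomial.map_mul, Polynomial.map_sub,
          Polynomial.map_sub, map_X, map_C, map_C, h3]
      rw [h5, ← mul_assoc]
      exact Dvd.intro _ rfl
    exact not_isUnit_X_sub_C _ (hsep.squarefree _ h4)

section places

variable {F k C : Type u} [Field F] [CharZero F] [Field k] [Algebra F k] [Field C] [Algebra k C]
  [IsAlgClosure k C] {T U : k} {κ : Subfield C}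
  (hκ : ∀ c : C, c ∈ κ ↔ IsAlgebraic
    (Subfield.closure (Set.range ((algebraMap k C).comp (algebraMap F k)) ∪
      {algebraMap k C U})) c)
  (hF : ∃ S : Finset F, Subfield.closure (S : Set F) = ⊤)
  (htop : IntermediateField.adjoin F {T, U} = ⊤)

include hF in
omit [CharZero F] in
lemma fg_adjoin : ∃ S : Finset (IntermediateField.adjoin F {U}), Subfield.closure
    (S : Set (IntermediateField.adjoin F {U})) = ⊤ := by
  classical
  obtain ⟨S, hS⟩ := hF
  let K₁ := IntermediateField.adjoin F {U}
  let gU : K₁ := ⟨U, IntermediateField.mem_adjoin_simple_self F U⟩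
  let S₁ : Finset K₁ := insert gU (S.image (algebraMap F K₁))
  refine ⟨S₁, ?_⟩
  rw [eq_top_iff]
  intro z _
  set N := Subfield.closure (S₁ : Set K₁) with hN
  have h1 : (IntermediateField.adjoin F {U} : IntermediateField F k).toSubfield ≤
      N.map (algebraMap K₁ k) := by
    rw [IntermediateField.adjoin_toSubfield, Subfield.closure_le]
    rintro x (⟨y, rfl⟩ | hx)
    · have h2 : Subfield.closure (S : Set F) ≤ N.comap (algebraMap F K₁) := by
        rw [Subfield.closure_le]
        intro b hb
        exact Subfield.subset_closure (Finset.mem_coe.2 (Finset.mem_insert_of_mem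
          (Finset.mem_image_of_mem _ hb)))
      rw [hS] at h2
      exact ⟨algebraMap F K₁ y, h2 (Subfield.mem_top y), rfl⟩
    · rw [Set.mem_singleton_iff.mp hx]
      exact ⟨gU, Subfield.subset_closure (Finset.mem_coe.2 (Finset.mem_insert_self _ _)), rfl⟩
  obtain ⟨z', hz', hzz⟩ := h1 z.2
  have : z' = z := Subtype.ext hzz
  rw [← this]
  exact hz'

include hκ hF htop in
theorem hasPlaces_comap {V : ValuationSubring C} (hκV : ∀ c ∈ κ, c ∈ V) :
    HasPlaces (IsLocalRing.ResidueField (V.comap (algebraMap k C))) := by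
  have h1 : IntermediateField.adjoin (IntermediateField.adjoin F {U}) {T} = ⊤ := by
    have h2 := IntermediateField.adjoin_adjoin_left F ({U} : Set k) {T}
    apply IntermediateField.restrictScalars_injective F
    rw [h2, IntermediateField.restrictScalars_top, ← htop]
    congr 1
    ext x
    simp
  obtain ⟨S, hS⟩ := Pool.Agent.SC.residueField_fg (fg_adjoin (U := U) (k := k) hF) T h1
    (O := V.comap (algebraMap k C)) (fun c => hκV _ (mem_kappa_of_adjoin hκ c.2))
  exact hasPlaces_of_closure hS

include hκ in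
lemma natCast_residue_ne_zero {V : ValuationSubring C} (hκV : ∀ c ∈ κ, c ∈ V) {p : ℕ}
    (hp : p ≠ 0) : ((p : ℕ) : IsLocalRing.ResidueField (V.comap (algebraMap k C))) ≠ 0 := by
  let f : F →+* V.comap (algebraMap k C) := (algebraMap F k).codRestrict
    (V.comap (algebraMap k C)).toSubring (fun c => hκV _ (mem_kappa_F hκ c))
  let φ : F →+* IsLocalRing.ResidueField (V.comap (algebraMap k C)) :=
    (IsLocalRing.residue _).comp f
  rw [← map_natCast φ p]
  exact (_root_.map_ne_zero φ).mpr (Nat.cast_ne_zero.mpr hp)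

end places

end UL
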