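import Mathlib
import Pool.Agent.Helper17.FF.PicDiv
import Pool.Agent.Helper91.Section.SE.Iner
import Pool.Agent.Helper91.Section.Coeff

/-!
# Ramified Kummer classes are moved by inertia
-/

set_option linter.unusedSectionVars false

universe u

namespace UL

open Polynomial VC FF Pool.Agent.Helper91.Sect Pool.Agent.Helper91.SE

/-- If `p` does not divide the order of `w ^ p` at a place, some element of the inertia group of
a valuation ring above this place moves `w`. -/
theorem exists_inert {κ M C : Type u} [Field κ] [IsAlgClosed κ] [Field M] [Field C] [Algebra κ M]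
    [Algebra M C] [IsAlgClosure M C] [CharZero M] (hM : IsFunctionField κ M) (P : Place κ M)
    {p : ℕ} (hp : p.Prime) {δ : M} (hδ : δ ≠ 0) (hord : ¬ (p : ℤ) ∣ ord P.ring δ) {w : C}
    (hw : w ^ p = algebraMap M C δ) :
    ∃ (V : ValuationSubring C) (τ : C ≃ₐ[M] C),
      (∀ x ∈ P.ring, algebraMap M C x ∈ V) ∧
      (∀ x ∈ P.ring.nonunits, V.valuation (algebraMap M C x) < 1) ∧
      (∀ x, τ x ∈ V ↔ x ∈ V) ∧ (∀ x ∈ V, V.valuation (τ x - x) < 1) ∧ τ w ≠ w := by
  have hCa : IsAlgClosed C := IsAlgClosure.isAlgClosed M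
  have hC0 : CharZero C := charZero_of_injective_algebraMap (algebraMap M C).injective
  have hgal : IsGalois M C := inferInstance
  obtain ⟨Q, hQ, hA⟩ := exists_above (k := M) (C := C) (O := P.ring)
  have : NeZero (p : C) := ⟨Nat.cast_ne_zero.mpr hp.ne_zero⟩
  obtain ⟨ζ, hζ⟩ := HasEnoughRootsOfUnity.exists_primitiveRoot C p
  have hodd : ∀ d : M, P.ring.valuation δ ≠ P.ring.valuation d ^ p := by
    intro d hd
    have hd0 : d ≠ 0 := by
      rintro rfl
      rw [map_zero, zero_pow hp.ne_zero, map_eq_zero] at hd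
      exact hδ hd
    rw [← map_pow] at hd
    have hdp : d ^ p ≠ 0 := pow_ne_zero _ hd0
    have h1 : P.ring.valuation (δ / d ^ p) = 1 := by
      rw [map_div₀, hd, div_self]
      exact (Valuation.ne_zero_iff _).mpr hdp
    have hq0 : δ / d ^ p ≠ 0 := div_ne_zero hδ hdp
    have h2 := (ord_nonneg_iff hM P hq0).mpr ((P.ring.valuation_le_one_iff _).1 h1.le)
    have h3 := (ord_nonneg_iff hM P (inv_ne_zero hq0)).mpr ((P.ring.valuation_le_one_iff _).1 (by
      rw [map_inv₀, h1, inv_one]))
    rw [ord_inv hM P hq0] at h3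
    rw [ord_div hM P hδ hdp, ord_pow hM P hd0] at h2 h3
    exact hord ⟨ord P.ring d, by omega⟩
  obtain ⟨τ, hτ, hτw⟩ := exists_inertia_ne Q hA hp hodd hw hζ
  refine ⟨locW Q, τ, ?_, ?_, ?_, ?_, hτw⟩
  · intro x hx
    rw [← ValuationSubring.valuation_le_one_iff]
    exact locW_algebraMap_le ((P.ring.valuation_le_one_iff x).2 hx)
  · intro x hx
    exact locW_algebraMap_lt Q hA (P.ring.mem_nonunits_iff.mp hx)
  · intro x
    exact stab_locW Q hτ.1 x
  · intro x hx
    exact val_inertia Q hτ (((locW Q).valuation_le_one_iff x).2 hx)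

end UL
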