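import Pool.Agent.Helper10.UL.Count
import Pool.Agent.Helper10.UL.Coord
import Pool.Agent.Helper10.UL.Gen2
import Pool.Agent.Helper10.UL.Kom
import Pool.Agent.Helper37.UL.StubA
import Pool.Agent.Helper37.UL.StubF
import Pool.Agent.Helper37.UL.NoFamily

/-!
# Assembly
-/

universe u

namespace UL

open Polynomial Pool.Agent.GC Pool.Agent.HP Pool.Agent.Helper37.UL Pool.Agent.Helper91.Sect

lemma coeff_curvePol {k : Type u} [Field k] {r m d : ℕ} (t : Fin (r + 2) → k)
    (a : Fin (d + 1) × IdxR (r + 2) m → ℤ) (i : Fin (d + 1)) :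
    (curvePol t a).coeff i =
      ∑ l, cT (t 1) (fun j => t j.succ.succ) (fun q => (a q : k)) i l * t 0 ^ (l : ℕ) := by
  rw [← valR_eq]
  unfold curvePol
  rw [finsetSum_coeff]
  simp only [coeff_C_mul_X_pow]
  rw [Finset.sum_eq_single i]
  · rw [if_pos rfl]
  · intro l _ hl
    rw [if_neg]
    intro h
    exact hl (Fin.ext h.symm)
  · intro h; exact absurd (Finset.mem_univ _) h

lemma Lev_mono {C : Type u} [Field C] {k k' : Subfield C} (hk : k ≤ k') {p d : ℕ}
    {a : Fin (d + 1) → C} {θ : Fin d → C} {z : Fin d → Fin d → C} {α : C}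
    (h : Lev k p a θ z α) : Lev k' p a θ z α := by
  obtain ⟨φ, hφ, hpow⟩ := h.pow
  obtain ⟨ψ, hψ, hcoc⟩ := h.coc
  obtain ⟨χ, hχ, hnrm⟩ := h.nrm
  exact ⟨fun i => hk (h.coef i), h.lead, h.inj, h.root, h.ne, ⟨φ, fun r s => hk (hφ r s), hpow⟩,
    ⟨ψ, fun r s t => hk (hψ r s t), hcoc⟩, h.alpha, ⟨χ, fun r => hk (hχ r), hnrm⟩⟩

lemma mem_Kap_iff_gen {F k C : Type u} [Field F] [Field k] [Algebra F k] [Field C] [Algebra k C]
    {U : k} (x : C) :
    x ∈ Kap F k C U ↔ IsAlgebraic (gen (Om F k C) ![algebraMap k C U]) x := by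
  constructor
  · intro hx
    rw [mem_Kap] at hx
    refine isAlgebraic_mono ?_ hx
    rw [Subfield.closure_le, Set.union_subset_iff]
    refine ⟨?_, ?_⟩
    · rintro _ ⟨a, rfl⟩
      exact le_gen (mem_Om_F a)
    · rintro _ hx
      rw [Set.mem_singleton_iff.mp hx]
      exact gen_mem (τ := ![algebraMap k C U]) 0
  · intro hx
    apply Kap_closed
    refine isAlgebraic_mono ?_ hx
    unfold gen
    rw [Subfield.closure_le, Set.union_subset_iff]
    refine ⟨Om_le_Kap, ?_⟩
    rintro _ ⟨i, rfl⟩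
    fin_cases i
    refine mem_Kap.mpr ?_
    exact isAlgebraic_algebraMap (⟨algebraMap k C U, Subfield.subset_closure (Or.inr rfl)⟩ :
      Subfield.closure (Set.range ((algebraMap k C).comp (algebraMap F k)) ∪ {algebraMap k C U}))

/-- The bad vectors are not Zariski dense. -/
theorem exists_key {F₀ k : Type u} [Field F₀] [CharZero F₀] [Field k] [Algebra F₀ k]
    (hF : ∃ S : Finset F₀, Subfield.closure (S : Set F₀) = ⊤) {r : ℕ}
    {t : Fin (r + 2) → k} (ht : AlgebraicIndependent F₀ t)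
    (htop : IntermediateField.adjoin F₀ (Set.range t) = ⊤)
    {d m : ℕ} (hd : 3 ≤ d) (hm : 1 ≤ m) {p : ℕ} (hp : p.Prime) (hpd : p ∣ d) :
    ∃ Ψ : MvPolynomial (Fin (d + 1) × IdxR (r + 2) m) ℤ, Ψ ≠ 0 ∧
      ∀ a : Fin (d + 1) × IdxR (r + 2) m → ℤ, (curvePol t a).natDegree = d →
        (curvePol t a).Separable → SectionP p (curvePol t a) → MvPolynomial.eval a Ψ = 0 := by
  classical
  by_contra hcon
  push Not at hcon
  have hk0 : CharZero k := charZero_of_injective_algebraMap (algebraMap F₀ k).injective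
  let J : Type := {a : Fin (d + 1) × IdxR (r + 2) m → ℤ // (curvePol t a).natDegree = d ∧
    (curvePol t a).Separable ∧ SectionP p (curvePol t a)}
  let vv : J → Fin (d + 1) × IdxR (r + 2) m → ℤ := Subtype.val
  have hS : ∀ Ψ : MvPolynomial (Fin (d + 1) × IdxR (r + 2) m) ℤ, Ψ ≠ 0 →
      ∃ j, MvPolynomial.eval (vv j) Ψ ≠ 0 := by
    intro Ψ hΨ
    obtain ⟨a, h1, h2, h3, h4⟩ := hcon Ψ hΨ
    exact ⟨⟨a, h1, h2, h3⟩, h4⟩
  obtain ⟨F, hFfg, htF, hTU, hTUtop⟩ := fin_coord hF ht htop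
  have hF0 : CharZero F := charZero_of_injective_algebraMap (algebraMap F₀ F).injective
  let C : Type u := AlgebraicClosure k
  have hC0 : CharZero C := charZero_of_injective_algebraMap (algebraMap k C).injective
  -- level one structures
  have hA : ∀ j : J, ∃ (θ : Fin d → C) (z : Fin d → Fin d → C) (α : C),
      Lev (algebraMap k C).fieldRange p
        (fun i : Fin (d + 1) => algebraMap k C (∑ l, cT (t 1) (fun j => t j.succ.succ)
          (fun q => (vv j q : k)) i l * t 0 ^ (l : ℕ))) θ z α ∧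
      ∀ V : ValuationSubring C,
        HasPlaces (IsLocalRing.ResidueField (V.comap (algebraMap k C))) →
        ((p : ℕ) : IsLocalRing.ResidueField (V.comap (algebraMap k C))) ≠ 0 →
        GoodAt V (fun i : Fin (d + 1) => algebraMap k C (∑ l, cT (t 1) (fun j => t j.succ.succ)
          (fun q => (vv j q : k)) i l * t 0 ^ (l : ℕ))) θ →
        ∀ σ : C ≃+* C, Inert (algebraMap k C).fieldRange V σ →
          ∀ i j, i ≠ j → σ (z i j) = z i j := by
    rintro ⟨a, h1, h2, K, _, _, x, y, hx, hxy, ⟨s⟩⟩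
    obtain ⟨θ, z, α, h3, h4⟩ := exists_lev hp hpd hd h2 h1 hx hxy s C
    simp only [coeff_curvePol] at h3 h4
    exact ⟨θ, z, α, h3, h4⟩
  choose θ z α hlev hin using hA
  obtain ⟨B, -, hB⟩ := exists_data.{u} d m p hp hd
  have hmapT : ∀ (j : J) (i : Fin (d + 1)) (l : Fin (m + 1)),
      algebraMap k C (cT (t 1) (fun j => t j.succ.succ) (fun q => (vv j q : k)) i l) =
      cT (algebraMap k C (t 1)) (fun j => algebraMap k C (t j.succ.succ))
        (fun q => (vv j q : C)) i l := by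
    intro j i l
    rw [map_cT]
    simp only [map_intCast]
  have hcl : Subfield.closure ((Kap F k C (t 1) : Set C) ∪ {algebraMap k C (t 0)}) =
      gen (Kap F k C (t 1)) ![algebraMap k C (t 0)] := by
    unfold gen
    rw [Matrix.range_cons, Matrix.range_empty, Set.union_empty]
  refine no_family (C := C) (J := J) (B := B) hp hd hm (vv := vv) hS (Ω := Om F k C)
    (κ := Kap F k C (t 1)) (fun x => Om_closed) (fun x => Kap_closed) Om_le_Kap
    (T := algebraMap k C (t 0)) (u := algebraMap k C (t 1)) (algInd_Om2 hTU) ?_ (algInd_Kap hTU)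
    (w := fun j => algebraMap k C (t j.succ.succ)) (fun j => ?_) (isAlgebraic_gen hTUtop)
    mem_Kap_iff_gen (θ := θ) (z := z) (α := α) (fun j => ?_) (fun j i i' hii => ?_)
  · exact mem_kappa_U (κ := Kap F k C (t 1)) (fun c => mem_Kap)
  · exact mem_Om_F (⟨t j.succ.succ, htF j⟩ : F)
  · have h1 := Lev_mono (range_le_gen (C := C) hTUtop) (hlev j)
    simpa only [map_sum, map_mul, map_pow, hmapT] using h1
  · have h1 := hB hFfg hTU hTUtop (Kap F k C (t 1)) (fun c => mem_Kap)
      (fun i l => cT (t 1) (fun j => t j.succ.succ) (fun q => (vv j q : k)) i l)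
      (fun i l => cT_mem (fun j => ⟨(⟨t j.succ.succ, htF j⟩ : F), rfl⟩) _ i l)
      (hlev j) (hin j) i i' hii
    simp only [hmapT] at h1
    rw [hcl] at h1
    exact h1

/-- **No sections in degrees which are not prime to `d`, for 100 percent of the curves.** -/
theorem no_sections_percent {F₀ k : Type u} [Field F₀] [CharZero F₀] [Field k] [Algebra F₀ k]
    (hF : ∃ S : Finset F₀, Subfield.closure (S : Set F₀) = ⊤) {r : ℕ}
    {t : Fin (r + 2) → k} (ht : AlgebraicIndependent F₀ t)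
    (htop : IntermediateField.adjoin F₀ (Set.range t) = ⊤)
    {d m : ℕ} (hd : 3 ≤ d) (hm : 1 ≤ m) :
    ∃ C : ℕ, ∀ H : ℕ,
      {a : Fin (d + 1) × IdxR (r + 2) m → ℤ | (∀ i, |a i| ≤ H) ∧
        ¬ HasNoSections d (curvePol t a)}.ncard ≤
        C * (2 * H + 1) ^ (Fintype.card (Fin (d + 1) × IdxR (r + 2) m) - 1) :=
  count_of_key hF ht htop hd hm fun _ hp hpd => exists_key hF ht htop hd hm hp hpd

end UL
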