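import Pool.Agent.Helper37.TH.Split

/-!
# Elements which are regular at a point
-/

universe u

namespace TH

open Polynomial

/-- `q` is unramified and split at `T = 0` over the constants, the elements `w l` are in the field generated by
the constants, `T` and `q`, they are regular at all points above `T = 0`, and `w 0` does not vanish there. -/
def SplitW {S : Type u} [Field S] (kc : Subfield S) (T q : S) {m : ℕ} (w : Fin (m + 1) → S) : Prop :=
  ∃ (e : ℕ) (P : Fin e → kc[X]) (r : Fin e → kc) (h : kc[X]) (R : Fin (m + 1) → kc[X][X]),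
    Function.Injective r ∧
    (∀ j, r j ^ e + ∑ i, (P i).eval 0 * r j ^ (i : ℕ) = 0) ∧
    q ^ e + ∑ i, aeval T (P i) * q ^ (i : ℕ) = 0 ∧
    h.eval 0 ≠ 0 ∧
    (∀ l, aeval T h * w l = eval₂ (aeval T : kc[X] →ₐ[kc] S).toRingHom q (R l)) ∧
    ∀ j, eval₂ (evalRingHom 0) (r j) (R 0) ≠ 0

theorem SplitW.splitAt {S : Type u} [Field S] {kc : Subfield S} {T q : S} {m : ℕ}
    {w : Fin (m + 1) → S} (H : SplitW kc T q w) : SplitAt kc T q := by
  obtain ⟨e, P, r, h, R, h1, h2, h3, -, -, -⟩ := H
  exact ⟨e, P, r, h1, h2, h3⟩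

end TH
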