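import Pool.Agent.Helper10.UL.Choice
import Pool.Agent.Helper10.UL.SplitW

/-!
# The choice of a generator and of a point
-/

universe u v

namespace UL

open Polynomial

/-- A separable polynomial over `F(T)` with coefficients in `F[T]` is separable at almost all points. -/
theorem exists_separable_disc {F : Type u} [Field F] {M : F[X][X]}
    (hM : (M.map (algebraMap F[X] (FractionRing F[X]))).Separable) :
    ∃ D : F[X], D ≠ 0 ∧ ∀ c : F, D.eval c ≠ 0 → (M.map (evalRingHom c)).Separable := by
  classical
  set K := FractionRing F[X]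
  obtain ⟨A, B, hAB⟩ := hM
  obtain ⟨a, haM, ha⟩ := IsLocalization.integerNormalization_spec (nonZeroDivisors F[X]) A
  obtain ⟨b, hbM, hb⟩ := IsLocalization.integerNormalization_spec (nonZeroDivisors F[X]) B
  set A' := IsLocalization.integerNormalization (nonZeroDivisors F[X]) A
  set B' := IsLocalization.integerNormalization (nonZeroDivisors F[X]) B
  have ha' : A'.map (algebraMap F[X] K) = C (algebraMap F[X] K a) * A := by
    rw [ha, ← smul_eq_C_mul, algebraMap_smul]
  have hb' : B'.map (algebraMap F[X] K) = C (algebraMap F[X] K b) * B := by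
    rw [hb, ← smul_eq_C_mul, algebraMap_smul]
  have ha0 : a ≠ 0 := nonZeroDivisors.ne_zero haM
  have hb0 : b ≠ 0 := nonZeroDivisors.ne_zero hbM
  have hinj : Function.Injective (algebraMap F[X] K) := IsFractionRing.injective _ _
  have key : C b * A' * M + C a * B' * derivative M = C (a * b) := by
    apply Polynomial.map_injective _ hinj
    rw [Polynomial.map_add, Polynomial.map_mul, Polynomial.map_mul, Polynomial.map_mul,
      Polynomial.map_mul, ha', hb', map_C, map_C, map_C, ← derivative_map, map_mul, C_mul,
      ← mul_one (C (algebraMap F[X] K a) * C (algebraMap F[X] K b)), ← hAB]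
    ring
  refine ⟨a * b, mul_ne_zero ha0 hb0, fun c hc => ?_⟩
  have h1 := congrArg (Polynomial.map (evalRingHom c)) key
  rw [Polynomial.map_add, Polynomial.map_mul, Polynomial.map_mul, Polynomial.map_mul,
    Polynomial.map_mul, map_C, map_C, map_C, ← derivative_map, coe_evalRingHom] at h1
  refine ⟨C ((a * b).eval c)⁻¹ * (C (b.eval c) * A'.map (evalRingHom c)),
    C ((a * b).eval c)⁻¹ * (C (a.eval c) * B'.map (evalRingHom c)), ?_⟩
  have h2 : C ((a * b).eval c)⁻¹ * (C (b.eval c) * A'.map (evalRingHom c)) *
      M.map (evalRingHom c) + C ((a * b).eval c)⁻¹ * (C (a.eval c) * B'.map (evalRingHom c)) *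
      derivative (M.map (evalRingHom c)) = C ((a * b).eval c)⁻¹ *
      (C (b.eval c) * A'.map (evalRingHom c) * M.map (evalRingHom c) +
      C (a.eval c) * B'.map (evalRingHom c) * derivative (M.map (evalRingHom c))) := by ring
  rw [h2, h1, ← C_mul, inv_mul_cancel₀ hc, C_1]

/-- Elements of a field generated by `q` over the field of fractions of `R` have denominators in `R`. -/
theorem exists_denom {R K k : Type*} [CommRing R] [IsDomain R] [Field K] [Algebra R K]
    [IsFractionRing R K] [Field k] [Algebra R k] [Algebra K k] [IsScalarTower R K k] {q : k}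
    (hq : IsAlgebraic K q) (x : k) (hx : x ∈ IntermediateField.adjoin K {q}) :
    ∃ (h : R) (S : R[X]), h ≠ 0 ∧ algebraMap R k h * x = aeval q S := by
  have h1 : x ∈ Algebra.adjoin K {q} := by
    rw [← IntermediateField.adjoin_simple_toSubalgebra_of_isAlgebraic hq]
    exact hx
  rw [Algebra.adjoin_singleton_eq_range_aeval] at h1
  obtain ⟨P, hP⟩ := h1
  obtain ⟨b, hbM, hb⟩ := IsLocalization.integerNormalization_spec (nonZeroDivisors R) P
  refine ⟨b, IsLocalization.integerNormalization (nonZeroDivisors R) P,
    nonZeroDivisors.ne_zero hbM, ?_⟩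
  have h2 : aeval q (IsLocalization.integerNormalization (nonZeroDivisors R) P) =
      aeval q ((IsLocalization.integerNormalization (nonZeroDivisors R) P).map
        (algebraMap R K)) := by
    rw [aeval_map_algebraMap]
  rw [h2, hb, ← hP, ← algebraMap_smul K b P, map_smul, Algebra.smul_def,
    ← IsScalarTower.algebraMap_apply R K k]
  rfl

/-- **The choice of the generator and of the point.** -/
theorem exists_splitW {F k C : Type u} [Field F] [CharZero F] [Field k] [Algebra F k] [Field C]
    [Algebra k C] [IsAlgClosure k C] [Algebra F C] [IsScalarTower F k C] {T : k}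
    (hT : Transcendental F T) [FiniteDimensional (IntermediateField.adjoin F {T}) k]
    {κ : Subfield C} (hκ : ∀ c : C, c ∈ κ ↔ IsAlgebraic F c) {m : ℕ} (w : Fin (m + 1) → k)
    (hw : w 0 ≠ 0) :
    ∃ (c : ℕ) (q : k), IntermediateField.adjoin F {T, q} = ⊤ ∧
      IsAlgebraic (IntermediateField.adjoin F {T}) q ∧
      TH.SplitW κ (algebraMap k C (T - c)) (algebraMap k C q) (fun l => algebraMap k C (w l)) := by
  classical
  have hk0 : CharZero k := charZero_of_injective_algebraMap (algebraMap F k).injective
  have hκcl : IsAlgClosed κ := Pool.Agent.TD.kappa_closed_one k hκ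
  obtain ⟨α, hα⟩ := Field.exists_primitive_element (IntermediateField.adjoin F {T}) k
  -- the structures
  let _ : Algebra F[X] k := (aeval T : F[X] →ₐ[F] k).toRingHom.toAlgebra
  have hRk : ∀ P : F[X], algebraMap F[X] k P = aeval T P := fun _ => rfl
  have hinj : Function.Injective (algebraMap F[X] k) := transcendental_iff_injective.1 hT
  let K := FractionRing F[X]
  let _ : Algebra K k := (IsFractionRing.lift hinj : K →+* k).toAlgebra
  have hst : IsScalarTower F[X] K k := IsScalarTower.of_algebraMap_eq fun P =>
    (IsFractionRing.lift_algebraMap hinj P).symm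
  have hL : (IntermediateField.adjoin F {T}).toSubfield ≤ (algebraMap K k).fieldRange := by
    rw [IntermediateField.adjoin_toSubfield, Subfield.closure_le]
    rintro x (⟨y, rfl⟩ | hx)
    · refine ⟨algebraMap F[X] K (Polynomial.C y), ?_⟩
      rw [← IsScalarTower.algebraMap_apply F[X] K k, hRk, aeval_C]
    · rw [Set.mem_singleton_iff.mp hx]
      refine ⟨algebraMap F[X] K X, ?_⟩
      rw [← IsScalarTower.algebraMap_apply F[X] K k, hRk, aeval_X]
  have halg : ∀ x : k, IsAlgebraic K x := by
    intro x
    have h1 : IsAlgebraic (IntermediateField.adjoin F {T}) x := Algebra.IsAlgebraic.isAlgebraic x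
    have h2 : IsAlgebraic (IntermediateField.adjoin F {T}).toSubfield x := h1
    exact Pool.Agent.TD.isAlgebraic_range_iff.1 (Pool.Agent.Helper37.UL.isAlgebraic_mono hL h2)
  have halgR : IsAlgebraic F[X] α := (IsFractionRing.isAlgebraic_iff F[X] K k).2 (halg α)
  obtain ⟨b, hb0, hint⟩ := halgR.exists_integral_multiple
  set q : k := b • α with hq
  have hqb : q = aeval T b * α := by rw [hq, Algebra.smul_def, hRk]
  have hb0' : aeval T b ≠ 0 := by
    rw [← hRk, Ne, map_eq_zero_iff _ hinj]
    exact hb0
  -- generation
  have hgen : IntermediateField.adjoin F {T, q} = ⊤ := by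
    set E := IntermediateField.adjoin F {T, q} with hE
    have hTE : T ∈ E := IntermediateField.subset_adjoin F _ (by simp)
    have hqE : q ∈ E := IntermediateField.subset_adjoin F _ (by simp)
    have hLE : IntermediateField.adjoin F {T} ≤ E := by
      rw [IntermediateField.adjoin_simple_le_iff]
      exact hTE
    have hbE : aeval T b ∈ E := hLE (IntermediateField.algebra_adjoin_le_adjoin F {T}
      (aeval_mem_adjoin_singleton F T))
    have hαE : α ∈ E := by
      have h1 : α = (aeval T b)⁻¹ * q := by
        rw [hqb, inv_mul_cancel_left₀ hb0']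
      rw [h1]
      exact mul_mem (inv_mem hbE) hqE
    rw [eq_top_iff]
    intro x _
    have h1 : (IntermediateField.adjoin (IntermediateField.adjoin F {T}) {α}).toSubfield ≤
        E.toSubfield := by
      rw [IntermediateField.adjoin_toSubfield, Subfield.closure_le]
      rintro x (⟨y, rfl⟩ | hx)
      · exact hLE y.2
      · rw [Set.mem_singleton_iff.mp hx]
        exact hαE
    rw [hα] at h1
    exact h1 (Subfield.mem_top x)
  have hgenK : ∀ x : k, x ∈ IntermediateField.adjoin K {q} := by
    intro x
    have h1 : (IntermediateField.adjoin F {T, q}).toSubfield ≤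
        (IntermediateField.adjoin K {q}).toSubfield := by
      rw [IntermediateField.adjoin_toSubfield, Subfield.closure_le]
      rintro x (⟨y, rfl⟩ | (hx | hx))
      · have h2 : algebraMap F k y = algebraMap K k (algebraMap F[X] K (Polynomial.C y)) := by
          rw [← IsScalarTower.algebraMap_apply F[X] K k, hRk, aeval_C]
        rw [h2]
        exact (IntermediateField.adjoin K {q}).algebraMap_mem _
      · have h2 : x = algebraMap K k (algebraMap F[X] K X) := by
          rw [← IsScalarTower.algebraMap_apply F[X] K k, hRk, aeval_X, hx]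
        have h3 := (IntermediateField.adjoin K {q}).algebraMap_mem (algebraMap F[X] K X)
        rw [← h2] at h3
        exact h3
      · rw [Set.mem_singleton_iff.mp hx]
        exact IntermediateField.mem_adjoin_simple_self K q
    rw [hgen] at h1
    exact h1 (Subfield.mem_top x)
  -- the minimal polynomial
  set M : F[X][X] := minpoly F[X] q with hM
  have hMmonic : M.Monic := minpoly.monic hint
  have hMK : M.map (algebraMap F[X] K) = minpoly K q :=
    (minpoly.isIntegrallyClosed_eq_field_fractions K k hint).symm
  have hMsep : (M.map (algebraMap F[X] (FractionRing F[X]))).Separable := by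
    rw [hMK]
    exact (minpoly.irreducible (halg q).isIntegral).separable
  obtain ⟨D, hD0, hD⟩ := exists_separable_disc hMsep
  -- the denominators
  choose hh S hh0 hS using fun x : k => exists_denom (R := F[X]) (halg q) x (hgenK x)
  let H : F[X] := ∏ l, hh (w l)
  have hH0 : H ≠ 0 := Finset.prod_ne_zero_iff.mpr fun l _ => hh0 _
  let R : Fin (m + 1) → F[X][X] := fun l => Polynomial.C (∏ l' ∈ Finset.univ.erase l, hh (w l')) * S (w l)
  have hR : ∀ l, aeval T H * w l = aeval q (R l) := by
    intro l
    simp only [R, H]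
    rw [map_mul, aeval_C, ← hS, hRk, hRk, ← mul_assoc, ← map_mul, mul_comm (∏ _ ∈ _, _),
      Finset.mul_prod_erase Finset.univ (fun l => hh (w l)) (Finset.mem_univ l)]
  -- the inverse of `w 0`
  set R' := S (w 0)⁻¹ with hR'
  set H' := hh (w 0)⁻¹ with hH'
  have hH'0 : H' ≠ 0 := hh0 _
  have hinv : aeval q (R 0 * R' - Polynomial.C (H * H')) = 0 := by
    rw [map_sub, map_mul, ← hR, hR', ← hS, aeval_C, hRk, hRk, map_mul, ← hH']
    have h1 : w 0 * (w 0)⁻¹ = 1 := mul_inv_cancel₀ hw
    linear_combination (aeval T H * aeval T H') * h1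
  have htf : Module.IsTorsionFree F[X] k := Module.isTorsionFree_iff_algebraMap_injective.2 hinj
  obtain ⟨Q, hQ⟩ := minpoly.isIntegrallyClosed_dvd hint hinv
  -- the point
  obtain ⟨c, hc⟩ : ∃ c : ℕ, (D * H * H').eval (c : F) ≠ 0 := by
    by_contra hcon
    push Not at hcon
    refine mul_ne_zero (mul_ne_zero hD0 hH0) hH'0 (eq_zero_of_infinite_isRoot _ ?_)
    exact Set.infinite_of_injective_forall_mem (f := fun c : ℕ => (c : F)) Nat.cast_injective hcon
  rw [eval_mul, eval_mul] at hc
  have hDc : D.eval (c : F) ≠ 0 := fun h => hc (by rw [h, zero_mul, zero_mul])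
  have hHc : H.eval (c : F) ≠ 0 := fun h => hc (by rw [h, mul_zero, zero_mul])
  have hH'c : H'.eval (c : F) ≠ 0 := fun h => hc (by rw [h, mul_zero])
  have hsep := hD _ hDc
  set e := M.natDegree with he
  -- the constants
  have hFκ : ∀ a : F, algebraMap F C a ∈ κ := fun a => (hκ _).2 (isAlgebraic_algebraMap a)
  let φ : F →+* κ := (algebraMap F C).codRestrict κ.toSubring hFκ
  let ρ : F[X] →+* κ[X] := (compRingHom (X + Polynomial.C (φ c))).comp (mapRingHom φ)
  have hρ : ∀ p : F[X], ρ p = (p.map φ).comp (X + Polynomial.C (φ c)) := fun _ => rfl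
  have hρ0 : (evalRingHom (0 : κ)).comp ρ = φ.comp (evalRingHom (c : F)) := by
    apply Polynomial.ringHom_ext
    · intro a
      simp [hρ]
    · simp [hρ]
  have hφC : algebraMap κ C (φ c) = algebraMap k C (c : k) := by
    rw [map_natCast, map_natCast, map_natCast]
  have hρT : ((aeval (algebraMap k C (T - c)) : κ[X] →ₐ[κ] C).toRingHom).comp ρ =
      (algebraMap k C).comp (algebraMap F[X] k) := by
    apply Polynomial.ringHom_ext
    · intro a
      have h3 : algebraMap κ C (φ a) = algebraMap k C (algebraMap F k a) := by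
        rw [← IsScalarTower.algebraMap_apply]
        rfl
      change aeval (algebraMap k C (T - c)) (ρ (Polynomial.C a)) = algebraMap k C (aeval T (Polynomial.C a))
      rw [hρ, map_C, C_comp, aeval_C, aeval_C, h3]
    · change aeval (algebraMap k C (T - c)) (ρ X) = algebraMap k C (aeval T X)
      rw [hρ, map_X, X_comp, aeval_X, map_add, aeval_X, aeval_C, hφC, ← map_add, sub_add_cancel]
  let P : Fin e → κ[X] := fun i => ρ (M.coeff i)
  let p : κ[X] := (M.map (evalRingHom (c : F))).map φ
  have hpmonic : p.Monic := (hMmonic.map _).map _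
  have hpe : p.natDegree = e := by
    rw [natDegree_map, hMmonic.natDegree_map]
  have hpsep : p.Separable := hsep.map
  have hcard : p.roots.toFinset.card = e := by
    rw [Multiset.toFinset_card_of_nodup (nodup_roots hpsep), ← hpe]
    exact splits_iff_card_roots.mp (IsAlgClosed.splits p)
  let ε : Fin e ≃ p.roots.toFinset := (Finset.equivFinOfCardEq hcard).symm
  have hεroot : ∀ j, eval₂ (φ.comp (evalRingHom (c : F))) (ε j : κ) M = 0 := by
    intro j
    have h1 := (ε j).2
    rw [Multiset.mem_toFinset, mem_roots hpmonic.ne_zero, IsRoot.def] at h1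
    rw [← eval₂_map, ← eval_map]
    exact h1
  refine ⟨c, q, hgen, Algebra.IsAlgebraic.isAlgebraic q, e, P, fun j => (ε j : κ), ρ H,
    fun l => (R l).map ρ, ?_, ?_, ?_, ?_, ?_, ?_⟩
  · intro a a' haa
    exact ε.injective (Subtype.ext haa)
  · intro j
    refine Eq.trans ?_ ((eval_monic hMmonic ((φ : F →+* κ).comp (evalRingHom (c : F)))
      (ε j : κ)).symm.trans (hεroot j))
    congr 1
    refine Finset.sum_congr rfl fun i _ => ?_
    congr 1
    exact congrArg (fun f : F[X] →+* κ => f (M.coeff i)) hρ0
  · have h1 : eval₂ (algebraMap F[X] k) q M = 0 := minpoly.aeval F[X] q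
    have h2 := congrArg (algebraMap k C) h1
    rw [map_zero, hom_eval₂, ← hρT, eval_monic hMmonic] at h2
    exact h2
  · have h1 := congrArg (fun f : F[X] →+* κ => f H) hρ0
    change (ρ H).eval 0 = φ (H.eval (c : F)) at h1
    rw [h1]
    exact (_root_.map_ne_zero φ).mpr hHc
  · intro l
    have h1 : algebraMap k C (aeval q (R l)) =
        eval₂ ((algebraMap k C).comp (algebraMap F[X] k)) (algebraMap k C q) (R l) := by
      rw [aeval_def, hom_eval₂]
    have h2 : (aeval (algebraMap k C (T - c)) : κ[X] →ₐ[κ] C) (ρ H) =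
        algebraMap k C (aeval T H) := congrArg (fun f : F[X] →+* C => f H) hρT
    change (aeval (algebraMap k C (T - c)) : κ[X] →ₐ[κ] C) (ρ H) * algebraMap k C (w l) =
      eval₂ (aeval (algebraMap k C (T - c)) : κ[X] →ₐ[κ] C).toRingHom (algebraMap k C q)
        ((R l).map ρ)
    rw [h2, ← map_mul, hR, h1, ← hρT, ← eval₂_map]
  · intro j h0
    have h1 := congrArg (eval₂ (φ.comp (evalRingHom (c : F))) (ε j : κ)) hQ
    rw [eval₂_mul, hεroot j, zero_mul, eval₂_sub, eval₂_mul, eval₂_C] at h1
    have h2 : eval₂ (φ.comp (evalRingHom (c : F))) (ε j : κ) (R 0) = 0 := by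
      rw [← hρ0, ← eval₂_map]
      exact h0
    rw [h2, zero_mul, zero_sub, neg_eq_zero] at h1
    have h3 : φ ((H * H').eval (c : F)) = 0 := h1
    rw [map_eq_zero, eval_mul] at h3
    exact mul_ne_zero hHc hH'c h3

end UL
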