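import Pool.Agent.Helper37.TH.Gauss

/-!
# Relative algebraic closedness and several indeterminates
-/

universe u

namespace UL

open Polynomial Pool.Agent.Helper37.UL

variable {S : Type u} [Field S]

lemma gen_zero {A : Subfield S} {τ : Fin 0 → S} : gen A τ = A := by
  apply le_antisymm
  · unfold gen
    rw [Subfield.closure_le, Set.union_subset_iff]
    refine ⟨fun x hx => hx, ?_⟩
    rintro _ ⟨i, rfl⟩
    exact i.elim0
  · exact le_gen

lemma gen_succ {n : ℕ} {A : Subfield S} {τ : Fin (n + 1) → S} :
    gen A τ = gen (gen A fun i : Fin n => τ i.succ) ![τ 0] := by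
  apply le_antisymm
  · conv_lhs => unfold gen
    rw [Subfield.closure_le, Set.union_subset_iff]
    refine ⟨fun x hx => le_gen (le_gen hx), ?_⟩
    rintro _ ⟨i, rfl⟩
    refine Fin.cases ?_ (fun i => ?_) i
    · exact gen_mem (τ := ![τ 0]) 0
    · exact le_gen (gen_mem (τ := fun i : Fin n => τ i.succ) i)
  · conv_lhs => unfold gen
    rw [Subfield.closure_le, Set.union_subset_iff]
    constructor
    · change Subfield.closure _ ≤ _
      rw [Subfield.closure_le, Set.union_subset_iff]
      refine ⟨fun x hx => le_gen hx, ?_⟩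
      rintro _ ⟨i, rfl⟩
      exact gen_mem i.succ
    · rintro _ ⟨i, rfl⟩
      rw [Subsingleton.elim i 0]
      exact gen_mem (τ := τ) 0

lemma transc_gen {n : ℕ} {A : Subfield S} {τ : Fin (n + 1) → S} (h : AlgebraicIndependent A τ) :
    Transcendental (gen A fun i : Fin n => τ i.succ) (τ 0) := by
  let φ : Fin 1 ⊕ Fin n → Fin (n + 1) := Sum.elim (fun _ => 0) Fin.succ
  have hφ : Function.Injective φ := by
    rintro (i | i) (j | j) hij
    · rw [Subsingleton.elim i j]
    · exact absurd hij.symm (Fin.succ_ne_zero j)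
    · exact absurd hij (Fin.succ_ne_zero i)
    · exact congrArg Sum.inr (Fin.succ_injective n hij)
  have h1 := h.comp φ hφ
  have e : τ ∘ φ = Sum.elim (fun _ : Fin 1 => τ 0) (fun i : Fin n => τ i.succ) := by
    funext i
    rcases i with i | i <;> rfl
  rw [e] at h1
  have h2 := (AlgebraicIndependent.sumElim_iff.1 h1).2
  have h3 : AlgebraicIndependent
      (IntermediateField.adjoin A (Set.range fun i : Fin n => τ i.succ)) (fun _ : Fin 1 => τ 0) :=
    IntermediateField.algebraicIndependent_adjoin_iff.2 h2
  intro h4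
  apply h3.transcendental 0
  have h5 : gen A (fun i : Fin n => τ i.succ) ≤
      (IntermediateField.adjoin A (Set.range fun i : Fin n => τ i.succ)).toSubfield := by
    unfold gen
    rw [Subfield.closure_le, Set.union_subset_iff]
    refine ⟨fun x hx => IntermediateField.algebraMap_mem _ (⟨x, hx⟩ : A), ?_⟩
    exact IntermediateField.subset_adjoin A _
  exact isAlgebraic_mono h5 h4

/-- **Gauss' lemma for several indeterminates.** -/
theorem gauss_n [CharZero S] {K M : Subfield S} (hKM : K ≤ M)
    (hrel : ∀ x ∈ M, IsAlgebraic K x → x ∈ K) {n : ℕ} {τ : Fin n → S}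
    (hτ : AlgebraicIndependent M τ) {x : S} (hx : x ∈ gen M τ) (halg : IsAlgebraic (gen K τ) x) :
    x ∈ gen K τ := by
  induction n generalizing x with
  | zero =>
    rw [gen_zero] at hx halg ⊢
    exact hrel x hx halg
  | succ n ih =>
    rw [gen_succ] at hx halg ⊢
    have hτ' : AlgebraicIndependent M (fun i : Fin n => τ i.succ) :=
      hτ.comp Fin.succ (Fin.succ_injective n)
    refine TH.gauss ?_ (fun y hy hy' => ih hτ' hy hy') (transc_gen hτ) hx halg
    unfold gen
    rw [Subfield.closure_le, Set.union_subset_iff]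
    exact ⟨fun y hy => Subfield.subset_closure (Or.inl (hKM hy)),
      fun y hy => Subfield.subset_closure (Or.inr hy)⟩

end UL
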