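import Mathlib
import Pool.Agent.Helper10.UL.Gen2

/-!
# The generic curve with coefficients in a field of constants
-/

universe u v w

namespace UL

open Polynomial Pool.Agent.GC Pool.Agent.Helper37.UL

/-- An ultrafilter on the index set whose generic point is algebraically independent over `ℤ`. -/
theorem exists_ultraZ {I : Type} {J : Type v} {C : Type u} [Field C] (vv : J → I → C)
    (hS : ∀ Ψ : MvPolynomial I ℤ, Ψ ≠ 0 → ∃ j, MvPolynomial.aeval (vv j) Ψ ≠ 0) :
    ∃ U : Ultrafilter J, ∀ Ψ : MvPolynomial I ℤ, Ψ ≠ 0 →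
      ∀ᶠ j in (U : Filter J), MvPolynomial.aeval (vv j) Ψ ≠ 0 := by
  classical
  let 𝒮 : Set (Set J) := {A | ∃ Ψ : MvPolynomial I ℤ, Ψ ≠ 0 ∧
    A = {j | MvPolynomial.aeval (vv j) Ψ ≠ 0}}
  obtain ⟨U, hU⟩ := Ultrafilter.exists_ultrafilter_of_finite_inter_nonempty 𝒮 (by
    intro T hT
    have hT' : ∀ A ∈ T, ∃ Ψ : MvPolynomial I ℤ, Ψ ≠ 0 ∧
      A = {j | MvPolynomial.aeval (vv j) Ψ ≠ 0} := fun A hA => hT hA
    choose! Ψ hΨ0 hΨ using hT'
    obtain ⟨j, ha0⟩ := hS (∏ A ∈ T, Ψ A) (Finset.prod_ne_zero_iff.mpr hΨ0)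
    rw [map_prod, Finset.prod_ne_zero_iff] at ha0
    refine ⟨j, ?_⟩
    rw [Set.mem_sInter]
    intro A hA
    rw [hΨ A hA]
    exact ha0 A hA)
  exact ⟨U, fun Ψ hΨ => hU ⟨Ψ, hΨ, rfl⟩⟩

/-- specialising valuation rings -/
theorem exists_W_ind {S : Type w} [Field S] [CharZero S] {I : Type} {x : I → S}
    (hx : AlgebraicIndependent ℤ x) {Λ : Subfield S} (hxΛ : ∀ i, x i ∈ Λ) {n : ℕ} {y : Fin n → S}
    (hy : AlgebraicIndependent Λ y) (nn : I → ℤ) :
    ∃ W : ValuationSubring S, ResZero W ∧ (∀ j, y j ∈ W) ∧ (∀ i, x i ∈ W) ∧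
      ∀ i, W.valuation (x i - nn i) < 1 := by
  have hZQ : Algebra.IsAlgebraic ℤ ℚ := IsLocalization.isAlgebraic (R := ℤ) (S := ℚ) (nonZeroDivisors ℤ)
  have hx' : AlgebraicIndependent ℚ x := hx.extendScalars ℚ
  -- `y` is algebraically independent over `ℚ[x]`
  have hy' : AlgebraicIndependent (Algebra.adjoin ℚ (Set.range x)) y := by
    have hle : ∀ a : S, a ∈ Algebra.adjoin ℚ (Set.range x) → a ∈ Λ := by
      intro a ha
      have h1 : Algebra.adjoin ℚ (Set.range x) ≤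
          { Λ.toSubring with
            algebraMap_mem' := fun q => (by
              have : algebraMap ℚ S q = (q : S) := rfl
              rw [this]
              exact SubfieldClass.ratCast_mem Λ q : algebraMap ℚ S q ∈ Λ) } := by
        rw [Algebra.adjoin_le_iff]
        rintro _ ⟨i, rfl⟩
        exact hxΛ i
      exact h1 ha
    let _ : Algebra (Algebra.adjoin ℚ (Set.range x)) Λ := RingHom.toAlgebra
      { toFun := fun a => ⟨a, hle a a.2⟩
        map_one' := rfl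
        map_mul' := fun _ _ => rfl
        map_zero' := rfl
        map_add' := fun _ _ => rfl }
    have : IsScalarTower (Algebra.adjoin ℚ (Set.range x)) Λ S :=
      IsScalarTower.of_algebraMap_eq fun _ => rfl
    refine hy.restrictScalars (K := Λ) ?_
    intro a b hab
    exact Subtype.ext (congrArg (fun t : Λ => (t : S)) hab)
  have h3 : AlgebraicIndependent ℚ (Sum.elim y x) :=
    AlgebraicIndependent.sumElim_iff.2 ⟨hx', hy'⟩
  have h4 : AlgebraicIndependent ℚ (Sum.elim x y) := by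
    have := h3.comp Sum.swap Sum.swap_leftInverse.injective
    convert this using 1
    funext i
    rcases i with i | i <;> rfl
  have h5 := (AlgebraicIndependent.sumElim_iff.1 h4).2
  have h6 : AlgebraicIndependent (IntermediateField.adjoin ℚ (Set.range y)) x :=
    IntermediateField.algebraicIndependent_adjoin_iff.2 h5
  obtain ⟨W, hW1, hW2⟩ := exists_W h6 (fun i => (nn i : IntermediateField.adjoin ℚ (Set.range y)))
  have hval : ∀ i, W.valuation (x i - nn i) < 1 := by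
    intro i
    have := hW2 i
    rw [map_intCast] at this
    exact this
  refine ⟨W, ?_, fun j => ?_, fun i => ?_, hval⟩
  · intro m hm
    have h2 : (m : S) ≠ 0 := Nat.cast_ne_zero.mpr hm
    have h3 : (m : S) ∈ W := natCast_mem W m
    have h4 := hW1 (m : IntermediateField.adjoin ℚ (Set.range y))⁻¹
    rw [map_inv₀, map_natCast] at h4
    have h5 := (W.valuation_le_one_iff _).2 h3
    have h6 := (W.valuation_le_one_iff _).2 h4
    rw [map_inv₀] at h6
    have h7 : W.valuation (m : S) ≠ 0 := (Valuation.ne_zero_iff _).mpr h2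
    exact le_antisymm h5 ((inv_le_one₀ (zero_lt_iff.2 h7)).1 h6)
  · exact hW1 ⟨y j, IntermediateField.subset_adjoin _ _ ⟨j, rfl⟩⟩
  · have h1 : x i - nn i ∈ W := (W.valuation_le_one_iff _).1 (hval i).le
    have h2 : ((nn i : ℤ) : S) ∈ W := intCast_mem W (nn i)
    have h3 := W.add_mem _ _ h1 h2
    rwa [sub_add_cancel] at h3

section

variable {J : Type v} {U : Ultrafilter J} {C : Type u} [Field C] {S : Type w} [Field S]
  {I : Type}

/-- the generic vector -/
def xg (π : (J → C) →+* S) (vv : J → I → C) (i : I) : S := π fun j => vv j i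

variable {π : (J → C) →+* S} (h : UP U π) {vv : J → I → C}

lemma aeval_xg (Ψ : MvPolynomial I ℤ) :
    MvPolynomial.aeval (xg π vv) Ψ = π fun j => MvPolynomial.aeval (vv j) Ψ := by
  induction Ψ using MvPolynomial.induction_on with
  | C a =>
    rw [MvPolynomial.aeval_C]
    simp only [MvPolynomial.aeval_C]
    change ((a : ℤ) : S) = π fun _ => ((a : ℤ) : C)
    rw [← map_intCast π a]
    rfl
  | add p q hp hq =>
    rw [map_add, hp, hq, ← map_add]
    congr 1
    funext j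
    rw [Pi.add_apply, map_add]
  | mul_X p i hp =>
    rw [map_mul, MvPolynomial.aeval_X, hp]
    unfold xg
    rw [← map_mul]
    congr 1
    funext j
    rw [Pi.mul_apply, map_mul, MvPolynomial.aeval_X]

include h

/-- The generic vector is algebraically independent. -/
theorem algInd_xg (hU : ∀ Ψ : MvPolynomial I ℤ, Ψ ≠ 0 →
    ∀ᶠ j in (U : Filter J), MvPolynomial.aeval (vv j) Ψ ≠ 0) :
    AlgebraicIndependent ℤ (xg π vv) := by
  rw [algebraicIndependent_iff]
  intro Ψ hΨ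
  by_contra h0
  have h1 := hU Ψ h0
  rw [← h.ne0, ← aeval_xg] at h1
  exact h1 hΨ

end

section

variable {J : Type v} {U : Ultrafilter J} {C : Type u} [Field C] {S : Type w} [Field S]
  {π : (J → C) →+* S} {r m d : ℕ} {vv : J → Fin (d + 1) × IdxR (r + 2) m → C}

lemma pi_cT' (u : C) (w : Fin r → C) (i : Fin (d + 1)) (l : Fin (m + 1)) :
    π (fun a => cT u w (vv a) i l) =
      cT (UP.cst π u) (fun j => UP.cst π (w j)) (xg π vv) i l := by
  have h1 : (fun a => cT u w (vv a) i l) =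
      cT (k := J → C) (fun _ => u) (fun j _ => w j) (fun q a => vv a q) i l := by
    funext a
    have := map_cT (Pi.evalRingHom (fun _ : J => C) a) (fun _ => u) (fun j _ => w j)
      (fun q a => vv a q) i l
    exact this.symm
  rw [h1, map_cT]
  rfl

/-- the coefficients of the generic curve -/
lemma pi_fc' (T u : C) (w : Fin r → C) (i : Fin (d + 1)) :
    π (fun a => ∑ l, cT u w (vv a) i l * T ^ (l : ℕ)) =
      ∑ l, cT (UP.cst π u) (fun j => UP.cst π (w j)) (xg π vv) i l * UP.cst π T ^ (l : ℕ) := by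
  have h1 : (fun a => ∑ l, cT u w (vv a) i l * T ^ (l : ℕ)) =
      ∑ l, (fun a => cT u w (vv a) i l) * (fun _ : J => T) ^ (l : ℕ) := by
    funext a
    simp only [Finset.sum_apply, Pi.mul_apply, Pi.pow_apply]
  rw [h1, map_sum]
  refine Finset.sum_congr rfl fun l _ => ?_
  rw [map_mul, map_pow, pi_cT']
  rfl

variable (h : UP U π)

include h

lemma xg_mem {X : Subfield C} (hv : ∀ j i, vv j i ∈ X) (q : Fin (d + 1) × IdxR (r + 2) m) :
    xg π vv q ∈ h.gsub X := ⟨_, fun j => hv j q, rfl⟩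

/-- **2-transitivity for the generic curve.** -/
theorem two_trans_final' [IsAlgClosed C] [CharZero C] {Ω₀ : Subfield C} (hv : ∀ j i, vv j i ∈ Ω₀)
    (hU : ∀ Ψ : MvPolynomial (Fin (d + 1) × IdxR (r + 2) m) ℤ, Ψ ≠ 0 →
      ∀ᶠ j in (U : Filter J), MvPolynomial.aeval (vv j) Ψ ≠ 0)
    {κ : Subfield C} (hκ : Ω₀ ≤ κ) {T : C} (hT : AlgebraicIndependent κ ![T]) {u : C} (hu : u ∈ κ)
    {w : Fin r → C} (hw : ∀ j, w j ∈ κ)
    (hwu : AlgebraicIndependent Ω₀ (Fin.cons u w : Fin (r + 1) → C))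
    (hd : 3 ≤ d) (hm : 1 ≤ m) {θ : Fin d → S}
    (hθ : Function.Injective θ)
    (hroot : ∀ i, ∑ l : Fin (d + 1), (π fun a => ∑ e, cT u w (vv a) l e *
      T ^ (e : ℕ)) * θ i ^ (l : ℕ) = 0) {i j i' j' : Fin d} (hij : i ≠ j) (hij' : i' ≠ j') :
    ∃ σ : S ≃+* S, (∀ x ∈ gen (h.gsub κ) (fun i => UP.cst π ((![T] : Fin 1 → C) i)), σ x = x) ∧
      σ (θ i) = θ i' ∧ σ (θ j) = θ j' := by
  have := h.isAlgClosed
  have := h.charZero
  obtain ⟨W, hW, hWc, hWx, hWv⟩ := exists_W_ind (algInd_xg h hU) (Λ := h.gsub Ω₀) (xg_mem h hv)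
    (h.algInd hwu) (nT r hm)
  have hWu : UP.cst π u ∈ W := hWc 0
  have hWw : ∀ j, UP.cst π (w j) ∈ W := fun j => hWc j.succ
  let u' : h.gsub κ := ⟨UP.cst π u, h.const_mem_gsub.mpr hu⟩
  let w' : Fin r → h.gsub κ := fun j => ⟨UP.cst π (w j), h.const_mem_gsub.mpr (hw j)⟩
  let b' : Fin (d + 1) × IdxR (r + 2) m → h.gsub κ := fun q => ⟨xg π vv q,
    h.gsub_mono hκ (xg_mem h hv q)⟩
  obtain ⟨h1, h2, h3, h4, h5⟩ := twoTrans_hyps (W := W) hd hm (u := u') hWu (w := w')
    (fun j => hWw j) (b := b') hWx hWv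
  refine two_trans_gen (h.algInd hT) hd (fun i => cPoly u' w' b' i) W hW h1 h2 h3 h4 h5 hθ ?_
    hij hij'
  intro i
  rw [← hroot i]
  refine Finset.sum_congr rfl fun l _ => ?_
  congr 1
  rw [aeval_cPoly, pi_fc']
  refine Finset.sum_congr rfl fun e _ => ?_
  congr 1
  rw [map_cT]
  rfl

/-- **No level one structure for the generic curve.** -/
theorem no_lev_final' [IsAlgClosed C] [CharZero C] {Ω₀ : Subfield C} (hv : ∀ j i, vv j i ∈ Ω₀)
    (hU : ∀ Ψ : MvPolynomial (Fin (d + 1) × IdxR (r + 2) m) ℤ, Ψ ≠ 0 →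
      ∀ᶠ j in (U : Filter J), MvPolynomial.aeval (vv j) Ψ ≠ 0)
    {Ω : Subfield C} (hΩ : Ω₀ ≤ Ω) {T u : C} (hTu : AlgebraicIndependent Ω ![T, u])
    {w : Fin r → C} (hw : ∀ j, w j ∈ Ω) (hwi : AlgebraicIndependent Ω₀ w)
    {p : ℕ} (hp : p.Prime) (hd : 3 ≤ d) (hm : 1 ≤ m)
    {θ : Fin d → S} {z : Fin d → Fin d → S} {α : S}
    (hl : Lev (gen (h.gsub Ω) (fun i => UP.cst π ((![T, u] : Fin 2 → C) i))) p
      (fun i : Fin (d + 1) => π fun a => ∑ e, cT u w (vv a) i e * T ^ (e : ℕ))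
      θ z α) : False := by
  have := h.isAlgClosed
  have := h.charZero
  obtain ⟨W, hW, hWc, hWx, hWv⟩ := exists_W_ind (algInd_xg h hU) (Λ := h.gsub Ω₀) (xg_mem h hv)
    (h.algInd hwi) (nL r hm)
  let w' : Fin r → h.gsub Ω := fun j => ⟨UP.cst π (w j), h.const_mem_gsub.mpr (hw j)⟩
  let b' : Fin (d + 1) × IdxR (r + 2) m → h.gsub Ω := fun q => ⟨xg π vv q,
    h.gsub_mono hΩ (xg_mem h hv q)⟩
  obtain ⟨h1, h2, h3, h4⟩ := noLev_hyps (W := W) hm (w := w') (fun j => hWc j) (b := b') hWx hWv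
  refine no_lev_gen (h.algInd hTu) hp hd (fun i => cMv w' b' i) W hW h1 h2 h3 h4 (θ := θ) (z := z)
    (α := α) ?_
  have h5 : (fun i : Fin (d + 1) => π fun a => ∑ e, cT u w (vv a) i e *
      T ^ (e : ℕ)) = fun i => MvPolynomial.aeval (fun i => UP.cst π ((![T, u] : Fin 2 → C) i))
        (cMv w' b' i) := by
    funext i
    have h6 : (fun i => UP.cst π ((![T, u] : Fin 2 → C) i)) = ![UP.cst π T, UP.cst π u] := by
      funext i
      fin_cases i <;> rfl
    rw [h6, aeval_cMv, pi_fc', sum_cT]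
    refine Finset.sum_congr rfl fun p _ => ?_
    congr 1
    rw [map_mul, map_wmon]
    rfl
  rw [h5] at hl
  exact hl

end

end UL
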