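import Mathlib
import Pool.Agent.Helper10.UL.Gen3

/-!
# The generic curve in one variable
-/

universe u v w

namespace UL

open Polynomial Pool.Agent.Helper37.UL

/-- genericity over a larger field -/
theorem gen_extend {F : Type u} [Field F] {C : Type w} [Field C] [Algebra F C] {I : Type}
    {J : Type v} {U : Ultrafilter J} {vv : J → I → F}
    (hU : ∀ Ψ : MvPolynomial I F, Ψ ≠ 0 →
      ∀ᶠ j in (U : Filter J), MvPolynomial.eval (vv j) Ψ ≠ 0)
    (Ψ : MvPolynomial I C) (hΨ : Ψ ≠ 0) :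
    ∀ᶠ j in (U : Filter J), MvPolynomial.eval (fun i => algebraMap F C (vv j i)) Ψ ≠ 0 := by
  classical
  obtain ⟨n, hn⟩ := MvPolynomial.ne_zero_iff.mp hΨ
  obtain ⟨φ, hφ⟩ : ∃ φ : C →ₗ[F] F, φ (MvPolynomial.coeff n Ψ) ≠ 0 := by
    by_contra hcon
    push Not at hcon
    exact hn ((Module.forall_dual_apply_eq_zero_iff F (MvPolynomial.coeff n Ψ)).mp hcon)
  let Φ : MvPolynomial I F := ∑ m ∈ Ψ.support, MvPolynomial.monomial m (φ (MvPolynomial.coeff m Ψ))
  have hΦ : Φ ≠ 0 := by
    intro h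
    apply hφ
    have h1 : MvPolynomial.coeff n Φ = φ (MvPolynomial.coeff n Ψ) := by
      simp only [Φ, MvPolynomial.coeff_sum, MvPolynomial.coeff_monomial]
      rw [Finset.sum_eq_single n]
      · rw [if_pos rfl]
      · intro b _ hb
        rw [if_neg hb]
      · intro h
        exact absurd (MvPolynomial.mem_support_iff.mpr hn) h
    rw [← h1, h, MvPolynomial.coeff_zero]
  filter_upwards [hU Φ hΦ] with j hj h
  apply hj
  have h1 : φ (MvPolynomial.eval (fun i => algebraMap F C (vv j i)) Ψ) =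
      MvPolynomial.eval (vv j) Φ := by
    simp only [Φ]
    rw [MvPolynomial.eval_eq, map_sum, map_sum]
    refine Finset.sum_congr rfl fun m _ => ?_
    rw [MvPolynomial.eval_monomial, Finsupp.prod]
    have h2 : (MvPolynomial.coeff m Ψ * ∏ i ∈ m.support, (algebraMap F C (vv j i)) ^ m i) =
        (∏ i ∈ m.support, (vv j i) ^ m i) • MvPolynomial.coeff m Ψ := by
      rw [Algebra.smul_def, map_prod, mul_comm]
      congr 1
      refine Finset.prod_congr rfl fun i _ => ?_
      rw [map_pow]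
    rw [h2, map_smul, smul_eq_mul, mul_comm]
  rw [← h1, h, map_zero]

section generic

variable {J : Type v} {U : Ultrafilter J} {C : Type u} [Field C] {S : Type w} [Field S]
  {I : Type} {π : (J → C) →+* S} (h : UP U π) {vv : J → I → C}

lemma eval_xg (Ψ : MvPolynomial I C) :
    MvPolynomial.eval₂ (UP.cst π) (xg π vv) Ψ =
      π fun j => MvPolynomial.eval (vv j) Ψ := by
  induction Ψ using MvPolynomial.induction_on with
  | C a => rw [MvPolynomial.eval₂_C]; simp only [MvPolynomial.eval_C]; rfl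
  | add p q hp hq =>
    rw [MvPolynomial.eval₂_add, hp, hq, ← map_add]
    congr 1
    funext j
    rw [Pi.add_apply, map_add]
  | mul_X p i hp =>
    rw [MvPolynomial.eval₂_mul, MvPolynomial.eval₂_X, hp]
    unfold xg
    rw [← map_mul]
    congr 1
    funext j
    rw [Pi.mul_apply, map_mul, MvPolynomial.eval_X]

include h

/-- The generic vector is algebraically independent over the constants. -/
theorem algInd_xgC (hU : ∀ Ψ : MvPolynomial I C, Ψ ≠ 0 →
    ∀ᶠ j in (U : Filter J), MvPolynomial.eval (vv j) Ψ ≠ 0) :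
    AlgebraicIndependent (UP.cst π).fieldRange (xg π vv) := by
  rw [algebraicIndependent_iff]
  intro P hP
  by_contra hP0
  let e : C ≃+* (UP.cst π).fieldRange :=
    RingEquiv.ofBijective (UP.cst π).rangeRestrictField
      ⟨(UP.cst π).rangeRestrictField.injective, fun ⟨_, c, hc⟩ => ⟨c, Subtype.ext hc⟩⟩
  let Ψ : MvPolynomial I C := MvPolynomial.map e.symm.toRingHom P
  have hΨ0 : Ψ ≠ 0 := by
    intro h0
    apply hP0
    have h1 := (MvPolynomial.map_injective (σ := I) e.symm.toRingHom e.symm.injective)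
    apply h1
    rw [map_zero]
    exact h0
  have h1 := hU Ψ hΨ0
  rw [← h.ne0, ← eval_xg] at h1
  apply h1
  rw [← hP]
  simp only [Ψ]
  rw [MvPolynomial.eval₂_map]
  change _ = MvPolynomial.eval₂ (algebraMap (UP.cst π).fieldRange S) (xg π vv) P
  congr 1
  ext c
  change UP.cst π (e.symm c) = (c : S)
  exact congrArg Subtype.val (e.apply_symm_apply c)

/-- specialising valuation rings -/
theorem exists_W_C [CharZero C] (hU : ∀ Ψ : MvPolynomial I C, Ψ ≠ 0 →
    ∀ᶠ j in (U : Filter J), MvPolynomial.eval (vv j) Ψ ≠ 0) (n : I → ℤ) :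
    ∃ W : ValuationSubring S, ResZero W ∧ (∀ c : C, UP.cst π c ∈ W) ∧
      (∀ i, xg π vv i ∈ W) ∧ ∀ i, W.valuation (xg π vv i - n i) < 1 := by
  obtain ⟨W, hW1, hW2⟩ := exists_W (algInd_xgC h hU) (fun i => (n i : (UP.cst π).fieldRange))
  have hc : ∀ c : C, UP.cst π c ∈ W := fun c => hW1 ⟨UP.cst π c, ⟨c, rfl⟩⟩
  have hval : ∀ i, W.valuation (xg π vv i - n i) < 1 := by
    intro i
    have := hW2 i
    rw [map_intCast] at this
    exact this
  refine ⟨W, ?_, hc, fun i => ?_, hval⟩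
  · intro m hm
    have hm' : (m : C) ≠ 0 := Nat.cast_ne_zero.mpr hm
    have h1 : UP.cst π (m : C) = (m : S) := map_natCast _ _
    have h2 : (m : S) ≠ 0 := by
      rw [← h1]
      exact (_root_.map_ne_zero _).mpr hm'
    have h3 := hc (m : C)
    have h4 := hc (m : C)⁻¹
    rw [map_inv₀, h1] at h4
    rw [h1] at h3
    have h5 := (W.valuation_le_one_iff _).2 h3
    have h6 := (W.valuation_le_one_iff _).2 h4
    rw [map_inv₀] at h6
    have h7 : W.valuation (m : S) ≠ 0 := (Valuation.ne_zero_iff _).mpr h2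
    exact le_antisymm h5 ((inv_le_one₀ (zero_lt_iff.2 h7)).1 h6)
  · have h1 : xg π vv i - n i ∈ W := (W.valuation_le_one_iff _).1 (hval i).le
    have h2 : ((n i : ℤ) : S) ∈ W := intCast_mem W (n i)
    have h3 := W.add_mem _ _ h1 h2
    rwa [sub_add_cancel] at h3

end generic

section two_trans

/-- the coefficient as a polynomial in `T` -/
noncomputable def cOne {R : Type*} [CommRing R] {d m : ℕ} (b : Fin (d + 1) × Fin (m + 1) → R)
    (i : Fin (d + 1)) : R[X] := ∑ e : Fin (m + 1), C (b (i, e)) * X ^ (e : ℕ)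

lemma coeff_cOne {R : Type*} [CommRing R] {d m : ℕ} (b : Fin (d + 1) × Fin (m + 1) → R)
    (i : Fin (d + 1)) (s : ℕ) :
    (cOne b i).coeff s = if hs : s < m + 1 then b (i, ⟨s, hs⟩) else 0 := by
  classical
  unfold cOne
  rw [finsetSum_coeff]
  simp only [coeff_C_mul_X_pow]
  split_ifs with hs
  · rw [Finset.sum_eq_single (⟨s, hs⟩ : Fin (m + 1))]
    · rw [if_pos rfl]
    · intro l _ hl
      rw [if_neg]
      intro h
      exact hl (Fin.ext h.symm)
    · intro h; exact absurd (Finset.mem_univ _) h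
  · apply Finset.sum_eq_zero
    intro l _
    rw [if_neg]
    have := l.2
    omega

/-- the assignment for `two_trans` -/
def n1 {d m : ℕ} (q : Fin (d + 1) × Fin (m + 1)) : ℤ :=
  if (q.2 : ℕ) = 0 then (if (q.1 : ℕ) = d then 1 else if (q.1 : ℕ) = d - 1 then -1 else 0)
  else if (q.2 : ℕ) = 1 then (if q.1 = 0 then -1 else 0) else 0

variable {S : Type w} [Field S] {W : ValuationSubring S} {Λ : Subfield S} {d m : ℕ}

lemma val_cOne (hm : 1 ≤ m) {b : Fin (d + 1) × Fin (m + 1) → Λ}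
    (hb : ∀ q, W.valuation ((b q : S) - n1 q) < 1) (i : Fin (d + 1)) (s : ℕ) :
    W.valuation (((cOne b i).coeff s : Λ) -
      ((if s = 0 then (if (i : ℕ) = d then 1 else if (i : ℕ) = d - 1 then -1 else 0)
        else if s = 1 then (if i = 0 then -1 else 0) else 0 : ℤ) : S)) < 1 := by
  rw [coeff_cOne]
  by_cases hs : s < m + 1
  · rw [dif_pos hs]
    exact hb (i, ⟨s, hs⟩)
  · rw [dif_neg hs, if_neg (by omega), if_neg (by omega)]
    simp

theorem twoTrans_hyps_one (hd : 3 ≤ d) (hm : 1 ≤ m)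
    {b : Fin (d + 1) × Fin (m + 1) → Λ} (hbW : ∀ q, (b q : S) ∈ W)
    (hb : ∀ q, W.valuation ((b q : S) - n1 q) < 1) :
    (∀ i s, ((cOne b i).coeff s : S) ∈ W) ∧
    (∀ s, W.valuation (((cOne b (Fin.last d)).coeff s : S) - if s = 0 then 1 else 0) < 1) ∧
    (∀ i : Fin (d + 1), (i : ℕ) = d - 1 → ∀ s,
      W.valuation (((cOne b i).coeff s : S) + if s = 0 then 1 else 0) < 1) ∧
    (∀ s, W.valuation (((cOne b 0).coeff s : S) + if s = 1 then 1 else 0) < 1) ∧
    (∀ i : Fin (d + 1), (i : ℕ) ≠ d → (i : ℕ) ≠ d - 1 → (i : ℕ) ≠ 0 → ∀ s,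
      W.valuation ((cOne b i).coeff s : S) < 1) := by
  refine ⟨fun i s => ?_, fun s => ?_, fun i hi s => ?_, fun s => ?_, fun i hi1 hi2 hi3 s => ?_⟩
  · rw [coeff_cOne]
    split_ifs
    · exact hbW _
    · exact zero_mem _
  · have h1 := val_cOne hm hb (Fin.last d) s
    convert h1 using 2
    have h2 : (Fin.last d : Fin (d + 1)) ≠ 0 := by
      intro h
      have := congrArg Fin.val h
      simp at this
      omega
    rw [Fin.val_last, if_pos rfl, if_neg h2]
    by_cases hs0 : s = 0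
    · rw [if_pos hs0, if_pos hs0]; simp
    · rw [if_neg hs0, if_neg hs0]; simp
  · have h1 := val_cOne hm hb i s
    convert h1 using 2
    have h2 : i ≠ 0 := by
      rintro rfl
      simp at hi
      omega
    have h3 : (i : ℕ) ≠ d := by omega
    rw [if_neg h3, if_pos hi, if_neg h2]
    by_cases hs0 : s = 0
    · rw [if_pos hs0, if_pos hs0]; simp
    · rw [if_neg hs0, if_neg hs0]; simp
  · have h1 := val_cOne hm hb 0 s
    convert h1 using 2
    have h2 : ((0 : Fin (d + 1)) : ℕ) ≠ d := by simp; omega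
    have h3 : ((0 : Fin (d + 1)) : ℕ) ≠ d - 1 := by simp; omega
    rw [if_neg h2, if_neg h3, if_pos rfl]
    by_cases hs0 : s = 0
    · rw [if_pos hs0, if_neg (by omega)]; simp
    · rw [if_neg hs0]
      by_cases hs1 : s = 1
      · rw [if_pos hs1, if_pos hs1]; simp
      · rw [if_neg hs1, if_neg hs1]; simp
  · have h1 := val_cOne hm hb i s
    convert h1 using 2
    have h2 : i ≠ 0 := by
      rintro rfl
      exact hi3 rfl
    split_ifs <;> simp_all

variable {J : Type v} {U : Ultrafilter J} {C : Type u} [Field C]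
  {π : (J → C) →+* S} {vv : J → Fin (d + 1) × Fin (m + 1) → C}

lemma pi_one (T : C) (i : Fin (d + 1)) :
    π (fun a => ∑ e : Fin (m + 1), vv a (i, e) * T ^ (e : ℕ)) =
      ∑ e, xg π vv (i, e) * UP.cst π T ^ (e : ℕ) := by
  have h1 : (fun a => ∑ e : Fin (m + 1), vv a (i, e) * T ^ (e : ℕ)) =
      ∑ e : Fin (m + 1), (fun a => vv a (i, e)) * (fun _ : J => T) ^ (e : ℕ) := by
    funext a
    simp only [Finset.sum_apply, Pi.mul_apply, Pi.pow_apply]
  rw [h1, map_sum]
  refine Finset.sum_congr rfl fun l _ => ?_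
  rw [map_mul, map_pow]
  rfl

variable (h : UP U π)

include h

/-- **2-transitivity for the generic curve in one variable.** -/
theorem two_trans_one [IsAlgClosed C] [CharZero C]
    (hU : ∀ Ψ : MvPolynomial (Fin (d + 1) × Fin (m + 1)) C, Ψ ≠ 0 →
      ∀ᶠ j in (U : Filter J), MvPolynomial.eval (vv j) Ψ ≠ 0)
    {κ : Subfield C} (hv : ∀ j i, vv j i ∈ κ) {T : C} (hT : AlgebraicIndependent κ ![T])
    (hd : 3 ≤ d) (hm : 1 ≤ m) {θ : Fin d → S} (hθ : Function.Injective θ)
    (hroot : ∀ i, ∑ l : Fin (d + 1), (π fun a => ∑ e : Fin (m + 1), vv a (l, e) *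
      T ^ (e : ℕ)) * θ i ^ (l : ℕ) = 0) {i j i' j' : Fin d} (hij : i ≠ j) (hij' : i' ≠ j') :
    ∃ σ : S ≃+* S, (∀ x ∈ gen (h.gsub κ) (fun i => UP.cst π ((![T] : Fin 1 → C) i)), σ x = x) ∧
      σ (θ i) = θ i' ∧ σ (θ j) = θ j' := by
  have := h.isAlgClosed
  have := h.charZero
  obtain ⟨W, hW, hWc, hWx, hWv⟩ := exists_W_C h hU n1
  let b' : Fin (d + 1) × Fin (m + 1) → h.gsub κ := fun q => ⟨xg π vv q,
    ⟨_, fun j => hv j q, rfl⟩⟩
  obtain ⟨h1, h2, h3, h4, h5⟩ := twoTrans_hyps_one (W := W) hd hm (b := b') hWx hWv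
  refine two_trans_gen (h.algInd hT) hd (fun i => cOne b' i) W hW h1 h2 h3 h4 h5 hθ ?_
    hij hij'
  intro i
  rw [← hroot i]
  refine Finset.sum_congr rfl fun l _ => ?_
  congr 1
  rw [pi_one]
  unfold cOne
  rw [map_sum]
  refine Finset.sum_congr rfl fun e _ => ?_
  rw [map_mul, aeval_C, map_pow, aeval_X]
  rfl

end two_trans

end UL
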