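import Pool.Agent.Helper10.UL.ThinOne
import Pool.Agent.Helper10.UL.Gen4
import Pool.Agent.Helper10.UL.GaussN

/-!
# Thin sets over a field of rational functions and their points over the constants
-/

universe u v w

namespace UL

open Polynomial Pool.Agent.Helper37.UL

/-- **The points over the constants of a thin set form a thin set.** -/
theorem IsThin.restrict {F₀ F : Type u} [Field F₀] [CharZero F₀] [Field F] [Algebra F₀ F] {n : ℕ}
    {s : Fin n → F} (hs : AlgebraicIndependent F₀ s)
    (htop : IntermediateField.adjoin F₀ (Set.range s) = ⊤) {I : Type} {A : Set (I → F)}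
    (hA : IsThin A) : IsThin {a : I → F₀ | (fun i => algebraMap F₀ F (a i)) ∈ A} := by
  classical
  by_contra hcon
  have hF0 : CharZero F := charZero_of_injective_algebraMap (algebraMap F₀ F).injective
  let C : Type u := AlgebraicClosure F
  have hC0 : CharZero C := charZero_of_injective_algebraMap (algebraMap F C).injective
  let J : Type u := {a : I → F₀ // (fun i => algebraMap F₀ F (a i)) ∈ A}
  let vv : J → I → F₀ := Subtype.val
  let vF : J → I → F := fun j i => algebraMap F₀ F (vv j i)
  have hnt : ¬ IsThin (Set.range vv) := by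
    intro h
    apply hcon
    refine h.mono fun a ha => ⟨⟨a, ha⟩, rfl⟩
  obtain ⟨U, hU1, hU2⟩ := exists_ultra_thin vv hnt
  obtain ⟨S, _, π, h⟩ := exists_up.{u, u} U C
  have hS0 : CharZero S := h.charZero
  have hUF : ∀ Ψ : MvPolynomial I F, Ψ ≠ 0 →
      ∀ᶠ j in (U : Filter J), MvPolynomial.eval (vF j) Ψ ≠ 0 := gen_extend hU1
  obtain ⟨Ψ, T, h1, h2, h3⟩ := hA
  -- one polynomial
  have hex : ∃ Q ∈ T, ∀ᶠ j in (U : Filter J), ∃ x : F, eval₂ (MvPolynomial.eval (vF j)) x Q = 0 := by
    by_contra hne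
    push Not at hne
    have h4 : ∀ᶠ j in (U : Filter J), ∀ Q ∈ T,
        ¬ ∃ x : F, eval₂ (MvPolynomial.eval (vF j)) x Q = 0 := by
      rw [Filter.eventually_all_finset]
      intro Q hQ
      filter_upwards [hne Q hQ] with j hj
      rintro ⟨x, hx⟩
      exact hj x hx
    obtain ⟨j, h5, h6⟩ := (h4.and (hUF Ψ h1)).exists
    rcases h3 _ j.2 with h7 | ⟨Q, hQ, hx⟩
    · exact h6 h7
    · exact h5 Q hQ hx
  obtain ⟨Q, hQT, hQ⟩ := hex
  obtain ⟨hQ2, hQirr⟩ := h2 Q hQT
  have hgx : ∀ j : J, ∃ x : F, (∃ x : F, eval₂ (MvPolynomial.eval (vF j)) x Q = 0) →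
      eval₂ (MvPolynomial.eval (vF j)) x Q = 0 := by
    intro j
    by_cases hj : ∃ x : F, eval₂ (MvPolynomial.eval (vF j)) x Q = 0
    · obtain ⟨x, hx⟩ := hj
      exact ⟨x, fun _ => hx⟩
    · exact ⟨0, fun h => absurd h hj⟩
  choose g hg using hgx
  let x : S := π fun j => algebraMap F C (g j)
  -- the fields
  have hinj := evg_injective (vv := vF) h hUF
  let K := FractionRing (MvPolynomial I F)
  let e : K →+* S := IsFractionRing.lift hinj
  have he : ∀ Ψ : MvPolynomial I F, e (algebraMap _ K Ψ) = evg π vF Ψ := fun Ψ =>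
    IsFractionRing.lift_algebraMap hinj Ψ
  have hroot : eval₂ e x (Q.map (algebraMap (MvPolynomial I F) K)) = 0 := by
    have h4 : e.comp (algebraMap (MvPolynomial I F) K) = evg π vF := RingHom.ext he
    rw [eval₂_map, h4, eval₂_evg, h.eq0]
    filter_upwards [hQ] with j hj
    rw [← hom_eval₂, hg j hj, map_zero]
  let FC₀ : Subfield C := (algebraMap F₀ C).fieldRange
  let τ : Fin n → C := fun i => algebraMap F C (s i)
  let τ' : Fin n → S := fun i => UP.cst π (τ i)
  have hst : IsScalarTower F₀ F C := inferInstance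
  have hgenF : (algebraMap F C).fieldRange ≤ gen FC₀ τ := by
    rintro _ ⟨y, rfl⟩
    have h4 : (IntermediateField.adjoin F₀ (Set.range s)).toSubfield ≤
        (gen FC₀ τ).comap (algebraMap F C) := by
      rw [IntermediateField.adjoin_toSubfield, Subfield.closure_le]
      rintro y (⟨c, rfl⟩ | ⟨i, rfl⟩)
      · exact le_gen ⟨c, IsScalarTower.algebraMap_apply F₀ F C c⟩
      · exact gen_mem (τ := τ) i
    rw [htop] at h4
    exact h4 (Subfield.mem_top y)
  have hτ : AlgebraicIndependent FC₀ τ := by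
    have h4 : AlgebraicIndependent F₀ τ := hs.map' (f := IsScalarTower.toAlgHom F₀ F C)
      (algebraMap F C).injective
    rw [algebraicIndependent_iff] at h4 ⊢
    intro P hP
    let e0 : F₀ ≃+* FC₀ := RingEquiv.ofBijective (algebraMap F₀ C).rangeRestrictField
      ⟨(algebraMap F₀ C).rangeRestrictField.injective, fun ⟨_, c, hc⟩ => ⟨c, Subtype.ext hc⟩⟩
    have h5 : MvPolynomial.aeval τ (MvPolynomial.map e0.symm.toRingHom P) = 0 := by
      rw [← hP, MvPolynomial.aeval_def, MvPolynomial.eval₂_map, MvPolynomial.aeval_def]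
      congr 1
      ext c
      change algebraMap F₀ C (e0.symm c) = (c : C)
      exact congrArg Subtype.val (e0.apply_symm_apply c)
    have h6 := h4 _ h5
    apply MvPolynomial.map_injective (σ := Fin n) e0.symm.toRingHom e0.symm.injective
    rw [h6, map_zero]
  set L := Lg π vv with hL
  have hLsub : L ≤ h.gsub FC₀ := by
    rw [hL]
    unfold Lg
    rw [Subfield.closure_le, Set.union_subset_iff]
    constructor
    · rintro _ ⟨c, rfl⟩
      exact h.const_mem_gsub.mpr ⟨c, rfl⟩
    · rintro _ ⟨i, rfl⟩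
      exact ⟨_, fun j => ⟨vv j i, rfl⟩, rfl⟩
  have hFgen : ∀ c : F, UP.cst π (algebraMap F C c) ∈ gen L τ' := by
    intro c
    have h4 : (IntermediateField.adjoin F₀ (Set.range s)).toSubfield ≤
        (gen L τ').comap ((UP.cst π).comp (algebraMap F C)) := by
      rw [IntermediateField.adjoin_toSubfield, Subfield.closure_le]
      rintro y (⟨c, rfl⟩ | ⟨i, rfl⟩)
      · refine le_gen (Subfield.subset_closure (Or.inl ⟨c, ?_⟩))
        change UP.cst π (algebraMap F₀ C c) = UP.cst π (algebraMap F C (algebraMap F₀ F c))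
        rw [IsScalarTower.algebraMap_apply F₀ F C]
      · exact gen_mem (τ := τ') i
    rw [htop] at h4
    exact h4 (Subfield.mem_top c)
  have hcgen : gen L τ' ≤ e.fieldRange := by
    unfold gen
    rw [Subfield.closure_le, Set.union_subset_iff]
    constructor
    · change Lg π vv ≤ _
      unfold Lg
      rw [Subfield.closure_le, Set.union_subset_iff]
      constructor
      · rintro _ ⟨c, rfl⟩
        refine ⟨algebraMap (MvPolynomial I F) K (MvPolynomial.C (algebraMap F₀ F c)), ?_⟩
        rw [he, evg_C, ← IsScalarTower.algebraMap_apply F₀ F C]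
      · rintro _ ⟨i, rfl⟩
        refine ⟨algebraMap (MvPolynomial I F) K (MvPolynomial.X i), ?_⟩
        rw [he, evg_X]
        rfl
    · rintro _ ⟨i, rfl⟩
      exact ⟨algebraMap (MvPolynomial I F) K (MvPolynomial.C (s i)), by rw [he, evg_C]⟩
  have hegen : e.fieldRange ≤ gen L τ' := by
    rintro _ ⟨y, rfl⟩
    obtain ⟨a, b, hb, rfl⟩ := IsFractionRing.div_surjective (A := MvPolynomial I F) y
    have h4 : ∀ Ψ : MvPolynomial I F, evg π vF Ψ ∈ gen L τ' := by
      intro Ψ
      induction Ψ using MvPolynomial.induction_on with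
      | C c => rw [evg_C]; exact hFgen c
      | add p q hp hq => rw [map_add]; exact add_mem hp hq
      | mul_X p i hp =>
        rw [map_mul, evg_X]
        exact mul_mem hp (le_gen (Subfield.subset_closure (Or.inr ⟨i, rfl⟩)))
    rw [map_div₀, he, he]
    exact div_mem (h4 a) (h4 b)
  -- the root is algebraic
  have hQ0 : Q.map (algebraMap (MvPolynomial I F) K) ≠ 0 := hQirr.ne_zero
  have hxalg : IsAlgebraic (gen L τ') x := by
    let ψ : K →+* gen L τ' := e.codRestrict (gen L τ').toSubring (fun y => hegen ⟨y, rfl⟩)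
    refine ⟨(Q.map (algebraMap (MvPolynomial I F) K)).map ψ,
      (Polynomial.map_ne_zero_iff ψ.injective).2 hQ0, ?_⟩
    rw [aeval_def, eval₂_map, ← hroot]
    rfl
  have hxsub : x ∈ h.gsub (gen FC₀ τ) := ⟨_, fun j => hgenF ⟨g j, rfl⟩, rfl⟩
  have hx1 : x ∈ gen (h.gsub FC₀) τ' := by
    refine h.gen_relAlgClosed hτ hxsub (isAlgebraic_mono ?_ hxalg)
    unfold gen
    rw [Subfield.closure_le, Set.union_subset_iff]
    exact ⟨fun y hy => Subfield.subset_closure (Or.inl (hLsub hy)),
      fun y hy => Subfield.subset_closure (Or.inr hy)⟩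
  have hx2 : x ∈ gen L τ' := gauss_n hLsub
    (fun y hy hy' => Lg_closed h hU1 hU2 hy hy') (h.algInd hτ) hx1 hxalg
  obtain ⟨y, hy⟩ := hcgen hx2
  have h8 : (Q.map (algebraMap (MvPolynomial I F) K)).eval y = 0 := by
    apply e.injective
    rw [map_zero, ← hroot, ← hy, ← eval₂_at_apply]
  have h9 := degree_eq_one_of_irreducible_of_root hQirr h8
  have h10 : (Q.map (algebraMap (MvPolynomial I F) K)).natDegree = 1 := natDegree_eq_of_degree_eq_some h9
  rw [natDegree_map_eq_of_injective (IsFractionRing.injective (MvPolynomial I F) K)] at h10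
  omega

end UL
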