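import Pool.Agent.Helper10.UL.ThinOne
import Pool.Agent.Helper10.UL.Gen4

/-!
# Thin sets and linear substitutions
-/

universe u v

namespace UL

open Polynomial

/-- Thin sets are stable under automorphisms of the affine space. -/
theorem IsThin.comap {F : Type u} [Field F] {I : Type v}
    (e : MvPolynomial I F ≃+* MvPolynomial I F) (φ : (I → F) → (I → F))
    (hφ : ∀ a Ψ, MvPolynomial.eval a (e Ψ) = MvPolynomial.eval (φ a) Ψ) {A : Set (I → F)}
    (hA : IsThin A) : IsThin {a | φ a ∈ A} := by
  classical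
  obtain ⟨Ψ, S, h1, h2, h3⟩ := hA
  refine ⟨e Ψ, S.image (fun Q => Q.map (e : MvPolynomial I F →+* MvPolynomial I F)), ?_, ?_, ?_⟩
  · exact (map_ne_zero_iff _ e.injective).2 h1
  · intro Q hQ
    obtain ⟨Q, hQS, rfl⟩ := Finset.mem_image.1 hQ
    obtain ⟨h4, h5⟩ := h2 Q hQS
    refine ⟨by rwa [natDegree_map_eq_of_injective e.injective], ?_⟩
    let E : FractionRing (MvPolynomial I F) ≃+* FractionRing (MvPolynomial I F) :=
      IsFractionRing.ringEquivOfRingEquiv e
    have h6 : (Q.map (e : MvPolynomial I F →+* MvPolynomial I F)).map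
        (algebraMap (MvPolynomial I F) (FractionRing (MvPolynomial I F))) =
        Polynomial.mapEquiv E (Q.map (algebraMap (MvPolynomial I F)
          (FractionRing (MvPolynomial I F)))) := by
      rw [Polynomial.mapEquiv_apply, Polynomial.map_map, Polynomial.map_map]
      congr 1
      ext x
      · simp [E]
      · simp [E]
    rw [h6]
    exact (MulEquiv.irreducible_iff (Polynomial.mapEquiv E)).2 h5
  · intro a ha
    rcases h3 _ ha with h | ⟨Q, hQ, x, hx⟩
    · exact Or.inl (by rw [hφ]; exact h)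
    · refine Or.inr ⟨_, Finset.mem_image_of_mem _ hQ, x, ?_⟩
      rw [eval₂_map, ← hx]
      congr 1
      ext Ψ
      · simp [hφ]
      · simp [hφ]

/-- The coefficients of the polynomials of degree at most `m` after the substitution `X ↦ X + c`. -/
noncomputable def shiftV {R : Type*} [CommRing R] {d m : ℕ} (c : R)
    (x : Fin (d + 1) × Fin (m + 1) → R) (q : Fin (d + 1) × Fin (m + 1)) : R :=
  (taylor c (cOne x q.1)).coeff q.2

section

variable {R R' : Type*} [CommRing R] [CommRing R'] {d m : ℕ}

lemma cOne_map (f : R →+* R') (x : Fin (d + 1) × Fin (m + 1) → R) (i : Fin (d + 1)) :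
    cOne (fun q => f (x q)) i = (cOne x i).map f := by
  ext s
  rw [coeff_cOne, coeff_map, coeff_cOne]
  split_ifs
  · rfl
  · rw [map_zero]

lemma natDegree_cOne (x : Fin (d + 1) × Fin (m + 1) → R) (i : Fin (d + 1)) :
    (cOne x i).natDegree ≤ m := by
  rw [natDegree_le_iff_coeff_eq_zero]
  intro s hs
  rw [coeff_cOne, dif_neg (by omega)]

lemma shiftV_map (f : R →+* R') (c : R) (x : Fin (d + 1) × Fin (m + 1) → R)
    (q : Fin (d + 1) × Fin (m + 1)) :
    f (shiftV c x q) = shiftV (f c) (fun q => f (x q)) q := by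
  unfold shiftV
  rw [cOne_map, ← coeff_map, taylor_apply, taylor_apply, Polynomial.map_comp, Polynomial.map_add,
    map_X, map_C]

lemma cOne_shiftV (c : R) (x : Fin (d + 1) × Fin (m + 1) → R) (i : Fin (d + 1)) :
    cOne (shiftV c x) i = taylor c (cOne x i) := by
  ext s
  rw [coeff_cOne]
  split_ifs with hs
  · rfl
  · symm
    apply coeff_eq_zero_of_natDegree_lt
    rw [natDegree_taylor]
    exact (natDegree_cOne x i).trans_lt (by omega)

lemma shiftV_shiftV (c : R) (x : Fin (d + 1) × Fin (m + 1) → R) :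
    shiftV (-c) (shiftV c x) = x := by
  funext q
  have h1 : shiftV (-c) (shiftV c x) q = (taylor (-c) (cOne (shiftV c x) q.1)).coeff q.2 := rfl
  rw [h1, cOne_shiftV, taylor_taylor, neg_add_cancel, taylor_zero, coeff_cOne,
    dif_pos q.2.2]

end

section

variable {F : Type u} [Field F] {d m : ℕ}

/-- The substitution as an automorphism of the ring of polynomials in the coefficients. -/
noncomputable def shiftE (d m : ℕ) (c : F) : MvPolynomial (Fin (d + 1) × Fin (m + 1)) F ≃ₐ[F]
    MvPolynomial (Fin (d + 1) × Fin (m + 1)) F :=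
  AlgEquiv.ofAlgHom
    (MvPolynomial.aeval (shiftV (MvPolynomial.C c) fun q => MvPolynomial.X q))
    (MvPolynomial.aeval (shiftV (MvPolynomial.C (-c)) fun q => MvPolynomial.X q))
    (by
      apply MvPolynomial.algHom_ext
      intro q
      rw [AlgHom.comp_apply, MvPolynomial.aeval_X]
      have h1 := shiftV_map ((MvPolynomial.aeval (shiftV (MvPolynomial.C c)
        fun q => MvPolynomial.X q) : MvPolynomial (Fin (d + 1) × Fin (m + 1)) F →ₐ[F]
        MvPolynomial (Fin (d + 1) × Fin (m + 1)) F) :
        MvPolynomial (Fin (d + 1) × Fin (m + 1)) F →+* MvPolynomial (Fin (d + 1) × Fin (m + 1)) F)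
        (MvPolynomial.C (-c)) (fun q => MvPolynomial.X q) q
      simp only [RingHom.coe_coe, MvPolynomial.aeval_X, MvPolynomial.algHom_C] at h1
      rw [h1]
      have h2 := congrFun (shiftV_shiftV (MvPolynomial.C c)
        (fun q => (MvPolynomial.X q : MvPolynomial (Fin (d + 1) × Fin (m + 1)) F))) q
      rw [← map_neg] at h2
      exact h2)
    (by
      apply MvPolynomial.algHom_ext
      intro q
      rw [AlgHom.comp_apply, MvPolynomial.aeval_X]
      have h1 := shiftV_map ((MvPolynomial.aeval (shiftV (MvPolynomial.C (-c))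
        fun q => MvPolynomial.X q) : MvPolynomial (Fin (d + 1) × Fin (m + 1)) F →ₐ[F]
        MvPolynomial (Fin (d + 1) × Fin (m + 1)) F) :
        MvPolynomial (Fin (d + 1) × Fin (m + 1)) F →+* MvPolynomial (Fin (d + 1) × Fin (m + 1)) F)
        (MvPolynomial.C c) (fun q => MvPolynomial.X q) q
      simp only [RingHom.coe_coe, MvPolynomial.aeval_X, MvPolynomial.algHom_C] at h1
      rw [h1]
      have h2 := congrFun (shiftV_shiftV (-MvPolynomial.C c)
        (fun q => (MvPolynomial.X q : MvPolynomial (Fin (d + 1) × Fin (m + 1)) F))) q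
      rw [neg_neg, ← map_neg] at h2
      exact h2)

lemma eval_shiftE (c : F) (a : Fin (d + 1) × Fin (m + 1) → F)
    (Ψ : MvPolynomial (Fin (d + 1) × Fin (m + 1)) F) :
    MvPolynomial.eval a (shiftE d m c Ψ) = MvPolynomial.eval (shiftV c a) Ψ := by
  change ((MvPolynomial.eval a).comp (shiftE d m c : MvPolynomial (Fin (d + 1) × Fin (m + 1)) F →+*
    MvPolynomial (Fin (d + 1) × Fin (m + 1)) F)) Ψ = _
  congr 1
  apply MvPolynomial.ringHom_ext
  · intro b
    simp [shiftE]
  · intro q
    have h1 := shiftV_map (MvPolynomial.eval a) (MvPolynomial.C c)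
      (fun q => (MvPolynomial.X q : MvPolynomial (Fin (d + 1) × Fin (m + 1)) F)) q
    simp only [MvPolynomial.eval_C, MvPolynomial.eval_X] at h1
    rw [MvPolynomial.eval_X, ← h1]
    simp [shiftE]

/-- **Thin sets and the substitution `T ↦ T + c`.** -/
theorem IsThin.shift {A : Set (Fin (d + 1) × Fin (m + 1) → F)} (hA : IsThin A) (c : F) :
    IsThin {a | shiftV c a ∈ A} :=
  hA.comap (shiftE d m c).toRingEquiv (shiftV c) (fun a Ψ => eval_shiftE c a Ψ)

variable {k : Type u} [Field k] [Algebra F k]

lemma sum_cOne (T : k) (a : Fin (d + 1) × Fin (m + 1) → F) (i : Fin (d + 1)) :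
    ∑ e : Fin (m + 1), algebraMap F k (a (i, e)) * T ^ (e : ℕ) = aeval T (cOne a i) := by
  unfold cOne
  rw [map_sum]
  refine Finset.sum_congr rfl fun e _ => ?_
  rw [map_mul, aeval_C, map_pow, aeval_X]

/-- The curve in the new coordinate. -/
theorem curve1_shift (T : k) (c : F) (a : Fin (d + 1) × Fin (m + 1) → F) :
    curve1 (T - algebraMap F k c) (shiftV c a) = curve1 T a := by
  unfold curve1
  refine Finset.sum_congr rfl fun i _ => ?_
  rw [sum_cOne, sum_cOne, cOne_shiftV, taylor_apply, aeval_comp]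
  congr 3
  rw [map_add, aeval_X, aeval_C, sub_add_cancel]

end

end UL
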