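import Mathlib
import Pool.Agent.Helper10.UL.Gen3

/-!
# Thin sets and ultrafilters
-/

universe u v w

namespace UL

open Polynomial Pool.Agent.Helper37.UL

/-- A subset of `F ^ I` is thin if it is contained in the union of the set of zeros of a nonzero polynomial and of
finitely many sets of the points `a` at which `Q(a, X)` has a root in `F`, `Q` being a polynomial of degree at least
two in `X` which is irreducible over the field of rational functions. -/
def IsThin {F : Type u} [Field F] {I : Type v} (A : Set (I → F)) : Prop :=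
  ∃ (Ψ : MvPolynomial I F) (S : Finset (MvPolynomial I F)[X]), Ψ ≠ 0 ∧
    (∀ Q ∈ S, 2 ≤ Q.natDegree ∧ Irreducible (Q.map (algebraMap (MvPolynomial I F)
      (FractionRing (MvPolynomial I F))))) ∧
    ∀ a ∈ A, MvPolynomial.eval a Ψ = 0 ∨ ∃ Q ∈ S, ∃ x : F, eval₂ (MvPolynomial.eval a) x Q = 0

theorem exists_ultra_thin {F : Type u} [Field F] {I : Type v} {J : Type w} (vv : J → I → F)
    (h : ¬ IsThin (Set.range vv)) : ∃ U : Ultrafilter J,
      (∀ Ψ : MvPolynomial I F, Ψ ≠ 0 →
        ∀ᶠ j in (U : Filter J), MvPolynomial.eval (vv j) Ψ ≠ 0) ∧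
      ∀ Q : (MvPolynomial I F)[X], 2 ≤ Q.natDegree →
        Irreducible (Q.map (algebraMap (MvPolynomial I F) (FractionRing (MvPolynomial I F)))) →
        ∀ᶠ j in (U : Filter J), ∀ x : F, eval₂ (MvPolynomial.eval (vv j)) x Q ≠ 0 := by
  classical
  let P₁ : Set J → Prop := fun A => ∃ Ψ : MvPolynomial I F, Ψ ≠ 0 ∧
    A = {j | MvPolynomial.eval (vv j) Ψ ≠ 0}
  let P₂ : Set J → Prop := fun A => ∃ Q : (MvPolynomial I F)[X], (2 ≤ Q.natDegree ∧
    Irreducible (Q.map (algebraMap (MvPolynomial I F) (FractionRing (MvPolynomial I F))))) ∧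
    A = {j | ∀ x : F, eval₂ (MvPolynomial.eval (vv j)) x Q ≠ 0}
  obtain ⟨U, hU⟩ := Ultrafilter.exists_ultrafilter_of_finite_inter_nonempty
    {A | P₁ A ∨ P₂ A} (by
    intro T hT
    by_contra hcon
    apply h
    have hT₁ : ∀ A : Set J, ∃ Ψ : MvPolynomial I F, P₁ A → Ψ ≠ 0 ∧
        A = {j | MvPolynomial.eval (vv j) Ψ ≠ 0} := by
      intro A
      by_cases hA : P₁ A
      · obtain ⟨Ψ, hΨ⟩ := hA
        exact ⟨Ψ, fun _ => hΨ⟩
      · exact ⟨0, fun h => absurd h hA⟩
    have hT₂ : ∀ A : Set J, ∃ Q : (MvPolynomial I F)[X], P₂ A → (2 ≤ Q.natDegree ∧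
        Irreducible (Q.map (algebraMap (MvPolynomial I F) (FractionRing (MvPolynomial I F))))) ∧
        A = {j | ∀ x : F, eval₂ (MvPolynomial.eval (vv j)) x Q ≠ 0} := by
      intro A
      by_cases hA : P₂ A
      · obtain ⟨Q, hQ⟩ := hA
        exact ⟨Q, fun _ => hQ⟩
      · exact ⟨0, fun h => absurd h hA⟩
    choose Ψ hΨ using hT₁
    choose Q hQ using hT₂
    refine ⟨∏ A ∈ T.filter P₁, Ψ A, (T.filter P₂).image Q, ?_, ?_, ?_⟩
    · exact Finset.prod_ne_zero_iff.mpr fun A hA => (hΨ A (Finset.mem_filter.1 hA).2).1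
    · intro Φ hΦ
      obtain ⟨A, hA, rfl⟩ := Finset.mem_image.1 hΦ
      exact (hQ A (Finset.mem_filter.1 hA).2).1
    · rintro _ ⟨j, rfl⟩
      by_contra hne
      push Not at hne
      obtain ⟨h1, h2⟩ := hne
      apply hcon
      refine ⟨j, ?_⟩
      rw [Set.mem_sInter]
      intro A hA
      rcases hT hA with hA1 | hA2
      · rw [(hΨ A hA1).2]
        rw [map_prod, Finset.prod_ne_zero_iff] at h1
        exact h1 _ (Finset.mem_filter.2 ⟨hA, hA1⟩)
      · rw [(hQ A hA2).2]
        exact h2 _ (Finset.mem_image_of_mem _ (Finset.mem_filter.2 ⟨hA, hA2⟩)))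
  exact ⟨U, fun Ψ hΨ => hU (Or.inl ⟨Ψ, hΨ, rfl⟩), fun Q h1 h2 => hU (Or.inr ⟨Q, ⟨h1, h2⟩, rfl⟩)⟩

section

variable {F : Type u} [Field F] {C : Type u} [Field C] [Algebra F C] {I : Type} {J : Type v}
  {U : Ultrafilter J} {S : Type w} [Field S] {π : (J → C) →+* S} (h : UP U π)
  {vv : J → I → F}

/-- the evaluation of polynomials over `F` at the generic vector -/
noncomputable def evg (π : (J → C) →+* S) (vv : J → I → F) : MvPolynomial I F →+* S :=
  π.comp (RingHom.pi fun j => (algebraMap F C).comp (MvPolynomial.eval (vv j)))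

lemma evg_apply (Ψ : MvPolynomial I F) :
    evg π vv Ψ = π fun j => algebraMap F C (MvPolynomial.eval (vv j) Ψ) := rfl

lemma evg_C (c : F) : evg π vv (MvPolynomial.C c) = UP.cst π (algebraMap F C c) := by
  rw [evg_apply]
  simp only [MvPolynomial.eval_C]
  rfl

lemma evg_X (i : I) :
    evg π vv (MvPolynomial.X i) = xg π (fun j i => algebraMap F C (vv j i)) i := by
  rw [evg_apply]
  simp only [MvPolynomial.eval_X]
  rfl

lemma eval₂_evg (Q : (MvPolynomial I F)[X]) (f : J → C) :
    eval₂ (evg π vv) (π f) Q = π fun j =>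
      eval₂ ((algebraMap F C).comp (MvPolynomial.eval (vv j))) (f j) Q := by
  unfold evg
  rw [← hom_eval₂]
  congr 1
  funext j
  have := hom_eval₂ Q (RingHom.pi fun j => (algebraMap F C).comp (MvPolynomial.eval (vv j)))
    (Pi.evalRingHom (fun _ : J => C) j) f
  exact this

/-- the field generated by the constants of `F` and by the generic vector -/
def Lg (π : (J → C) →+* S) (vv : J → I → F) : Subfield S :=
  Subfield.closure (Set.range (fun c : F => UP.cst π (algebraMap F C c)) ∪
    Set.range (xg π (fun j i => algebraMap F C (vv j i))))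

include h

lemma evg_injective (hU : ∀ Ψ : MvPolynomial I F, Ψ ≠ 0 →
    ∀ᶠ j in (U : Filter J), MvPolynomial.eval (vv j) Ψ ≠ 0) :
    Function.Injective (evg π vv) := by
  rw [injective_iff_map_eq_zero]
  intro Ψ hΨ
  by_contra h0
  rw [evg_apply, h.eq0] at hΨ
  obtain ⟨j, h1, h2⟩ := (hΨ.and (hU Ψ h0)).exists
  exact h2 ((map_eq_zero _).1 h1)

/-- **The field generated by the generic vector is relatively algebraically closed** in the
ultrapower of `F`. -/
theorem Lg_closed (hU : ∀ Ψ : MvPolynomial I F, Ψ ≠ 0 →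
      ∀ᶠ j in (U : Filter J), MvPolynomial.eval (vv j) Ψ ≠ 0)
    (hU2 : ∀ Q : (MvPolynomial I F)[X], 2 ≤ Q.natDegree →
        Irreducible (Q.map (algebraMap (MvPolynomial I F) (FractionRing (MvPolynomial I F)))) →
        ∀ᶠ j in (U : Filter J), ∀ x : F, eval₂ (MvPolynomial.eval (vv j)) x Q ≠ 0)
    {x : S} (hx : x ∈ h.gsub (algebraMap F C).fieldRange) (halg : IsAlgebraic (Lg π vv) x) :
    x ∈ Lg π vv := by
  classical
  have hinj := evg_injective h hU
  let K := FractionRing (MvPolynomial I F)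
  let e : K →+* S := IsFractionRing.lift hinj
  have he : ∀ Ψ : MvPolynomial I F, e (algebraMap _ K Ψ) = evg π vv Ψ := fun Ψ =>
    IsFractionRing.lift_algebraMap hinj Ψ
  have hle : e.fieldRange ≤ Lg π vv := by
    rintro _ ⟨y, rfl⟩
    obtain ⟨a, b, hb, rfl⟩ := IsFractionRing.div_surjective (A := MvPolynomial I F) y
    have h1 : ∀ Ψ : MvPolynomial I F, evg π vv Ψ ∈ Lg π vv := by
      intro Ψ
      induction Ψ using MvPolynomial.induction_on with
      | C c => rw [evg_C]; exact Subfield.subset_closure (Or.inl ⟨c, rfl⟩)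
      | add p q hp hq => rw [map_add]; exact add_mem hp hq
      | mul_X p i hp =>
        rw [map_mul, evg_X]
        exact mul_mem hp (Subfield.subset_closure (Or.inr ⟨i, rfl⟩))
    rw [map_div₀, he, he]
    exact div_mem (h1 a) (h1 b)
  have hge : Lg π vv ≤ e.fieldRange := by
    unfold Lg
    rw [Subfield.closure_le, Set.union_subset_iff]
    refine ⟨?_, ?_⟩
    · rintro _ ⟨c, rfl⟩
      exact ⟨algebraMap _ K (MvPolynomial.C c), by rw [he, evg_C]⟩
    · rintro _ ⟨i, rfl⟩
      exact ⟨algebraMap _ K (MvPolynomial.X i), by rw [he, evg_X]⟩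
  let _ : Algebra K S := e.toAlgebra
  have hK : IsAlgebraic K x := by
    obtain ⟨n, c, hc, hc0, hcx⟩ := isAlgebraic_iff.mp halg
    choose b hb using fun i => hge (hc i)
    refine ⟨∑ i : Fin (n + 1), Polynomial.C (b i) * X ^ (i : ℕ), ?_, ?_⟩
    · intro h0
      apply hc0
      funext j
      have h1 := congrArg (fun q => q.coeff j) h0
      simp only [finsetSum_coeff, coeff_C_mul, coeff_X_pow, coeff_zero] at h1
      rw [Finset.sum_eq_single j] at h1
      · simp only [if_true, mul_one] at h1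
        rw [← hb j, h1, map_zero]; rfl
      · intro l _ hl
        rw [if_neg, mul_zero]
        intro h2
        exact hl (Fin.ext h2.symm)
      · intro h2
        exact absurd (Finset.mem_univ _) h2
    · rw [map_sum, ← hcx]
      refine Finset.sum_congr rfl fun i _ => ?_
      rw [map_mul, aeval_C, map_pow, aeval_X]
      congr 1
      exact hb i
  have hint : IsIntegral K x := hK.isIntegral
  set μ := minpoly K x with hμ
  have hirr : Irreducible μ := minpoly.irreducible hint
  have hμ0 : μ ≠ 0 := hirr.ne_zero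
  by_cases hdeg : μ.natDegree = 1
  · have h1 : μ.degree = 1 := by
      rw [degree_eq_natDegree hμ0, hdeg]; rfl
    obtain ⟨y, hy⟩ := minpoly.mem_range_of_degree_eq_one K x h1
    exact hle ⟨y, hy⟩
  · exfalso
    have hdeg2 : 2 ≤ μ.natDegree := by
      have := hirr.natDegree_pos
      omega
    obtain ⟨b, hbM, hb⟩ := IsLocalization.integerNormalization_spec
      (nonZeroDivisors (MvPolynomial I F)) μ
    set Q := IsLocalization.integerNormalization (nonZeroDivisors (MvPolynomial I F)) μ with hQ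
    have hb0 : algebraMap (MvPolynomial I F) K b ≠ 0 := by
      intro h0
      have h1 : b = 0 := (IsFractionRing.injective (MvPolynomial I F) K) (by rw [h0, map_zero])
      exact nonZeroDivisors.ne_zero hbM h1
    have hb' : Q.map (algebraMap (MvPolynomial I F) K) =
        Polynomial.C (algebraMap (MvPolynomial I F) K b) * μ := by
      rw [hb, ← smul_eq_C_mul, algebraMap_smul]
    have hQirr : Irreducible (Q.map (algebraMap (MvPolynomial I F) K)) := by
      rw [hb']
      exact (irreducible_isUnit_mul (isUnit_C.2 (isUnit_iff_ne_zero.2 hb0))).2 hirr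
    have hQdeg : 2 ≤ Q.natDegree := by
      rw [← natDegree_map_eq_of_injective (IsFractionRing.injective (MvPolynomial I F) K) Q, hb',
        natDegree_C_mul hb0]
      exact hdeg2
    obtain ⟨f, hf, rfl⟩ := hx
    choose g hg using hf
    have hroot : eval₂ (evg π vv) (π f) Q = 0 := by
      have h1 : eval₂ e (π f) (Q.map (algebraMap (MvPolynomial I F) K)) = 0 := by
        rw [hb', eval₂_mul]
        have h2 : eval₂ e (π f) μ = 0 := minpoly.aeval K (π f)
        rw [h2, mul_zero]
      rw [eval₂_map] at h1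
      have h2 : e.comp (algebraMap (MvPolynomial I F) K) = evg π vv := RingHom.ext he
      rwa [h2] at h1
    rw [eval₂_evg, h.eq0] at hroot
    obtain ⟨j, h1, h2⟩ := (hroot.and (hU2 Q hQdeg hQirr)).exists
    apply h2 (g j)
    rw [← hg j, ← hom_eval₂] at h1
    exact (map_eq_zero _).1 h1

end

end UL
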