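import Pool.Agent.Helper10.UL.Count
import Pool.Agent.Helper10.UL.Thin
import Pool.Agent.Helper10.UL.BadPoly

/-!
# Thin sets: unions; separable curves in one variable
-/

universe u v

namespace UL

open Polynomial

section thin

variable {F : Type u} [Field F] {I : Type v}

theorem IsThin.mono {A B : Set (I → F)} (hB : IsThin B) (hAB : A ⊆ B) : IsThin A := by
  obtain ⟨Ψ, S, h1, h2, h3⟩ := hB
  exact ⟨Ψ, S, h1, h2, fun a ha => h3 a (hAB ha)⟩

theorem IsThin.empty : IsThin (∅ : Set (I → F)) :=
  ⟨1, ∅, one_ne_zero, by simp, by simp⟩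

theorem IsThin.union {A B : Set (I → F)} (hA : IsThin A) (hB : IsThin B) : IsThin (A ∪ B) := by
  classical
  obtain ⟨Ψ, S, h1, h2, h3⟩ := hA
  obtain ⟨Ψ', S', h1', h2', h3'⟩ := hB
  refine ⟨Ψ * Ψ', S ∪ S', mul_ne_zero h1 h1', ?_, ?_⟩
  · intro Q hQ
    rcases Finset.mem_union.1 hQ with hQ | hQ
    · exact h2 Q hQ
    · exact h2' Q hQ
  · rintro a (ha | ha)
    · rcases h3 a ha with h | ⟨Q, hQ, x, hx⟩
      · exact Or.inl (by rw [map_mul, h, zero_mul])
      · exact Or.inr ⟨Q, Finset.mem_union_left _ hQ, x, hx⟩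
    · rcases h3' a ha with h | ⟨Q, hQ, x, hx⟩
      · exact Or.inl (by rw [map_mul, h, mul_zero])
      · exact Or.inr ⟨Q, Finset.mem_union_right _ hQ, x, hx⟩

theorem IsThin.biUnion {ι : Type*} (T : Finset ι) {A : ι → Set (I → F)}
    (h : ∀ i ∈ T, IsThin (A i)) : IsThin (⋃ i ∈ T, A i) := by
  classical
  induction T using Finset.induction_on with
  | empty => simpa using IsThin.empty
  | insert i T _ ih =>
    rw [Finset.set_biUnion_insert]
    exact (h i (Finset.mem_insert_self _ _)).union
      (ih fun j hj => h j (Finset.mem_insert_of_mem hj))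

theorem IsThin.of_zeros {A : Set (I → F)} {Ψ : MvPolynomial I F} (hΨ : Ψ ≠ 0)
    (h : ∀ a ∈ A, MvPolynomial.eval a Ψ = 0) : IsThin A :=
  ⟨Ψ, ∅, hΨ, by simp, fun a ha => Or.inl (h a ha)⟩

end thin

/-- The polynomial `∑ i, (∑ e, a (i, e) T ^ e) X ^ i`. -/
noncomputable def curve1 {F k : Type u} [Field F] [Field k] [Algebra F k] {d m : ℕ} (T : k)
    (a : Fin (d + 1) × Fin (m + 1) → F) : k[X] :=
  ∑ i : Fin (d + 1), C (∑ e : Fin (m + 1), algebraMap F k (a (i, e)) * T ^ (e : ℕ)) * X ^ (i : ℕ)

variable {F k : Type u} [Field F] [Field k] [Algebra F k] {d m : ℕ}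

lemma coeff_curve1 (T : k) (a : Fin (d + 1) × Fin (m + 1) → F) (i : Fin (d + 1)) :
    (curve1 T a).coeff i = ∑ e : Fin (m + 1), algebraMap F k (a (i, e)) * T ^ (e : ℕ) :=
  coeff_spec (fun i => ∑ e : Fin (m + 1), algebraMap F k (a (i, e)) * T ^ (e : ℕ)) i

/-- The polynomials which are not separable of degree `d` are in a hypersurface. -/
theorem thin_not_separable [CharZero F] {T : k} (hT : Transcendental F T) (hd : 3 ≤ d) :
    IsThin {a : Fin (d + 1) × Fin (m + 1) → F | ¬ ((curve1 T a).natDegree = d ∧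
      (curve1 T a).Separable)} := by
  classical
  have hk0 : CharZero k := charZero_of_injective_algebraMap (algebraMap F k).injective
  let R := MvPolynomial (Fin (d + 1) × Fin (m + 1)) F
  let A : Fin (d + 1) → Fin (m + 1) → R := fun i e => MvPolynomial.X (i, e)
  let P : R[X] := RR d (fam A)
  have hP : P ≠ 0 := by
    intro h0
    let a₀ : Fin (d + 1) × Fin (m + 1) → F := fun q =>
      if (q.2 : ℕ) = 0 then (if (q.1 : ℕ) = d then 1 else if (q.1 : ℕ) = 0 then -1 else 0) else 0
    have h1 : RR d ((fam A).map (eval₂RingHom (MvPolynomial.eval a₀) 0)) = 0 := by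
      rw [UL.RR_map]
      change eval₂RingHom _ _ P = 0
      rw [h0, map_zero]
    rw [fam_map] at h1
    have h2 : (spec fun i : Fin (d + 1) => ∑ l, (MvPolynomial.eval a₀) (A i l) * (0 : F) ^ (l : ℕ)) =
        X ^ d - 1 := by
      have h3 : ∀ i : Fin (d + 1), ∑ l, (MvPolynomial.eval a₀) (A i l) * (0 : F) ^ (l : ℕ) =
          if (i : ℕ) = d then 1 else if (i : ℕ) = 0 then -1 else 0 := by
        intro i
        rw [Fin.sum_univ_succ, Finset.sum_eq_zero, add_zero]
        · simp [A, a₀]
        · intro l _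
          simp
      simp only [h3]
      ext n
      by_cases hn : n < d + 1
      · have h4 := coeff_spec (fun i : Fin (d + 1) => (if (i : ℕ) = d then 1 else
          if (i : ℕ) = 0 then -1 else 0 : F)) ⟨n, hn⟩
        simp only at h4
        rw [h4, coeff_sub, coeff_X_pow, coeff_one]
        by_cases h5 : n = d
        · subst h5
          rw [if_pos rfl, if_pos rfl, if_neg (by omega), sub_zero]
        · rw [if_neg h5, if_neg h5]
          by_cases h6 : n = 0
          · rw [if_pos h6, if_pos h6, zero_sub]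
          · rw [if_neg h6, if_neg h6, sub_zero]
      · rw [coeff_eq_zero_of_natDegree_lt (lt_of_le_of_lt (natDegree_spec _) (by omega)), coeff_sub,
          coeff_X_pow, coeff_one, if_neg (by omega), if_neg (by omega), sub_zero]
    rw [h2] at h1
    have h3 : (X ^ d - 1 : F[X]).natDegree = d := by
      have := natDegree_X_pow_sub_C (R := F) (n := d) (r := 1)
      rwa [C_1] at this
    have h4 : (X ^ d - 1 : F[X]).Separable := by
      rw [X_pow_sub_one_separable_iff]
      exact Nat.cast_ne_zero.mpr (by omega)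
    exact ((RR_ne_zero_iff (by omega) h3.le).mpr ⟨h3, h4⟩) h1
  refine IsThin.of_zeros (Ψ := P.leadingCoeff) (leadingCoeff_ne_zero.mpr hP) fun a ha => ?_
  by_contra hne
  apply ha
  have h1 : P.map (MvPolynomial.eval a) ≠ 0 := by
    intro h0
    apply hne
    have h2 := congrArg (fun q => q.coeff P.natDegree) h0
    simp only [coeff_map, coeff_zero] at h2
    exact h2
  have h2 : RR d (spec fun i : Fin (d + 1) => ∑ l, ((algebraMap F k).comp (MvPolynomial.eval a))
      (A i l) * T ^ (l : ℕ)) ≠ 0 := by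
    rw [← fam_map, UL.RR_map]
    change eval₂ ((algebraMap F k).comp (MvPolynomial.eval a)) T P ≠ 0
    rw [← eval₂_map]
    exact fun h0 => h1 ((transcendental_iff.mp hT) _ h0)
  have h3 : (spec fun i : Fin (d + 1) => ∑ l, ((algebraMap F k).comp (MvPolynomial.eval a))
      (A i l) * T ^ (l : ℕ)) = curve1 T a := by
    unfold curve1 spec
    refine Finset.sum_congr rfl fun i _ => ?_
    congr 2
    refine Finset.sum_congr rfl fun e _ => ?_
    simp [A]
  rw [h3] at h2
  have h4 : (curve1 T a).natDegree ≤ d := by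
    rw [← h3]
    exact natDegree_spec _
  exact (RR_ne_zero_iff (by omega) h4).mp h2

end UL
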