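import Pool.Agent.Helper13.HP.P9

/-!
# Counting: no sections in degrees not prime to `d`
-/

universe u

namespace UL

open Polynomial Pool.Agent.Helper91.Sect Pool.Agent.GC Pool.Agent.HP

/-- `f` is separable of degree `d`, and for all `n` which are not prime to `d` no curve over `k` which maps onto
`yⁿ = f(x)` has a Galois section. -/
def HasNoSections {k : Type u} [Field k] (d : ℕ) (f : k[X]) : Prop :=
  f.natDegree = d ∧ f.Separable ∧ ∀ n : ℕ, ¬ n.Coprime d →
    ∀ (K : Type u) [Field K] [Algebra k K] (x y : K), Transcendental k x → y ^ n = aeval x f →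
    IsEmpty (GaloisSection k K)

/-- a curve over `y ^ p = f(x)` has a section -/
def SectionP {k : Type u} [Field k] (p : ℕ) (f : k[X]) : Prop :=
  ∃ (K : Type u) (_ : Field K) (_ : Algebra k K) (x y : K), Transcendental k x ∧
    y ^ p = aeval x f ∧ Nonempty (GaloisSection k K)

theorem hasNoSections_of {k : Type u} [Field k] {d : ℕ} {f : k[X]} (h1 : f.natDegree = d)
    (h2 : f.Separable) (h3 : ∀ p : ℕ, p.Prime → p ∣ d → ¬ SectionP p f) : HasNoSections d f := by
  refine ⟨h1, h2, fun n hn K _ _ x y hx hxy => ⟨fun s => ?_⟩⟩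
  obtain ⟨p, hp, hpn, hpd⟩ := Nat.Prime.not_coprime_iff_dvd.1 hn
  refine h3 p hp hpd ⟨K, inferInstance, inferInstance, x, y ^ (n / p), hx, ?_, ⟨s⟩⟩
  rw [← pow_mul, Nat.div_mul_cancel hpn, hxy]

theorem finite_box {ι : Type} [Fintype ι] (H : ℕ) (P : (ι → ℤ) → Prop) :
    {a : ι → ℤ | (∀ i, |a i| ≤ H) ∧ P a}.Finite := by
  classical
  refine Set.Finite.subset (Finset.finite_toSet
    (Fintype.piFinset fun _ : ι => Finset.Icc (-(H : ℤ)) H)) ?_
  rintro a ⟨ha, -⟩
  rw [Finset.mem_coe, Fintype.mem_piFinset]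
  intro i
  rw [Finset.mem_Icc]
  exact abs_le.1 (ha i)

/-- Counting from the statement that the bad vectors are not Zariski dense. -/
theorem count_of_key {F₀ k : Type u} [Field F₀] [CharZero F₀] [Field k] [Algebra F₀ k]
    (hF : ∃ S : Finset F₀, Subfield.closure (S : Set F₀) = ⊤) {r : ℕ}
    {t : Fin (r + 2) → k} (ht : AlgebraicIndependent F₀ t)
    (htop : IntermediateField.adjoin F₀ (Set.range t) = ⊤)
    {d m : ℕ} (hd : 3 ≤ d) (hm1 : 1 ≤ m)
    (key : ∀ p : ℕ, p.Prime → p ∣ d →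
      ∃ Ψ : MvPolynomial (Fin (d + 1) × IdxR (r + 2) m) ℤ, Ψ ≠ 0 ∧
        ∀ a : Fin (d + 1) × IdxR (r + 2) m → ℤ, (curvePol t a).natDegree = d →
          (curvePol t a).Separable → SectionP p (curvePol t a) → MvPolynomial.eval a Ψ = 0) :
    ∃ C : ℕ, ∀ H : ℕ,
      {a : Fin (d + 1) × IdxR (r + 2) m → ℤ | (∀ i, |a i| ≤ H) ∧
        ¬ HasNoSections d (curvePol t a)}.ncard ≤
        C * (2 * H + 1) ^ (Fintype.card (Fin (d + 1) × IdxR (r + 2) m) - 1) := by
  classical
  obtain ⟨C₁, hC₁⟩ := superelliptic_percent hF ht htop hd hm1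
  choose! Ψ hΨ0 hΨ using key
  let Φ : MvPolynomial (Fin (d + 1) × IdxR (r + 2) m) ℤ := ∏ p ∈ d.primeFactors, Ψ p
  have hΦ0 : Φ ≠ 0 := Finset.prod_ne_zero_iff.mpr fun p hp =>
    hΨ0 p (Nat.prime_of_mem_primeFactors hp) (Nat.dvd_of_mem_primeFactors hp)
  obtain ⟨C₂, hC₂⟩ := count_zeros (ι := Fin (d + 1) × IdxR (r + 2) m)
    (κ := Fin (d + 1) × IdxR (r + 2) m) id Function.injective_id hΦ0
  refine ⟨C₁ + C₂, fun H => ?_⟩
  rw [add_mul]
  refine le_trans ?_ (Nat.add_le_add (hC₁ H) (hC₂ H))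
  refine le_trans (Set.ncard_le_ncard ?_ ?_) (Set.ncard_union_le _ _)
  · rintro a ⟨ha, hbad⟩
    by_cases h1 : GoodCurve m d (curvePol t a)
    · right
      refine ⟨ha, ?_⟩
      by_contra hne
      apply hbad
      refine hasNoSections_of h1.1 h1.2.1 fun p hp hpd hs => hne ?_
      change MvPolynomial.eval a (∏ p ∈ d.primeFactors, Ψ p) = 0
      rw [map_prod]
      exact Finset.prod_eq_zero (Nat.mem_primeFactors.mpr ⟨hp, hpd, by omega⟩)
        (hΨ p hp hpd a h1.1 h1.2.1 hs)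
    · exact Or.inl ⟨ha, h1⟩
  · exact (finite_box H _).union (finite_box H _)

end UL
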