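import Mathlib
import Pool.Agent.Helper10.UL.Gen4
import Pool.Agent.Helper37.UL.LevEq2

/-!
# The generic curve in one variable has no level one structure
-/

universe u v w

namespace UL

open Polynomial Pool.Agent.Helper37.UL

section lin

variable {d m : ℕ}

/-- the index of the last coefficient -/
def qd (d m : ℕ) : Fin (d + 1) × Fin (m + 1) := (Fin.last d, 0)

/-- the index of the second last coefficient -/
def qe (d m : ℕ) : Fin (d + 1) × Fin (m + 1) := (⟨d - 1, by omega⟩, 0)

/-- the new variables -/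
def ynew {R : Type*} [CommRing R] (x : Fin (d + 1) × Fin (m + 1) → R)
    (q : Fin (d + 1) × Fin (m + 1)) : R := if q = qe d m then x q + x (qd d m) else x q

lemma qd_ne_qe (hd : 3 ≤ d) : qd d m ≠ qe d m := by
  intro h
  have := congrArg (fun q => (q.1 : ℕ)) h
  simp [qd, qe] at this
  omega

/-- The new variables are algebraically independent. -/
theorem algInd_ynew {K L : Type*} [Field K] [Field L] [Algebra K L] (hd : 3 ≤ d)
    {x : Fin (d + 1) × Fin (m + 1) → L} (hx : AlgebraicIndependent K x) :
    AlgebraicIndependent K (ynew x) := by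
  classical
  let I := Fin (d + 1) × Fin (m + 1)
  let φ : MvPolynomial I K →ₐ[K] MvPolynomial I K :=
    MvPolynomial.aeval (ynew (fun q => MvPolynomial.X q))
  let ψ : MvPolynomial I K →ₐ[K] MvPolynomial I K :=
    MvPolynomial.aeval (fun q => if q = qe d m then MvPolynomial.X q - MvPolynomial.X (qd d m)
      else MvPolynomial.X q)
  have h1 : ψ.comp φ = AlgHom.id K _ := by
    apply MvPolynomial.algHom_ext
    intro q
    rw [AlgHom.comp_apply]
    simp only [φ, MvPolynomial.aeval_X, ynew]
    by_cases hq : q = qe d m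
    · rw [if_pos hq, map_add]
      simp only [ψ, MvPolynomial.aeval_X]
      rw [if_pos hq, if_neg (qd_ne_qe hd), sub_add_cancel]
      rfl
    · rw [if_neg hq]
      simp only [ψ, MvPolynomial.aeval_X]
      rw [if_neg hq]
      rfl
  have hφ : Function.Injective φ := by
    intro a b hab
    have h2 := congrArg ψ hab
    rw [← AlgHom.comp_apply, ← AlgHom.comp_apply, h1] at h2
    exact h2
  have h2 : (MvPolynomial.aeval (ynew x) : MvPolynomial I K →ₐ[K] L) =
      (MvPolynomial.aeval x).comp φ := by
    apply MvPolynomial.algHom_ext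
    intro q
    rw [AlgHom.comp_apply]
    simp only [φ, MvPolynomial.aeval_X, ynew]
    by_cases hq : q = qe d m
    · rw [if_pos hq, if_pos hq, map_add, MvPolynomial.aeval_X, MvPolynomial.aeval_X]
    · rw [if_neg hq, if_neg hq, MvPolynomial.aeval_X]
  unfold AlgebraicIndependent
  rw [h2]
  exact (show Function.Injective (MvPolynomial.aeval x : MvPolynomial I K →ₐ[K] L) from hx).comp hφ

end lin

section coeffs

variable {R : Type*} [CommRing R] {d m : ℕ}

/-- the coefficient polynomials in the two variables `T`, `u = a_(d,0)` -/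
noncomputable def cTwo (b : Fin (d + 1) × Fin (m + 1) → R) (i : Fin (d + 1)) :
    MvPolynomial (Fin 2) R :=
  ∑ e : Fin (m + 1), MvPolynomial.monomial (Finsupp.single 0 (e : ℕ))
    (if (i, e) = qd d m then 0 else b (i, e)) +
  MvPolynomial.monomial (Finsupp.single 1 1)
    (if (i : ℕ) = d then 1 else if (i : ℕ) = d - 1 then -1 else 0)

lemma coeff_cTwo (b : Fin (d + 1) × Fin (m + 1) → R) (i : Fin (d + 1)) (q : Fin 2 →₀ ℕ) :
    MvPolynomial.coeff q (cTwo b i) =
      (∑ e : Fin (m + 1), if Finsupp.single 0 (e : ℕ) = q then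
        (if (i, e) = qd d m then 0 else b (i, e)) else 0) +
      if Finsupp.single 1 1 = q then
        (if (i : ℕ) = d then 1 else if (i : ℕ) = d - 1 then -1 else 0) else 0 := by
  unfold cTwo
  rw [MvPolynomial.coeff_add, MvPolynomial.coeff_sum, MvPolynomial.coeff_monomial]
  congr 1
  refine Finset.sum_congr rfl fun e _ => ?_
  rw [MvPolynomial.coeff_monomial]

lemma sing_ne (e : ℕ) : (Finsupp.single 0 e : Fin 2 →₀ ℕ) ≠ Finsupp.single 1 1 := by
  intro h
  have := DFunLike.congr_fun h 1
  simp at this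

lemma aeval_cTwo {S : Type*} [CommRing S] [Algebra R S] (hd : 3 ≤ d) (T : S)
    (x : Fin (d + 1) × Fin (m + 1) → S) (b : Fin (d + 1) × Fin (m + 1) → R)
    (hb : ∀ q, q ≠ qd d m → algebraMap R S (b q) = ynew x q) (i : Fin (d + 1)) :
    MvPolynomial.aeval ![T, x (qd d m)] (cTwo b i) = ∑ e, x (i, e) * T ^ (e : ℕ) := by
  classical
  unfold cTwo
  rw [map_add, map_sum]
  simp only [MvPolynomial.aeval_monomial]
  rw [Finsupp.prod_single_index (by simp)]
  simp only [Matrix.cons_val_one, pow_one, Matrix.cons_val_fin_one]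
  have h1 : ∀ e : Fin (m + 1), (Finsupp.single (0 : Fin 2) (e : ℕ)).prod
      (fun i k => (![T, x (qd d m)] : Fin 2 → S) i ^ k) = T ^ (e : ℕ) := by
    intro e
    rw [Finsupp.prod_single_index (by simp)]
    simp
  simp only [h1]
  by_cases hid : (i : ℕ) = d
  · have hi : i = Fin.last d := Fin.ext hid
    subst hi
    rw [if_pos hid, map_one, one_mul, Fin.sum_univ_succ, Fin.sum_univ_succ]
    have h2 : ((Fin.last d, 0) : Fin (d + 1) × Fin (m + 1)) = qd d m := rfl
    rw [if_pos h2, map_zero, zero_mul, zero_add, h2]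
    simp only [Fin.val_zero, pow_zero, mul_one]
    rw [add_comm]
    congr 1
    refine Finset.sum_congr rfl fun e _ => ?_
    have h3 : ((Fin.last d, e.succ) : Fin (d + 1) × Fin (m + 1)) ≠ qd d m := by
      intro h
      exact Fin.succ_ne_zero e (congrArg Prod.snd h)
    have h4 : ((Fin.last d, e.succ) : Fin (d + 1) × Fin (m + 1)) ≠ qe d m := by
      intro h
      exact Fin.succ_ne_zero e (congrArg Prod.snd h)
    rw [if_neg h3, hb _ h3]
    unfold ynew
    rw [if_neg h4]
  · have hne : ∀ e, ((i, e) : Fin (d + 1) × Fin (m + 1)) ≠ qd d m := by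
      intro e h
      apply hid
      have := congrArg (fun q => (q.1 : ℕ)) h
      exact this
    rw [if_neg hid]
    by_cases hid1 : (i : ℕ) = d - 1
    · have hi : i = ⟨d - 1, by omega⟩ := Fin.ext hid1
      rw [if_pos hid1, Fin.sum_univ_succ, Fin.sum_univ_succ, if_neg (hne 0), hb _ (hne 0)]
      have h2 : ((i, 0) : Fin (d + 1) × Fin (m + 1)) = qe d m := by rw [hi]; rfl
      have h3 : ynew x (i, 0) = x (i, 0) + x (qd d m) := by
        unfold ynew
        rw [if_pos h2]
      rw [h3]
      simp only [Fin.val_zero, pow_zero, mul_one]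
      have h4 : ∀ e : Fin m, algebraMap R S (if ((i, e.succ) : Fin (d + 1) × Fin (m + 1)) = qd d m
          then 0 else b (i, e.succ)) = x (i, e.succ) := by
        intro e
        have h5 : ((i, e.succ) : Fin (d + 1) × Fin (m + 1)) ≠ qe d m := by
          intro h
          exact Fin.succ_ne_zero e (congrArg Prod.snd h)
        rw [if_neg (hne _), hb _ (hne _)]
        unfold ynew
        rw [if_neg h5]
      simp only [h4, map_neg, map_one]
      ring
    · rw [if_neg hid1, map_zero, zero_mul, add_zero]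
      refine Finset.sum_congr rfl fun e _ => ?_
      have h5 : ((i, e) : Fin (d + 1) × Fin (m + 1)) ≠ qe d m := by
        intro h
        apply hid1
        have := congrArg (fun q => (q.1 : ℕ)) h
        exact this
      rw [if_neg (hne _), hb _ (hne _)]
      unfold ynew
      rw [if_neg h5]

end coeffs

/-- the assignment for `no_lev` -/
def n2 {d m : ℕ} (q : Fin (d + 1) × Fin (m + 1)) : ℤ :=
  if (q.2 : ℕ) = 1 then (if q.1 = 0 then -1 else 0) else 0

section

variable {S : Type w} [Field S] {W : ValuationSubring S} {A : Subfield S} {d m : ℕ}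

theorem noLev_hyps_one (hd : 3 ≤ d) (hm : 1 ≤ m) {x : Fin (d + 1) × Fin (m + 1) → S}
    (hxW : ∀ q, x q ∈ W) (hx : ∀ q, W.valuation (x q - n2 q) < 1)
    {b : Fin (d + 1) × Fin (m + 1) → A} (hb : ∀ q, q ≠ qd d m → (b q : S) = ynew x q) :
    (∀ i r', ((MvPolynomial.coeff r' (cTwo b i) : A) : S) ∈ W) ∧
    (∀ i, W.valuation ((MvPolynomial.coeff 0 (cTwo b i) : A) : S) < 1) ∧
    (∀ i, W.valuation
      (((MvPolynomial.coeff (Finsupp.single (0 : Fin 2) 1) (cTwo b i) : A) : S) +
        if i = 0 then 1 else 0) < 1) ∧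
    (∀ i, W.valuation
      (((MvPolynomial.coeff (Finsupp.single (1 : Fin 2) 1) (cTwo b i) : A) : S) -
      if (i : ℕ) = d then 1 else if (i : ℕ) = d - 1 then -1 else 0) < 1) := by
  classical
  -- the values of the new variables
  have hn0 : ∀ q : Fin (d + 1) × Fin (m + 1), (q.2 : ℕ) = 0 → W.valuation (x q) < 1 := by
    intro q hq
    have h1 := hx q
    have h2 : n2 q = 0 := by
      unfold n2
      rw [if_neg (by omega)]
    rwa [h2, Int.cast_zero, sub_zero] at h1
  have hyW : ∀ q, ynew x q ∈ W := by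
    intro q
    unfold ynew
    split_ifs
    · exact add_mem (hxW _) (hxW _)
    · exact hxW _
  have hy0 : ∀ q : Fin (d + 1) × Fin (m + 1), (q.2 : ℕ) = 0 → W.valuation (ynew x q) < 1 := by
    intro q hq
    unfold ynew
    split_ifs
    · exact Valuation.map_add_lt _ (hn0 q hq) (hn0 _ rfl)
    · exact hn0 q hq
  have hbW : ∀ q, ((if q = qd d m then 0 else b q : A) : S) ∈ W := by
    intro q
    split_ifs with hq
    · exact zero_mem _
    · rw [hb q hq]; exact hyW q
  refine ⟨fun i r' => ?_, fun i => ?_, fun i => ?_, fun i => ?_⟩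
  · rw [coeff_cTwo]
    have hs : ∀ a b : A, ((a + b : A) : S) = (a : S) + (b : S) := fun _ _ => rfl
    have hs2 : ((∑ e : Fin (m + 1), (if Finsupp.single 0 (e : ℕ) = r' then
        (if (i, e) = qd d m then 0 else b (i, e)) else 0) : A) : S) =
        ∑ e : Fin (m + 1), (((if Finsupp.single 0 (e : ℕ) = r' then
        (if (i, e) = qd d m then 0 else b (i, e)) else 0) : A) : S) := map_sum A.subtype _ _
    rw [hs, hs2]
    refine add_mem (sum_mem fun e _ => ?_) ?_
    · by_cases h1 : (Finsupp.single 0 (e : ℕ) : Fin 2 →₀ ℕ) = r'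
      · rw [if_pos h1]; exact hbW (i, e)
      · rw [if_neg h1]; exact zero_mem _
    · split_ifs
      · exact one_mem _
      · exact neg_mem (one_mem _)
      · exact zero_mem _
      · exact zero_mem _
  · rw [coeff_cTwo, Finset.sum_eq_single (0 : Fin (m + 1))]
    · have h1 : (Finsupp.single 1 1 : Fin 2 →₀ ℕ) ≠ 0 := by simp
      rw [if_neg h1, add_zero]
      have h2 : (Finsupp.single 0 ((0 : Fin (m + 1)) : ℕ) : Fin 2 →₀ ℕ) = 0 := by simp
      rw [if_pos h2]
      split_ifs with h3
      · have : ((0 : A) : S) = 0 := rfl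
        rw [this, map_zero]; exact zero_lt_one
      · rw [hb _ h3]; exact hy0 _ rfl
    · intro e _ he
      rw [if_neg]
      intro h
      apply he
      have := DFunLike.congr_fun h 0
      simp at this
      exact this
    · intro h; exact absurd (Finset.mem_univ _) h
  · rw [coeff_cTwo, Finset.sum_eq_single (⟨1, by omega⟩ : Fin (m + 1)), if_pos rfl]
    · have h0 : (Finsupp.single 1 1 : Fin 2 →₀ ℕ) ≠ Finsupp.single 0 1 := (sing_ne 1).symm
      rw [if_neg h0, add_zero]
      have h3 : ((i, ⟨1, by omega⟩) : Fin (d + 1) × Fin (m + 1)) ≠ qd d m := by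
        intro h
        have := congrArg (fun q => (q.2 : ℕ)) h
        simp [qd] at this
      have h4 : ((i, ⟨1, by omega⟩) : Fin (d + 1) × Fin (m + 1)) ≠ qe d m := by
        intro h
        have := congrArg (fun q => (q.2 : ℕ)) h
        simp [qe] at this
      rw [if_neg h3, hb _ h3]
      unfold ynew
      rw [if_neg h4]
      have h5 := hx (i, ⟨1, by omega⟩)
      have h6 : (n2 ((i, ⟨1, by omega⟩) : Fin (d + 1) × Fin (m + 1))) = if i = 0 then -1 else 0 := by
        unfold n2
        rw [if_pos rfl]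
      rw [h6] at h5
      convert h5 using 2
      split_ifs <;> simp
    · intro e _ he
      rw [if_neg]
      intro h
      apply he
      have := DFunLike.congr_fun h 0
      simp at this
      exact Fin.ext this
    · intro h; exact absurd (Finset.mem_univ _) h
  · rw [coeff_cTwo, Finset.sum_eq_zero, if_pos rfl, zero_add]
    · have h1 : (((if (i : ℕ) = d then 1 else if (i : ℕ) = d - 1 then -1 else 0 : A)) : S) =
          if (i : ℕ) = d then 1 else if (i : ℕ) = d - 1 then -1 else 0 := by
        split_ifs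
        · rfl
        · rfl
        · rfl
      rw [h1, sub_self, map_zero]
      exact zero_lt_one
    · intro e _
      rw [if_neg (sing_ne e)]

end

section

variable {S : Type w} [Field S] {d m : ℕ} {J : Type v} {U : Ultrafilter J} {C : Type u} [Field C]
  {π : (J → C) →+* S} {vv : J → Fin (d + 1) × Fin (m + 1) → C} (h : UP U π)

include h

/-- **No level one structure for the generic curve in one variable.** -/
theorem no_lev_one [IsAlgClosed C] [CharZero C]
    (hU : ∀ Ψ : MvPolynomial (Fin (d + 1) × Fin (m + 1)) C, Ψ ≠ 0 →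
      ∀ᶠ j in (U : Filter J), MvPolynomial.eval (vv j) Ψ ≠ 0)
    {κ : Subfield C} {T : C} (hT : AlgebraicIndependent κ ![T])
    {p : ℕ} (hp : p.Prime) (hd : 3 ≤ d) (hm : 1 ≤ m)
    {L' : Subfield S} (hL : L' ≤ Subfield.closure ((UP.cst π '' κ) ∪ Set.range (xg π vv)))
    {θ : Fin d → S} {z : Fin d → Fin d → S} {α : S}
    (hl : Lev (gen L' (fun i => UP.cst π ((![T] : Fin 1 → C) i))) p
      (fun i : Fin (d + 1) => π fun a => ∑ e : Fin (m + 1), vv a (i, e) * T ^ (e : ℕ))
      θ z α) : False := by
  classical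
  have := h.isAlgClosed
  have := h.charZero
  obtain ⟨W, hW, hWc, hWx, hWv⟩ := exists_W_C h hU n2
  set x := xg π vv with hx
  set y := ynew x with hy
  let Cst := (UP.cst π).fieldRange
  let κ' : Subfield S := κ.map (UP.cst π)
  have hκC : κ' ≤ Cst := by
    rintro _ ⟨c, -, rfl⟩
    exact ⟨c, rfl⟩
  have hTC : UP.cst π T ∈ Cst := ⟨T, rfl⟩
  have hyC : AlgebraicIndependent Cst y := algInd_ynew hd (algInd_xgC h hU)
  -- `T` is transcendental over `κ'`
  have hT' : AlgebraicIndependent κ' ![UP.cst π T] := by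
    have h1 := h.algInd hT
    have h2 : κ' ≤ h.gsub κ := by
      rintro _ ⟨c, hc, rfl⟩
      exact h.const_mem_gsub.mpr hc
    have h3 : (fun i => UP.cst π ((![T] : Fin 1 → C) i)) = ![UP.cst π T] := by
      funext i
      fin_cases i; rfl
    rw [h3] at h1
    let _ : Algebra κ' (h.gsub κ) := (Subfield.inclusion h2).toAlgebra
    have : IsScalarTower κ' (h.gsub κ) S := IsScalarTower.of_algebraMap_eq fun _ => rfl
    exact h1.restrictScalars (Subfield.inclusion h2).injective
  -- `y` is algebraically independent over `κ'[T]`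
  have hyT : AlgebraicIndependent (Algebra.adjoin κ' (Set.range ![UP.cst π T])) y := by
    have hle : ∀ a : S, a ∈ Algebra.adjoin κ' (Set.range ![UP.cst π T]) → a ∈ Cst := by
      intro a ha
      have h1 : Algebra.adjoin κ' (Set.range ![UP.cst π T]) ≤
          { Cst.toSubring with algebraMap_mem' := fun q => hκC q.2 } := by
        rw [Algebra.adjoin_le_iff]
        rintro _ ⟨i, rfl⟩
        fin_cases i
        exact hTC
      exact h1 ha
    let _ : Algebra (Algebra.adjoin κ' (Set.range ![UP.cst π T])) Cst := RingHom.toAlgebra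
      { toFun := fun a => ⟨a, hle a a.2⟩
        map_one' := rfl
        map_mul' := fun _ _ => rfl
        map_zero' := rfl
        map_add' := fun _ _ => rfl }
    have : IsScalarTower (Algebra.adjoin κ' (Set.range ![UP.cst π T])) Cst S :=
      IsScalarTower.of_algebraMap_eq fun _ => rfl
    refine hyC.restrictScalars (K := Cst) ?_
    intro a b hab
    exact Subtype.ext (congrArg (fun t : Cst => (t : S)) hab)
  have hyT2 : AlgebraicIndependent κ' (Sum.elim y ![UP.cst π T]) :=
    AlgebraicIndependent.sumElim_iff.2 ⟨hT', hyT⟩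
  -- rearrange
  let Q := {q : Fin (d + 1) × Fin (m + 1) // q ≠ qd d m}
  let φ : Fin 2 ⊕ Q → (Fin (d + 1) × Fin (m + 1)) ⊕ Fin 1 :=
    Sum.elim ![Sum.inr 0, Sum.inl (qd d m)] (fun q => Sum.inl q.1)
  have hφ : Function.Injective φ := by
    rintro (i | q) (j | q') hij
    · fin_cases i <;> fin_cases j <;> simp [φ] at hij ⊢
    · fin_cases i
      · simp [φ] at hij
      · simp only [φ, Sum.elim_inl, Sum.elim_inr] at hij
        exact absurd (Sum.inl_injective hij).symm q'.2
    · fin_cases j
      · simp [φ] at hij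
      · simp only [φ, Sum.elim_inl, Sum.elim_inr] at hij
        exact absurd (Sum.inl_injective hij) q.2
    · simp only [φ, Sum.elim_inr] at hij
      rw [Subtype.ext (Sum.inl_injective hij)]
  have hyqd : y (qd d m) = x (qd d m) := by
    rw [hy]
    unfold ynew
    rw [if_neg (qd_ne_qe hd)]
  have h3 : AlgebraicIndependent κ' (Sum.elim ![UP.cst π T, x (qd d m)] (fun q : Q => y q.1)) := by
    have h4 := hyT2.comp φ hφ
    have e : Sum.elim y ![UP.cst π T] ∘ φ =
        Sum.elim ![UP.cst π T, x (qd d m)] (fun q : Q => y q.1) := by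
      funext i
      rcases i with i | q
      · fin_cases i
        · rfl
        · exact hyqd
      · rfl
    rwa [e] at h4
  have h4 := (AlgebraicIndependent.sumElim_iff.1 h3).2
  have h5 : AlgebraicIndependent (IntermediateField.adjoin κ' (Set.range fun q : Q => y q.1))
      ![UP.cst π T, x (qd d m)] := IntermediateField.algebraicIndependent_adjoin_iff.2 h4
  let A : Subfield S := (IntermediateField.adjoin κ' (Set.range fun q : Q => y q.1)).toSubfield
  have hA : AlgebraicIndependent A ![UP.cst π T, x (qd d m)] := h5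
  have hyA : ∀ q, q ≠ qd d m → y q ∈ A := fun q hq =>
    IntermediateField.subset_adjoin κ' _ ⟨⟨q, hq⟩, rfl⟩
  have hκA : κ' ≤ A := fun c hc => IntermediateField.algebraMap_mem _ (⟨c, hc⟩ : κ')
  let b : Fin (d + 1) × Fin (m + 1) → A := fun q =>
    if hq : q = qd d m then 0 else ⟨y q, hyA q hq⟩
  have hb : ∀ q, q ≠ qd d m → (b q : S) = ynew x q := by
    intro q hq
    simp only [b]
    rw [dif_neg hq]
  obtain ⟨k1, k2, k3, k4⟩ := noLev_hyps_one (W := W) hd hm hWx hWv hb
  refine no_lev_gen hA hp hd (fun i => cTwo b i) W hW k1 k2 k3 k4 (θ := θ) (z := z)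
    (α := α) ?_
  have h6 : (fun i : Fin (d + 1) => π fun a => ∑ e : Fin (m + 1), vv a (i, e) * T ^ (e : ℕ)) =
      fun i => MvPolynomial.aeval ![UP.cst π T, x (qd d m)] (cTwo b i) := by
    funext i
    rw [pi_one, aeval_cTwo hd (UP.cst π T) x b hb]
  rw [h6] at hl
  refine hl.mono ?_
  -- the field
  have hxmem : ∀ q, x q ∈ gen A ![UP.cst π T, x (qd d m)] := by
    intro q
    have hu : x (qd d m) ∈ gen A ![UP.cst π T, x (qd d m)] := gen_mem (τ := ![UP.cst π T, x (qd d m)]) 1
    by_cases hq : q = qd d m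
    · rw [hq]; exact hu
    · have h7 : y q ∈ gen A ![UP.cst π T, x (qd d m)] := le_gen (hyA q hq)
      by_cases hq' : q = qe d m
      · have h8 : y q = x q + x (qd d m) := by
          rw [hy]; unfold ynew; rw [if_pos hq']
        have h9 : x q = y q - x (qd d m) := by rw [h8]; ring
        rw [h9]
        exact sub_mem h7 hu
      · have h8 : y q = x q := by
          rw [hy]; unfold ynew; rw [if_neg hq']
        rwa [h8] at h7
  have hL' : L' ≤ gen A ![UP.cst π T, x (qd d m)] := by
    refine hL.trans ?_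
    rw [Subfield.closure_le, Set.union_subset_iff]
    refine ⟨?_, ?_⟩
    · rintro _ ⟨c, hc, rfl⟩
      exact le_gen (hκA ⟨c, hc, rfl⟩)
    · rintro _ ⟨q, rfl⟩
      exact hxmem q
  unfold gen at hL' ⊢
  rw [Subfield.closure_le, Set.union_subset_iff]
  refine ⟨hL', ?_⟩
  rintro _ ⟨i, rfl⟩
  refine Subfield.subset_closure (Or.inr ⟨0, ?_⟩)
  fin_cases i
  rfl

end

end UL
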