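import Pool.Agent.Helper10.UL.Thin
import Pool.Agent.Helper10.UL.Gen5
import Pool.Agent.Helper13.TD.R0

/-!
# Interfaces
-/

universe u v w

namespace UL

open Polynomial Pool.Agent.Helper37.UL

theorem exists_ultra_hilb {F C : Type u} [Field F] [Field C] [Algebra F C] {J : Type v}
    {I : Type} (vv : J → I → F) (hnt : ¬ IsThin (Set.range vv)) : ∃ U : Ultrafilter J,
    (∀ Ψ : MvPolynomial I F, Ψ ≠ 0 → ∀ᶠ j in (U : Filter J), MvPolynomial.eval (vv j) Ψ ≠ 0) ∧
    ∀ {S : Type (max v u)} [Field S] {π : (J → C) →+* S} (h : UP U π),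
      ∀ y ∈ h.gsub (algebraMap F C).fieldRange,
        IsAlgebraic (Subfield.closure (UP.cst π '' (algebraMap F C).fieldRange ∪
          Set.range (xg π fun j q => algebraMap F C (vv j q)))) y →
        y ∈ Subfield.closure (UP.cst π '' (algebraMap F C).fieldRange ∪
          Set.range (xg π fun j q => algebraMap F C (vv j q))) := by
  obtain ⟨U, h1, h2⟩ := exists_ultra_thin vv hnt
  refine ⟨U, h1, ?_⟩
  intro S _ π h y hy hyalg
  have h3 : Subfield.closure (UP.cst π '' (algebraMap F C).fieldRange ∪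
      Set.range (xg π fun j q => algebraMap F C (vv j q))) = Lg π vv := by
    unfold Lg
    congr 2
    ext x
    constructor
    · rintro ⟨_, ⟨c, rfl⟩, rfl⟩
      exact ⟨c, rfl⟩
    · rintro ⟨c, rfl⟩
      exact ⟨_, ⟨c, rfl⟩, rfl⟩
  rw [h3] at hyalg ⊢
  exact Lg_closed h h1 h2 hy hyalg

theorem rel_adjoin' {S : Type w} [Field S] [CharZero S] [IsAlgClosed S] {K M : Subfield S}
    (hKM : K ≤ M) (hrel : ∀ x ∈ M, IsAlgebraic K x → x ∈ K) {e : S} (he : IsAlgebraic K e) {y : S}
    (hy : y ∈ Subfield.closure ((M : Set S) ∪ {e}))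
    (halg : IsAlgebraic (Subfield.closure ((K : Set S) ∪ {e})) y) :
    y ∈ Subfield.closure ((K : Set S) ∪ {e}) :=
  Pool.Agent.TD.relClosed_adjoin hKM hrel he y hy halg

theorem gsub_adjoin' {J : Type v} {U : Ultrafilter J} {C : Type u} [Field C] {S : Type w} [Field S]
    {π : (J → C) →+* S} (h : UP U π) {A : Subfield C} {e : C} (he : IsAlgebraic A e) :
    h.gsub (Subfield.closure ((A : Set C) ∪ {e})) ≤
      Subfield.closure ((h.gsub A : Set S) ∪ {UP.cst π e}) :=
  (Pool.Agent.TD.gsub_adjoin h he).le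

end UL
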