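import Pool.Agent.Helper10.UL.ThinOne
import Pool.Agent.Helper10.UL.NoFamOne
import Pool.Agent.Helper10.UL.Gen5
import Pool.Agent.Helper37.UL.StubA
import Pool.Agent.Helper13.TD.D1

/-!
# Assembly in one variable
-/

universe u

namespace UL

open Polynomial Pool.Agent.Helper37.UL Pool.Agent.Helper91.Sect Pool.Agent.HP

/-- The coefficients of the curves with sections are thin. -/
theorem thin_key {F k : Type u} [Field F] [CharZero F] [Field k] [Algebra F k]
    (hF : ∃ S : Finset F, Subfield.closure (S : Set F) = ⊤) {T : k} (hT : Transcendental F T)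
    (htop : IntermediateField.adjoin F {T} = ⊤) {d m : ℕ} (hd : 3 ≤ d) (hm : 1 ≤ m) {p : ℕ}
    (hp : p.Prime) (hpd : p ∣ d) :
    IsThin {a : Fin (d + 1) × Fin (m + 1) → F | (curve1 T a).natDegree = d ∧
      (curve1 T a).Separable ∧ SectionP p (curve1 T a)} := by
  classical
  by_contra hcon
  have hk0 : CharZero k := charZero_of_injective_algebraMap (algebraMap F k).injective
  let J : Type u := {a : Fin (d + 1) × Fin (m + 1) → F // (curve1 T a).natDegree = d ∧
    (curve1 T a).Separable ∧ SectionP p (curve1 T a)}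
  let vv : J → Fin (d + 1) × Fin (m + 1) → F := Subtype.val
  have hnt : ¬ IsThin (Set.range vv) := by
    intro h
    apply hcon
    refine h.mono fun a ha => ⟨⟨a, ha⟩, rfl⟩
  let C : Type u := AlgebraicClosure k
  have hC0 : CharZero C := charZero_of_injective_algebraMap (algebraMap k C).injective
  -- level one structures
  have hA : ∀ j : J, ∃ (θ : Fin d → C) (z : Fin d → Fin d → C) (α : C),
      Lev (algebraMap k C).fieldRange p
        (fun i : Fin (d + 1) => algebraMap k C
          (∑ l : Fin (m + 1), algebraMap F k (vv j (i, l)) * T ^ (l : ℕ))) θ z α ∧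
      ∀ V : ValuationSubring C,
        HasPlaces (IsLocalRing.ResidueField (V.comap (algebraMap k C))) →
        ((p : ℕ) : IsLocalRing.ResidueField (V.comap (algebraMap k C))) ≠ 0 →
        GoodAt V (fun i : Fin (d + 1) => algebraMap k C
          (∑ l : Fin (m + 1), algebraMap F k (vv j (i, l)) * T ^ (l : ℕ))) θ →
        ∀ σ : C ≃+* C, Inert (algebraMap k C).fieldRange V σ →
          ∀ i j, i ≠ j → σ (z i j) = z i j := by
    rintro ⟨a, h1, h2, K, _, _, x, y, hx, hxy, ⟨s⟩⟩
    obtain ⟨θ, z, α, h3, h4⟩ := exists_lev hp hpd hd h2 h1 hx hxy s C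
    simp only [coeff_curve1] at h3 h4
    exact ⟨θ, z, α, h3, h4⟩
  choose θ z α hlev hin using hA
  obtain ⟨B, -, hB⟩ := Pool.Agent.TD.exists_data_one.{u} d m p hp hd
  let κ : Subfield C := (algebraicClosure F C).toSubfield
  have hκ : ∀ c : C, c ∈ κ ↔ IsAlgebraic F c := fun c => mem_algebraicClosure_iff
  have hTκ : AlgebraicIndependent κ ![algebraMap k C T] := by
    rw [algebraicIndependent_unique_type_iff]
    exact Pool.Agent.TD.kappa_transc_one hκ hT
  have : NeZero (p : C) := ⟨Nat.cast_ne_zero.mpr hp.ne_zero⟩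
  obtain ⟨ζ, hζ⟩ := HasEnoughRootsOfUnity.exists_primitiveRoot C p
  let F' : Subfield C := Subfield.closure (((algebraMap F C).fieldRange : Set C) ∪ {ζ})
  have hFF' : (algebraMap F C).fieldRange ≤ F' := fun x hx => Subfield.subset_closure (Or.inl hx)
  have hζF' : ζ ∈ F' := Subfield.subset_closure (Or.inr rfl)
  have hμ : ∀ ξ : C, ξ ^ p = 1 → ξ ∈ F' := by
    intro ξ hξ
    have : NeZero p := ⟨hp.ne_zero⟩
    obtain ⟨i, -, hi⟩ := hζ.eq_pow_of_pow_eq_one hξ
    rw [← hi]
    exact pow_mem hζF' _
  have hF'κ : F' ≤ κ := by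
    change Subfield.closure _ ≤ _
    rw [Subfield.closure_le, Set.union_subset_iff]
    constructor
    · rintro _ ⟨c, rfl⟩
      exact (hκ _).2 (isAlgebraic_algebraMap c)
    · rintro x hx
      rw [Set.mem_singleton_iff.mp hx]
      refine (hκ _).2 ?_
      apply IsAlgebraic.of_pow hp.pos
      rw [hζ.pow_eq_one]
      exact isAlgebraic_one
  have hκ' : ∀ x : C, x ∈ κ ↔ IsAlgebraic F' x := by
    intro x
    rw [hκ]
    constructor
    · intro hx
      exact isAlgebraic_mono hFF' (Pool.Agent.TD.isAlgebraic_range_iff.2 hx)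
    · intro hx
      have h1 : IsAlgebraic κ x := isAlgebraic_mono hF'κ hx
      have h2 : IsAlgebraic (algebraicClosure F C) x := h1
      exact (isIntegral_trans (R := F) (A := algebraicClosure F C) _ h2.isIntegral).isAlgebraic
  have hle0 : (algebraMap k C).fieldRange ≤
      gen (algebraMap F C).fieldRange ![algebraMap k C T] := by
    rintro _ ⟨x, rfl⟩
    have h1 : (IntermediateField.adjoin F {T} : IntermediateField F k).toSubfield ≤
        (gen (algebraMap F C).fieldRange ![algebraMap k C T]).comap (algebraMap k C) := by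
      rw [IntermediateField.adjoin_toSubfield, Subfield.closure_le]
      rintro x (⟨y, rfl⟩ | hx)
      · exact le_gen ⟨y, IsScalarTower.algebraMap_apply F k C y⟩
      · rw [Set.mem_singleton_iff.mp hx]
        exact gen_mem (τ := ![algebraMap k C T]) 0
    rw [htop] at h1
    exact h1 (Subfield.mem_top x)
  have hle : (algebraMap k C).fieldRange ≤ gen F' ![algebraMap k C T] :=
    hle0.trans (TH10.gen_mono_left hFF')
  have hcl : Subfield.closure ((κ : Set C) ∪ {algebraMap k C T}) =
      gen κ ![algebraMap k C T] := by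
    unfold gen
    rw [Matrix.range_cons, Matrix.range_empty, Set.union_empty]
  have hmap : ∀ c : F, algebraMap k C (algebraMap F k c) = algebraMap F C c := fun c =>
    (IsScalarTower.algebraMap_apply F k C c).symm
  refine TH10.no_family_one (F := F) (C := C) (J := J) (B := B) hp hd hm hnt (F' := F') (κ := κ)
    (ζ := ζ) rfl hζ.pow_eq_one hμ hκ' hTκ (fun x => ?_) (θ := θ) (z := z) (α := α) (fun j => ?_)
    (fun j i i' hii => ?_)
  · refine isAlgebraic_mono hle ?_
    have h1 : IsAlgebraic k x := (IsAlgClosure.isAlgebraic (R := k) (K := C)).isAlgebraic x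
    obtain ⟨P, hP0, hP⟩ := h1
    refine ⟨P.map (algebraMap k C).rangeRestrictField, ?_, ?_⟩
    · exact (Polynomial.map_ne_zero_iff (algebraMap k C).rangeRestrictField.injective).2 hP0
    · rw [← hP, aeval_def, eval₂_map]
      rfl
  · have h1 := (hlev j).mono hle
    simpa only [map_sum, map_mul, map_pow, hmap] using h1
  · have h1 := hB hF hT htop κ hκ (fun i l => vv j (i, l)) (hlev j) (hin j) i i' hii
    rw [hcl] at h1
    exact h1

/-- **No sections outside a thin set.** -/
theorem no_sections_thin {F k : Type u} [Field F] [CharZero F] [Field k] [Algebra F k]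
    (hF : ∃ S : Finset F, Subfield.closure (S : Set F) = ⊤) {T : k} (hT : Transcendental F T)
    (htop : IntermediateField.adjoin F {T} = ⊤) {d m : ℕ} (hd : 3 ≤ d) (hm : 1 ≤ m) :
    IsThin {a : Fin (d + 1) × Fin (m + 1) → F | ¬ HasNoSections d (curve1 T a)} := by
  classical
  refine ((thin_not_separable (m := m) hT hd).union (IsThin.biUnion d.primeFactors
    fun p hp => thin_key hF hT htop hd hm (Nat.prime_of_mem_primeFactors hp)
      (Nat.dvd_of_mem_primeFactors hp))).mono ?_
  intro a ha
  by_cases h1 : (curve1 T a).natDegree = d ∧ (curve1 T a).Separable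
  · right
    by_contra hne
    apply ha
    refine hasNoSections_of h1.1 h1.2 fun p hp hpd hs => hne ?_
    rw [Set.mem_iUnion₂]
    exact ⟨p, Nat.mem_primeFactors.mpr ⟨hp, hpd, by omega⟩, h1.1, h1.2, hs⟩
  · exact Or.inl h1

end UL
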