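import Pool.Agent.Helper10.UL.Choice
import Pool.Agent.Helper10.UL.FinalOne
import Pool.Agent.Helper13.TD.DXR
import Pool.Agent.Helper13.TD.NF

/-!
# Assembly over finite extensions of `F(T)`
-/

universe u

namespace UL

open Polynomial Pool.Agent.Helper37.UL Pool.Agent.Helper91.Sect Pool.Agent.HP

/-- The coefficients of the curves with sections are thin: the case of a good coordinate. -/
theorem thin_key_split {F k C : Type u} [Field F] [CharZero F] [Field k] [Algebra F k] [Field C]
    [Algebra k C] [IsAlgClosure k C] [Algebra F C] [IsScalarTower F k C]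
    (hF : ∃ S : Finset F, Subfield.closure (S : Set F) = ⊤) {T q : k} (hT : Transcendental F T)
    (hq : IsAlgebraic (IntermediateField.adjoin F {T}) q)
    (htop : IntermediateField.adjoin F {T, q} = ⊤)
    {κ : Subfield C} (hκ : ∀ c : C, c ∈ κ ↔ IsAlgebraic F c)
    (hs : TH.SplitAt κ (algebraMap k C T) (algebraMap k C q))
    {d m : ℕ} (hd : 3 ≤ d) (hm : 1 ≤ m) {p : ℕ} (hp : p.Prime) (hpd : p ∣ d) :
    IsThin {a : Fin (d + 1) × Fin (m + 1) → F | (curve1 T a).natDegree = d ∧
      (curve1 T a).Separable ∧ SectionP p (curve1 T a)} := by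
  classical
  by_contra hcon
  have hk0 : CharZero k := charZero_of_injective_algebraMap (algebraMap F k).injective
  have hCcl : IsAlgClosed C := IsAlgClosure.isAlgClosed k
  let J : Type u := {a : Fin (d + 1) × Fin (m + 1) → F // (curve1 T a).natDegree = d ∧
    (curve1 T a).Separable ∧ SectionP p (curve1 T a)}
  let vv : J → Fin (d + 1) × Fin (m + 1) → F := Subtype.val
  have hnt : ¬ IsThin (Set.range vv) := by
    intro h
    apply hcon
    refine h.mono fun a ha => ⟨⟨a, ha⟩, rfl⟩
  have hC0 : CharZero C := charZero_of_injective_algebraMap (algebraMap k C).injective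
  -- level one structures
  have hA : ∀ j : J, ∃ (θ : Fin d → C) (z : Fin d → Fin d → C) (α : C),
      Lev (algebraMap k C).fieldRange p
        (fun i : Fin (d + 1) => algebraMap k C
          (∑ l : Fin (m + 1), algebraMap F k (vv j (i, l)) * T ^ (l : ℕ))) θ z α ∧
      ∀ V : ValuationSubring C,
        HasPlaces (IsLocalRing.ResidueField (V.comap (algebraMap k C))) →
        ((p : ℕ) : IsLocalRing.ResidueField (V.comap (algebraMap k C))) ≠ 0 →
        GoodAt V (fun i : Fin (d + 1) => algebraMap k C
          (∑ l : Fin (m + 1), algebraMap F k (vv j (i, l)) * T ^ (l : ℕ))) θ →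
        ∀ σ : C ≃+* C, Inert (algebraMap k C).fieldRange V σ →
          ∀ i j, i ≠ j → σ (z i j) = z i j := by
    rintro ⟨a, h1, h2, K, _, _, x, y, hx, hxy, ⟨s⟩⟩
    obtain ⟨θ, z, α, h3, h4⟩ := exists_lev hp hpd hd h2 h1 hx hxy s C
    simp only [coeff_curve1] at h3 h4
    exact ⟨θ, z, α, h3, h4⟩
  choose θ z α hlev hin using hA
  obtain ⟨D, B, -, -, hB⟩ := Pool.Agent.TD.exists_dataR hF hT hq htop κ hκ d m p hp hd
  have hTκ : AlgebraicIndependent κ ![algebraMap k C T] := by
    rw [algebraicIndependent_unique_type_iff]
    exact Pool.Agent.TD.kappa_transc_one hκ hT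
  have hle : (algebraMap k C).fieldRange ≤
      Subfield.closure ((gen (algebraMap F C).fieldRange ![algebraMap k C T] : Set C) ∪
        {algebraMap k C q}) := by
    rintro _ ⟨x, rfl⟩
    have h1 : (IntermediateField.adjoin F {T, q} : IntermediateField F k).toSubfield ≤
        (Subfield.closure ((gen (algebraMap F C).fieldRange ![algebraMap k C T] : Set C) ∪
        {algebraMap k C q})).comap (algebraMap k C) := by
      rw [IntermediateField.adjoin_toSubfield, Subfield.closure_le]
      rintro x (⟨y, rfl⟩ | hx)
      · exact Subfield.subset_closure (Or.inl (le_gen ⟨y, IsScalarTower.algebraMap_apply F k C y⟩))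
      · rcases hx with rfl | hx
        · exact Subfield.subset_closure (Or.inl (gen_mem (τ := ![algebraMap k C x]) 0))
        · rw [Set.mem_singleton_iff.mp hx]
          exact Subfield.subset_closure (Or.inr rfl)
    rw [htop] at h1
    exact h1 (Subfield.mem_top x)
  have hcl : Subfield.closure ((κ : Set C) ∪ {algebraMap k C T}) =
      gen κ ![algebraMap k C T] := by
    unfold gen
    rw [Matrix.range_cons, Matrix.range_empty, Set.union_empty]
  have hmap : ∀ c : F, algebraMap k C (algebraMap F k c) = algebraMap F C c := fun c =>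
    (IsScalarTower.algebraMap_apply F k C c).symm
  refine TH.no_family_theta (F := F) (C := C) (J := J) (B := B) (D := D) hp hd hm hnt (κ := κ)
    (fun x => ?_) hTκ hs (fun x => ?_) (θ := θ) (z := z) (α := α) (fun j => ?_)
    (fun j i i' hii => ?_)
  · rw [hκ]
    exact Pool.Agent.TD.isAlgebraic_range_iff.symm
  · -- `C` is algebraic over `F(T)`
    have hLg : (IntermediateField.adjoin F {T}).toSubfield.map (algebraMap k C) ≤
        gen (algebraMap F C).fieldRange ![algebraMap k C T] := by
      rw [IntermediateField.adjoin_toSubfield, RingHom.map_field_closure, Subfield.closure_le]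
      rintro _ ⟨x, (⟨y, rfl⟩ | hx), rfl⟩
      · exact le_gen ⟨y, IsScalarTower.algebraMap_apply F k C y⟩
      · rw [Set.mem_singleton_iff.mp hx]
        exact gen_mem (τ := ![algebraMap k C T]) 0
    set g := gen (algebraMap F C).fieldRange ![algebraMap k C T] with hg
    have hqg : IsAlgebraic g (algebraMap k C q) := by
      obtain ⟨P, hP0, hP⟩ := hq
      let ψ : IntermediateField.adjoin F {T} →+* g := ((algebraMap k C).comp
        (algebraMap (IntermediateField.adjoin F {T}) k)).codRestrict g.toSubring
        (fun x => hLg ⟨x, x.2, rfl⟩)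
      refine ⟨P.map ψ, (Polynomial.map_ne_zero_iff ψ.injective).2 hP0, ?_⟩
      have h1 := congrArg (algebraMap k C) hP
      rw [map_zero, aeval_def, hom_eval₂] at h1
      rw [aeval_def, eval₂_map, ← h1]
      rfl
    let A : Subfield C := (algebraicClosure g C).toSubfield
    have hA : ∀ y, y ∈ A ↔ IsAlgebraic g y := fun y => mem_algebraicClosure_iff
    have hcA : Subfield.closure ((g : Set C) ∪ {algebraMap k C q}) ≤ A := by
      rw [Subfield.closure_le, Set.union_subset_iff]
      refine ⟨fun y hy => (hA y).2 (isAlgebraic_algebraMap (⟨y, hy⟩ : g)), ?_⟩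
      rintro _ rfl
      exact (hA _).2 hqg
    have h1 : IsAlgebraic k x := (IsAlgClosure.isAlgebraic (R := k) (K := C)).isAlgebraic x
    have h2 : IsAlgebraic (algebraMap k C).fieldRange x := by
      obtain ⟨P, hP0, hP⟩ := h1
      refine ⟨P.map (algebraMap k C).rangeRestrictField, ?_, ?_⟩
      · exact (Polynomial.map_ne_zero_iff (algebraMap k C).rangeRestrictField.injective).2 hP0
      · rw [← hP, aeval_def, eval₂_map]
        rfl
    have h3 : IsAlgebraic A x := isAlgebraic_mono (hle.trans hcA) h2
    have h4 : IsAlgebraic (algebraicClosure g C) x := h3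
    exact (isIntegral_trans (R := g) (A := algebraicClosure g C) _ h4.isIntegral).isAlgebraic
  · have h1 := (hlev j).mono hle
    simpa only [map_sum, map_mul, map_pow, hmap] using h1
  · have h1 := hB (fun i l => vv j (i, l)) (hlev j) (hin j) i i' hii
    rw [hcl] at h1
    exact h1

/-- The coefficients of the curves with sections are thin. -/
theorem thin_key_theta {F k : Type u} [Field F] [CharZero F] [Field k] [Algebra F k]
    (hF : ∃ S : Finset F, Subfield.closure (S : Set F) = ⊤) {T : k} (hT : Transcendental F T)
    [FiniteDimensional (IntermediateField.adjoin F {T}) k]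
    {d m : ℕ} (hd : 3 ≤ d) (hm : 1 ≤ m) {p : ℕ} (hp : p.Prime) (hpd : p ∣ d) :
    IsThin {a : Fin (d + 1) × Fin (m + 1) → F | (curve1 T a).natDegree = d ∧
      (curve1 T a).Separable ∧ SectionP p (curve1 T a)} := by
  let C : Type u := AlgebraicClosure k
  let κ : Subfield C := (algebraicClosure F C).toSubfield
  have hκ : ∀ c : C, c ∈ κ ↔ IsAlgebraic F c := fun c => mem_algebraicClosure_iff
  obtain ⟨c, q, htop, hq, hs⟩ := exists_split (C := C) hT hκ
  set T₁ : k := T - algebraMap F k c with hT₁
  have hTT₁ : T = T₁ + algebraMap F k c := by rw [hT₁, sub_add_cancel]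
  have hadj : IntermediateField.adjoin F {T₁} = IntermediateField.adjoin F {T} := by
    apply le_antisymm
    · rw [IntermediateField.adjoin_simple_le_iff]
      exact sub_mem (IntermediateField.mem_adjoin_simple_self F T)
        ((IntermediateField.adjoin F {T}).algebraMap_mem c)
    · rw [IntermediateField.adjoin_simple_le_iff, hTT₁]
      exact add_mem (IntermediateField.mem_adjoin_simple_self F T₁)
        ((IntermediateField.adjoin F {T₁}).algebraMap_mem c)
  have hT₁t : Transcendental F T₁ := by
    intro h
    apply hT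
    rw [hTT₁]
    exact h.add (isAlgebraic_algebraMap c)
  have htop₁ : IntermediateField.adjoin F {T₁, q} = ⊤ := by
    rw [eq_top_iff, ← htop, IntermediateField.adjoin_le_iff]
    rintro x (rfl | hx)
    · rw [SetLike.mem_coe, hTT₁]
      exact add_mem (IntermediateField.subset_adjoin F _ (by simp))
        ((IntermediateField.adjoin F {T₁, q}).algebraMap_mem c)
    · rw [Set.mem_singleton_iff.mp hx]
      exact IntermediateField.subset_adjoin F _ (by simp)
  have hq₁ : IsAlgebraic (IntermediateField.adjoin F {T₁}) q := by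
    rw [hadj]
    exact hq
  refine ((thin_key_split hF hT₁t hq₁ htop₁ hκ hs hd hm hp hpd).shift c).mono ?_
  intro a ha
  change (curve1 T₁ (shiftV c a)).natDegree = d ∧ (curve1 T₁ (shiftV c a)).Separable ∧
    SectionP p (curve1 T₁ (shiftV c a))
  rw [hT₁, curve1_shift]
  exact ha

/-- **No sections outside a thin set.** -/
theorem no_sections_theta {F k : Type u} [Field F] [CharZero F] [Field k] [Algebra F k]
    (hF : ∃ S : Finset F, Subfield.closure (S : Set F) = ⊤) {T : k} (hT : Transcendental F T)
    [FiniteDimensional (IntermediateField.adjoin F {T}) k] {d m : ℕ} (hd : 3 ≤ d) (hm : 1 ≤ m) :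
    IsThin {a : Fin (d + 1) × Fin (m + 1) → F | ¬ HasNoSections d (curve1 T a)} := by
  classical
  refine ((thin_not_separable (m := m) hT hd).union (IsThin.biUnion d.primeFactors
    fun p hp => thin_key_theta hF hT hd hm (Nat.prime_of_mem_primeFactors hp)
      (Nat.dvd_of_mem_primeFactors hp))).mono ?_
  intro a ha
  by_cases h1 : (curve1 T a).natDegree = d ∧ (curve1 T a).Separable
  · right
    by_contra hne
    apply ha
    refine hasNoSections_of h1.1 h1.2 fun p hp hpd hs => hne ?_
    rw [Set.mem_iUnion₂]
    exact ⟨p, Nat.mem_primeFactors.mpr ⟨hp, hpd, by omega⟩, h1.1, h1.2, hs⟩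
  · exact Or.inl h1

end UL
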