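import Pool.Agent.Helper10.UL.Shift
import Pool.Agent.Helper13.TD.D1
import Pool.Agent.Helper37.TH.Split

/-!
# The choice of a generator which splits completely at a rational point
-/

universe u v

namespace UL

open Polynomial

/-- A separable polynomial over `F(T)` with coefficients in `F[T]` is separable at almost all points. -/
theorem exists_separable_eval {F : Type u} [Field F] [Infinite F] {M : F[X][X]}
    (hM : (M.map (algebraMap F[X] (FractionRing F[X]))).Separable) :
    ∃ c : F, (M.map (evalRingHom c)).Separable := by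
  classical
  set K := FractionRing F[X]
  obtain ⟨A, B, hAB⟩ := hM
  obtain ⟨a, haM, ha⟩ := IsLocalization.integerNormalization_spec (nonZeroDivisors F[X]) A
  obtain ⟨b, hbM, hb⟩ := IsLocalization.integerNormalization_spec (nonZeroDivisors F[X]) B
  set A' := IsLocalization.integerNormalization (nonZeroDivisors F[X]) A
  set B' := IsLocalization.integerNormalization (nonZeroDivisors F[X]) B
  have ha' : A'.map (algebraMap F[X] K) = C (algebraMap F[X] K a) * A := by
    rw [ha, ← smul_eq_C_mul, algebraMap_smul]
  have hb' : B'.map (algebraMap F[X] K) = C (algebraMap F[X] K b) * B := by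
    rw [hb, ← smul_eq_C_mul, algebraMap_smul]
  have ha0 : a ≠ 0 := nonZeroDivisors.ne_zero haM
  have hb0 : b ≠ 0 := nonZeroDivisors.ne_zero hbM
  have hinj : Function.Injective (algebraMap F[X] K) := IsFractionRing.injective _ _
  have key : C b * A' * M + C a * B' * derivative M = C (a * b) := by
    apply Polynomial.map_injective _ hinj
    rw [Polynomial.map_add, Polynomial.map_mul, Polynomial.map_mul, Polynomial.map_mul,
      Polynomial.map_mul, ha', hb', map_C, map_C, map_C, ← derivative_map, map_mul, C_mul,
      ← mul_one (C (algebraMap F[X] K a) * C (algebraMap F[X] K b)), ← hAB]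
    ring
  obtain ⟨c, hc⟩ : ∃ c : F, (a * b).eval c ≠ 0 := by
    by_contra hcon
    push Not at hcon
    exact mul_ne_zero ha0 hb0 (Polynomial.funext fun x => by rw [hcon x, eval_zero])
  refine ⟨c, ?_⟩
  have h1 := congrArg (Polynomial.map (evalRingHom c)) key
  rw [Polynomial.map_add, Polynomial.map_mul, Polynomial.map_mul, Polynomial.map_mul,
    Polynomial.map_mul, map_C, map_C, map_C, ← derivative_map, coe_evalRingHom] at h1
  refine ⟨C ((a * b).eval c)⁻¹ * (C (b.eval c) * A'.map (evalRingHom c)),
    C ((a * b).eval c)⁻¹ * (C (a.eval c) * B'.map (evalRingHom c)), ?_⟩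
  have h2 : C ((a * b).eval c)⁻¹ * (C (b.eval c) * A'.map (evalRingHom c)) *
      M.map (evalRingHom c) + C ((a * b).eval c)⁻¹ * (C (a.eval c) * B'.map (evalRingHom c)) *
      derivative (M.map (evalRingHom c)) = C ((a * b).eval c)⁻¹ *
      (C (b.eval c) * A'.map (evalRingHom c) * M.map (evalRingHom c) +
      C (a.eval c) * B'.map (evalRingHom c) * derivative (M.map (evalRingHom c))) := by ring
  rw [h2, h1, ← C_mul, inv_mul_cancel₀ hc, C_1]

lemma eval_monic {R : Type*} [CommRing R] {p : R[X]} (hp : p.Monic) {S : Type*} [CommRing S]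
    (f : R →+* S) (x : S) :
    eval₂ f x p = x ^ p.natDegree + ∑ i : Fin p.natDegree, f (p.coeff i) * x ^ (i : ℕ) := by
  rw [eval₂_eq_sum_range, Finset.sum_range_succ, hp.coeff_natDegree, map_one, one_mul, add_comm,
    Finset.sum_range]

/-- **The choice of the generator.** -/
theorem exists_split {F k C : Type u} [Field F] [CharZero F] [Field k] [Algebra F k] [Field C]
    [Algebra k C] [IsAlgClosure k C] [Algebra F C] [IsScalarTower F k C] {T : k}
    (hT : Transcendental F T) [FiniteDimensional (IntermediateField.adjoin F {T}) k]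
    {κ : Subfield C} (hκ : ∀ c : C, c ∈ κ ↔ IsAlgebraic F c) :
    ∃ (c : F) (q : k), IntermediateField.adjoin F {T, q} = ⊤ ∧
      IsAlgebraic (IntermediateField.adjoin F {T}) q ∧
      TH.SplitAt κ (algebraMap k C (T - algebraMap F k c)) (algebraMap k C q) := by
  classical
  have hk0 : CharZero k := charZero_of_injective_algebraMap (algebraMap F k).injective
  have hκcl : IsAlgClosed κ := Pool.Agent.TD.kappa_closed_one k hκ
  obtain ⟨α, hα⟩ := Field.exists_primitive_element (IntermediateField.adjoin F {T}) k
  -- the structures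
  let _ : Algebra F[X] k := (aeval T : F[X] →ₐ[F] k).toRingHom.toAlgebra
  have hRk : ∀ P : F[X], algebraMap F[X] k P = aeval T P := fun _ => rfl
  have hinj : Function.Injective (algebraMap F[X] k) := transcendental_iff_injective.1 hT
  let K := FractionRing F[X]
  let _ : Algebra K k := (IsFractionRing.lift hinj : K →+* k).toAlgebra
  have hst : IsScalarTower F[X] K k := IsScalarTower.of_algebraMap_eq fun P =>
    (IsFractionRing.lift_algebraMap hinj P).symm
  have hL : (IntermediateField.adjoin F {T}).toSubfield ≤ (algebraMap K k).fieldRange := by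
    rw [IntermediateField.adjoin_toSubfield, Subfield.closure_le]
    rintro x (⟨y, rfl⟩ | hx)
    · refine ⟨algebraMap F[X] K (Polynomial.C y), ?_⟩
      rw [← IsScalarTower.algebraMap_apply F[X] K k, hRk, aeval_C]
    · rw [Set.mem_singleton_iff.mp hx]
      refine ⟨algebraMap F[X] K X, ?_⟩
      rw [← IsScalarTower.algebraMap_apply F[X] K k, hRk, aeval_X]
  have halg : ∀ x : k, IsAlgebraic K x := by
    intro x
    have h1 : IsAlgebraic (IntermediateField.adjoin F {T}) x := Algebra.IsAlgebraic.isAlgebraic x
    have h2 : IsAlgebraic (IntermediateField.adjoin F {T}).toSubfield x := h1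
    exact Pool.Agent.TD.isAlgebraic_range_iff.1 (Pool.Agent.Helper37.UL.isAlgebraic_mono hL h2)
  have halgR : IsAlgebraic F[X] α := (IsFractionRing.isAlgebraic_iff F[X] K k).2 (halg α)
  obtain ⟨b, hb0, hint⟩ := halgR.exists_integral_multiple
  set q : k := b • α with hq
  have hqb : q = aeval T b * α := by rw [hq, Algebra.smul_def, hRk]
  have hb0' : aeval T b ≠ 0 := by
    rw [← hRk, Ne, map_eq_zero_iff _ hinj]
    exact hb0
  -- the minimal polynomial
  set M : F[X][X] := minpoly F[X] q with hM
  have hMmonic : M.Monic := minpoly.monic hint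
  have hMK : M.map (algebraMap F[X] K) = minpoly K q :=
    (minpoly.isIntegrallyClosed_eq_field_fractions K k hint).symm
  have hMsep : (M.map (algebraMap F[X] (FractionRing F[X]))).Separable := by
    rw [hMK]
    exact (minpoly.irreducible (halg q).isIntegral).separable
  obtain ⟨c, hc⟩ := exists_separable_eval hMsep
  set e := M.natDegree with he
  -- the constants
  have hFκ : ∀ a : F, algebraMap F C a ∈ κ := fun a => (hκ _).2 (isAlgebraic_algebraMap a)
  let φ : F →+* κ := (algebraMap F C).codRestrict κ.toSubring hFκ
  let P : Fin e → κ[X] := fun i => ((M.coeff i).map φ).comp (X + Polynomial.C (φ c))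
  let p : κ[X] := (M.map (evalRingHom c)).map φ
  have hpmonic : p.Monic := (hMmonic.map _).map _
  have hpe : p.natDegree = e := by
    rw [natDegree_map, hMmonic.natDegree_map]
  have hpsep : p.Separable := hc.map
  have hcard : p.roots.toFinset.card = e := by
    rw [Multiset.toFinset_card_of_nodup (nodup_roots hpsep), ← hpe]
    exact splits_iff_card_roots.mp (IsAlgClosed.splits p)
  let ε : Fin e ≃ p.roots.toFinset := (Finset.equivFinOfCardEq hcard).symm
  refine ⟨c, q, ?_, ?_, e, P, fun j => (ε j : κ), ?_, ?_, ?_⟩
  · set E := IntermediateField.adjoin F {T, q} with hE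
    have hTE : T ∈ E := IntermediateField.subset_adjoin F _ (by simp)
    have hqE : q ∈ E := IntermediateField.subset_adjoin F _ (by simp)
    have hLE : IntermediateField.adjoin F {T} ≤ E := by
      rw [IntermediateField.adjoin_simple_le_iff]
      exact hTE
    have hbE : aeval T b ∈ E := hLE (IntermediateField.algebra_adjoin_le_adjoin F {T}
      (aeval_mem_adjoin_singleton F T))
    have hαE : α ∈ E := by
      have h1 : α = (aeval T b)⁻¹ * q := by
        rw [hqb, inv_mul_cancel_left₀ hb0']
      rw [h1]
      exact mul_mem (inv_mem hbE) hqE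
    rw [eq_top_iff]
    intro x _
    have h1 : (IntermediateField.adjoin (IntermediateField.adjoin F {T}) {α}).toSubfield ≤
        E.toSubfield := by
      rw [IntermediateField.adjoin_toSubfield, Subfield.closure_le]
      rintro x (⟨y, rfl⟩ | hx)
      · exact hLE y.2
      · rw [Set.mem_singleton_iff.mp hx]
        exact hαE
    rw [hα] at h1
    exact h1 (Subfield.mem_top x)
  · exact Algebra.IsAlgebraic.isAlgebraic q
  · intro a a' haa
    exact ε.injective (Subtype.ext haa)
  · intro j
    have h1 := (ε j).2
    rw [Multiset.mem_toFinset, mem_roots hpmonic.ne_zero, IsRoot.def] at h1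
    have h2 := eval_monic hMmonic ((φ : F →+* κ).comp (evalRingHom c)) (ε j : κ)
    rw [← eval₂_map, ← eval_map] at h2
    refine Eq.trans ?_ (h2.symm.trans h1)
    congr 1
    refine Finset.sum_congr rfl fun i _ => ?_
    congr 1
    simp only [P]
    rw [eval_comp, eval_add, eval_X, eval_C, zero_add, eval_map, eval₂_at_apply]
    rfl
  · have h1 : eval₂ (algebraMap F[X] k) q M = 0 := minpoly.aeval F[X] q
    rw [eval_monic hMmonic] at h1
    have h2 := congrArg (algebraMap k C) h1
    rw [map_zero, map_add, map_pow, map_sum] at h2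
    rw [← h2]
    congr 1
    refine Finset.sum_congr rfl fun i _ => ?_
    rw [map_mul, map_pow, hRk]
    congr 1
    simp only [P]
    rw [aeval_comp, map_add, aeval_X, aeval_C, map_sub]
    have h3 : algebraMap κ C (φ c) = algebraMap k C (algebraMap F k c) := by
      rw [← IsScalarTower.algebraMap_apply]
      rfl
    rw [h3, sub_add_cancel, aeval_def, eval₂_map, aeval_def, hom_eval₂]
    congr 1
    rw [← IsScalarTower.algebraMap_eq]
    rfl

end UL
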