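import Mathlib
import Pool.Agent.Helper37.UL.Data

/-!
# Level one structures and bounded data along field embeddings
-/

universe u v

namespace UL

open Polynomial Pool.Agent.Helper37.UL

variable {C₁ : Type u} {C₂ : Type v} [Field C₁] [Field C₂] (ι : C₁ →+* C₂)

theorem Lev_map {k₁ : Subfield C₁} {k₂ : Subfield C₂} (hk : ∀ x ∈ k₁, ι x ∈ k₂) {p d : ℕ}
    {a : Fin (d + 1) → C₁} {θ : Fin d → C₁} {z : Fin d → Fin d → C₁} {α : C₁}
    (h : Lev k₁ p a θ z α) :
    Lev k₂ p (fun i => ι (a i)) (fun i => ι (θ i)) (fun i j => ι (z i j)) (ι α) := by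
  obtain ⟨φ, hφ, hpow⟩ := h.pow
  obtain ⟨ψ, hψ, hcoc⟩ := h.coc
  obtain ⟨χ, hχ, hnrm⟩ := h.nrm
  refine ⟨fun i => hk _ (h.coef i), (map_ne_zero ι).2 h.lead, fun i j hij => h.inj (ι.injective hij),
    fun i => ?_, fun i j hij => (map_ne_zero ι).2 (h.ne i j hij), ⟨fun r s => ι (φ r s),
      fun r s => hk _ (hφ r s), fun i j hij => ?_⟩, ⟨fun r s t => ι (ψ r s t),
      fun r s t => hk _ (hψ r s t), fun i j l hij hjl hil => ?_⟩, ?_, ⟨fun r => ι (χ r),
      fun r => hk _ (hχ r), fun i => ?_⟩⟩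
  · have h1 := congrArg ι (h.root i)
    simpa only [map_sum, map_mul, map_pow, map_zero] using h1
  · have h1 := congrArg ι (hpow i j hij)
    simpa only [map_sum, map_mul, map_pow] using h1
  · have h1 := congrArg ι (hcoc i j l hij hjl hil)
    simpa only [map_sum, map_mul, map_pow] using h1
  · have h1 := congrArg ι h.alpha
    simpa only [map_pow] using h1
  · have h1 := congrArg ι (hnrm i)
    simpa only [map_sum, map_mul, map_pow, map_prod] using h1

theorem Cpx_map {κ₁ : Subfield C₁} {κ₂ : Subfield C₂} (hκ : ∀ x ∈ κ₁, ι x ∈ κ₂) {d B : ℕ}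
    {t x y h : C₁} (H : Cpx κ₁ d B t x y h) : Cpx κ₂ d B (ι t) (ι x) (ι y) (ι h) := by
  obtain ⟨n, q, hn, hq, hq0, he⟩ := H
  refine ⟨fun i j l => ι (n i j l), fun l => ι (q l), fun i j l => hκ _ (hn i j l),
    fun l => hκ _ (hq l), ?_, ?_⟩
  · intro h0
    apply hq0
    funext l
    have h1 := congrFun h0 l
    exact (map_eq_zero ι).1 h1
  · have h1 := congrArg ι he
    simpa only [map_sum, map_mul, map_pow] using h1

/-- A root of a polynomial over an algebraically closed subfield is in this subfield. -/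
theorem exists_of_root {κ₁ : Subfield C₁} (hcl : IsAlgClosed κ₁) {n : ℕ} {c : Fin n → C₁}
    (hc : ∀ i, c i ∈ κ₁) (hc0 : c ≠ 0) {x : C₂} (hx : ∑ i, ι (c i) * x ^ (i : ℕ) = 0) :
    ∃ s ∈ κ₁, ι s = x := by
  classical
  let _ : Algebra κ₁ C₂ := (ι.comp κ₁.subtype).toAlgebra
  let P : κ₁[X] := ∑ i : Fin n, C (⟨c i, hc i⟩ : κ₁) * X ^ (i : ℕ)
  have hP0 : P ≠ 0 := by
    intro h0
    apply hc0
    funext j
    have h1 := congrArg (fun q => q.coeff j) h0
    simp only [P, finsetSum_coeff, coeff_C_mul, coeff_X_pow, coeff_zero] at h1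
    rw [Finset.sum_eq_single j] at h1
    · simp only [if_true, mul_one] at h1
      exact congrArg Subtype.val h1
    · intro l _ hl
      rw [if_neg, mul_zero]
      intro h2
      exact hl (Fin.ext h2.symm)
    · intro h2
      exact absurd (Finset.mem_univ _) h2
  have hP : aeval x P = 0 := by
    rw [← hx, map_sum]
    refine Finset.sum_congr rfl fun i _ => ?_
    rw [map_mul, aeval_C, map_pow, aeval_X]
    rfl
  have halg : IsAlgebraic κ₁ x := ⟨P, hP0, hP⟩
  have hint : IsIntegral κ₁ x := halg.isIntegral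
  have hdeg : (minpoly κ₁ x).degree = 1 :=
    IsAlgClosed.degree_eq_one_of_irreducible κ₁ (minpoly.irreducible hint)
  obtain ⟨s, hs⟩ := minpoly.mem_range_of_degree_eq_one κ₁ x hdeg
  exact ⟨s, s.2, hs⟩

/-- Bounded data along field embeddings. -/
theorem Data_map {κ₁ Kg₁ : Subfield C₁} {κ₂ Kg₂ : Subfield C₂} (hκ : ∀ x ∈ κ₁, ι x ∈ κ₂)
    (hKg : ∀ x ∈ Kg₁, ι x ∈ Kg₂) (hcl : IsAlgClosed κ₁) {t : C₁} {d p B m : ℕ}
    {a : Fin (d + 1) → Fin (m + 1) → C₁} (ha : ∀ i l, a i l ∈ κ₁) (hgood : ∃ t₁ ∈ κ₁, Good κ₁ a t₁)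
    {x y w : C₁} (H : Data κ₁ Kg₁ t d p B a x y w) :
    Data κ₂ Kg₂ (ι t) d p B (fun i l => ι (a i l)) (ι x) (ι y) (ι w) := by
  obtain ⟨g, r, G, c, e, hg, hr, hG, hgG, hA, hR, hc, he, hχ, hχ', hval⟩ := H
  refine ⟨ι g, ι r, fun i j => ι (G i j), fun i l => ι (c i l), fun i l => ι (e i l),
    (map_ne_zero ι).2 hg, (map_ne_zero ι).2 hr, fun i j => hKg _ (hG i j), ?_, ?_,
    Cpx_map ι hκ hR, fun i l => hκ _ (hc i l), fun i l => hκ _ (he i l), ?_, ?_, ?_⟩
  · have h1 := congrArg ι hgG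
    simpa only [map_sum, map_mul, map_pow] using h1
  · have h1 := Cpx_map ι hκ hA
    simpa only [map_mul, map_pow] using h1
  · have h1 := congrArg ι hχ
    simpa only [map_add, map_sum, map_mul, map_pow, map_zero] using h1
  · have h1 := congrArg ι hχ'
    simpa only [map_add, map_sum, map_mul, map_pow, map_zero] using h1
  · intro t₀ ht₀ hgd i hi
    by_contra hcon
    push Not at hcon
    obtain ⟨h1, h2⟩ := hcon
    -- `t₀` is in `κ₁`
    obtain ⟨s₀, hs₀, rfl⟩ : ∃ s ∈ κ₁, ι s = t₀ := by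
      obtain ⟨t₁, ht₁, hg₁⟩ := hgood
      rcases hval t₁ ht₁ hg₁ i hi with h3 | h3
      · refine exists_of_root ι hcl (hc i) (fun h0 => h3 ?_) h1
        rw [h0]
        simp
      · refine exists_of_root ι hcl (he i) (fun h0 => h3 ?_) h2
        rw [h0]
        simp
    obtain ⟨hlead, ρ, hρi, -, hρ⟩ := hgd
    have hmap : ∀ i, ∑ l, ι (a i l) * ι s₀ ^ (l : ℕ) = ι (∑ l, a i l * s₀ ^ (l : ℕ)) := by
      intro i
      simp only [map_sum, map_mul, map_pow]
    have hlead' : ∑ l, a (Fin.last d) l * s₀ ^ (l : ℕ) ≠ 0 := by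
      intro h0
      apply hlead
      rw [hmap, h0, map_zero]
    have hroot : ∀ j, ∃ s ∈ κ₁, ι s = ρ j := by
      intro j
      refine exists_of_root ι hcl (c := fun i => ∑ l, a i l * s₀ ^ (l : ℕ)) (fun i => ?_)
        (fun h0 => hlead' (congrFun h0 (Fin.last d))) ?_
      · exact sum_mem fun l _ => mul_mem (ha i l) (pow_mem hs₀ _)
      · rw [← hρ j]
        refine Finset.sum_congr rfl fun i _ => ?_
        rw [hmap]
    choose s hs hsρ using hroot
    have hgood₀ : Good κ₁ a s₀ := by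
      refine ⟨hlead', s, fun j j' hjj => hρi (by rw [← hsρ, ← hsρ, hjj]), hs, fun j => ?_⟩
      apply ι.injective
      rw [map_sum, map_zero, ← hρ j]
      refine Finset.sum_congr rfl fun i _ => ?_
      rw [map_mul, map_pow, hsρ, hmap]
    rcases hval s₀ hs₀ hgood₀ i hi with h3 | h3
    · apply h3
      apply ι.injective
      rw [map_zero, ← h1]
      simp only [map_sum, map_mul, map_pow]
    · apply h3
      apply ι.injective
      rw [map_zero, ← h2]
      simp only [map_sum, map_mul, map_pow]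

end UL
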